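import Pool.Agent.V7H56.PP.Pos

/-!
# If `P = PSPACE` then conjugate polynomial-time permutations are conjugate in polynomial time
-/

namespace Pool.Agent.V7H56.PP

open Pool.Agent.NPC Pool.Agent.NPC.PIso
open Function (minimalPeriod)

theorem exists_of_lt_count {p : ℕ → Prop} [DecidablePred p] {r : ℕ} : ∀ {K : ℕ},
    r < Nat.count p K → ∃ k < K, p k ∧ Nat.count p k = r := by
  intro K
  induction K with
  | zero => intro h; simp at h
  | succ K ih =>
    intro h
    rcases Nat.lt_or_ge r (Nat.count p K) with h1 | h1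
    · obtain ⟨k, hk, h2⟩ := ih h1
      exact ⟨k, by omega, h2⟩
    · rw [Nat.count_succ] at h
      split_ifs at h with h2
      · exact ⟨K, by omega, h2, by omega⟩
      · omega

section lead

open Classical

variable (f : List Bool → List Bool)

/-- the number `k` codes the least point of a cycle of length `c` of strings of length `n` -/
def Lead (n c k : ℕ) : Prop := IsMin f (pad n k) ∧ minimalPeriod f (pad n k) = c

/-- the rank of the cycle of `x` among the cycles of the same length -/
noncomputable def rk (x : List Bool) : ℕ :=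
  Nat.count (Lead f x.length (minimalPeriod f x)) (valB (mn f x))

/-- the least point of the `r`-th cycle of length `c` -/
noncomputable def sel (n c r : ℕ) : List Bool :=
  pad n (lst (fun k => decide (Lead f n c k ∧ Nat.count (Lead f n c) k = r)) (2 ^ n))

/-- the number of cycles of length `c` -/
noncomputable def tot (n c : ℕ) : ℕ := Nat.count (Lead f n c) (2 ^ n)

/-- the conjugation -/
noncomputable def cj (f f' : List Bool → List Bool) (x : List Bool) : List Bool :=
  f'^[di f x] (sel f' x.length (minimalPeriod f x) (rk f x))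

variable {f}

theorem sel_spec {n c r : ℕ} (h : r < tot f n c) :
    (sel f n c r).length = n ∧ IsMin f (sel f n c r) ∧ minimalPeriod f (sel f n c r) = c ∧
      Nat.count (Lead f n c) (valB (sel f n c r)) = r := by
  obtain ⟨k, hk, h1, h2⟩ := exists_of_lt_count h
  have h3 := lst_spec (p := fun k => decide (Lead f n c k ∧ Nat.count (Lead f n c) k = r))
    (N := 2 ^ n) ⟨k, hk, by simpa using ⟨h1, h2⟩⟩
  unfold sel
  generalize lst (fun k => decide (Lead f n c k ∧ Nat.count (Lead f n c) k = r)) (2 ^ n) = j
    at h3 ⊢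
  obtain ⟨h4, h5⟩ := h3
  rw [decide_eq_true_iff] at h5
  refine ⟨pad_length h4, h5.1.1, h5.1.2, ?_⟩
  rw [valB_pad]
  exact h5.2

theorem sel_unique {n c r : ℕ} {y : List Bool} (hl : y.length = n) (h1 : IsMin f y)
    (h2 : minimalPeriod f y = c) (h3 : Nat.count (Lead f n c) (valB y) = r) :
    sel f n c r = y := by
  have hp : Lead f n c (valB y) := by
    unfold Lead
    rw [pad_valB hl]
    exact ⟨h1, h2⟩
  have hlt : valB y < 2 ^ n := by rw [← hl]; exact valB_lt y
  unfold sel
  rw [lst_eq_of (k := valB y) hlt (by simpa using ⟨hp, h3⟩), pad_valB hl]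
  intro i hi
  rw [decide_eq_false_iff_not]
  rintro ⟨h4, h5⟩
  have := Nat.count_injective h4 hp (h5.trans h3.symm)
  omega

variable (hf : LI f)

include hf

theorem LI.rk_lt (x : List Bool) : rk f x < tot f x.length (minimalPeriod f x) := by
  unfold rk tot
  have hp : Lead f x.length (minimalPeriod f x) (valB (mn f x)) := by
    unfold Lead
    rw [pad_valB (hf.mn_len x)]
    exact ⟨hf.mn_min x, hf.mn_period x⟩
  have hlt : valB (mn f x) < 2 ^ x.length := by
    have := valB_lt (mn f x)
    rwa [hf.mn_len] at this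
  exact Nat.count_strict_mono hp hlt

theorem LI.sel_rk (x : List Bool) : sel f x.length (minimalPeriod f x) (rk f x) = mn f x :=
  sel_unique (hf.mn_len x) (hf.mn_min x) (hf.mn_period x) rfl

variable {f' : List Bool → List Bool} (hf' : LI f')
  (E : ∀ n c, tot f n c = tot f' n c)

include hf' E

/-- the properties of the image -/
theorem cj_spec (x : List Bool) : ∃ m', IsMin f' m' ∧ minimalPeriod f' m' = minimalPeriod f x ∧
    m'.length = x.length ∧ sel f' x.length (minimalPeriod f x) (rk f x) = m' ∧
      rk f' m' = rk f x := by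
  obtain ⟨h1, h2, h3, h4⟩ := sel_spec (f := f') (n := x.length) (c := minimalPeriod f x)
    (r := rk f x) (by rw [← E]; exact hf.rk_lt x)
  generalize sel f' x.length (minimalPeriod f x) (rk f x) = m' at h1 h2 h3 h4 ⊢
  refine ⟨m', h2, h3, h1, rfl, ?_⟩
  change Nat.count (Lead f' m'.length (minimalPeriod f' m')) (valB (mn f' m')) = rk f x
  rw [h1, h3, hf'.mn_of_min h2]
  exact h4

theorem cj_len (x : List Bool) : (cj f f' x).length = x.length := by
  obtain ⟨m', _, _, h3, h4, _⟩ := cj_spec hf hf' E x
  unfold cj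
  rw [h4, hf'.iter_len, h3]

omit hf E in
theorem LI.rk_iter (k : ℕ) (y : List Bool) : rk f' (f'^[k] y) = rk f' y := by
  unfold rk
  rw [hf'.iter_len, hf'.period_iter, hf'.mn_iter]

theorem cj_cj (x : List Bool) : cj f' f (cj f f' x) = x := by
  obtain ⟨m', h1, h2, h3, h4, h5⟩ := cj_spec hf hf' E x
  have hy : cj f f' x = f'^[di f x] m' := by unfold cj; rw [h4]
  have hd : di f' (cj f f' x) = di f x := by
    rw [hy]
    have e1 := hf'.di_iter h1 (di f x)
    rw [h2] at e1
    have e2 := hf'.di_lt (f'^[di f x] m')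
    rw [hf'.period_iter, h2] at e2
    exact Nat.ModEq.eq_of_lt_of_lt e1 e2 (hf.di_lt x)
  unfold cj at hd ⊢
  rw [hd, h4, hf'.iter_len, hf'.period_iter, hf'.rk_iter, h3, h2, h5, hf.sel_rk, hf.di_spec]

theorem cj_f (x : List Bool) : cj f f' (f x) = f' (cj f f' x) := by
  obtain ⟨m', h1, h2, h3, h4, h5⟩ := cj_spec hf hf' E x
  have e0 : rk f (f x) = rk f x := hf.rk_iter 1 x
  have e1 : minimalPeriod f (f x) = minimalPeriod f x := hf.period_iter 1 x
  have e2 : di f (f x) ≡ di f x + 1 [MOD minimalPeriod f x] := by
    have := hf.di_iter (hf.mn_min x) (di f x + 1)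
    rwa [Function.iterate_succ_apply', hf.di_spec, hf.mn_period] at this
  unfold cj
  rw [hf.len, e1, e0, h4, ← Function.iterate_succ_apply' f', hf'.modEq, h2]
  exact e2

end lead

/-! ### Conjugate permutations have the same numbers of cycles -/

open Classical in
theorem tot_le {f f' h : List Bool → List Bool} (hf : LI f) (hf' : LI f') (hh : LI h)
    (e : ∀ w, h (f w) = f' (h w)) (n c : ℕ) : tot f n c ≤ tot f' n c := by
  have hn : ∀ k w, h (f^[k] w) = f'^[k] (h w) := by
    intro k
    induction k with
    | zero => intro w; rfl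
    | succ k ih => intro w; rw [Function.iterate_succ_apply', e, ih, Function.iterate_succ_apply']
  unfold tot
  rw [Nat.count_eq_card_filter_range, Nat.count_eq_card_filter_range]
  refine Finset.card_le_card_of_injOn (fun k => valB (mn f' (h (pad n k)))) ?_ ?_
  · intro k hk
    rw [Finset.mem_coe, Finset.mem_filter, Finset.mem_range] at hk
    have hl : (mn f' (h (pad n k))).length = n := by
      rw [hf'.mn_len, hh.len, pad_length hk.1]
    rw [Finset.mem_coe, Finset.mem_filter, Finset.mem_range]
    refine ⟨?_, ?_, ?_⟩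
    · have := valB_lt (mn f' (h (pad n k)))
      rwa [hl] at this
    · simp only
      rw [pad_valB hl]
      exact hf'.mn_min _
    · simp only
      rw [pad_valB hl, hf'.mn_period, ← hk.2.2]
      rw [Function.minimalPeriod_eq_minimalPeriod_iff]
      intro j
      unfold Function.IsPeriodicPt Function.IsFixedPt
      rw [← hn]
      exact hh.inj.eq_iff
  · intro k hk k' hk' hkk
    rw [Finset.mem_coe, Finset.mem_filter, Finset.mem_range] at hk hk'
    simp only at hkk
    have h1 : mn f' (h (pad n k)) = mn f' (h (pad n k')) := by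
      refine valB_inj ?_ hkk
      rw [hf'.mn_len, hf'.mn_len, hh.len, hh.len, pad_length hk.1, pad_length hk'.1]
    obtain ⟨j, hj⟩ := hf'.symm_iter (x := h (pad n k')) (k := mi f' (h (pad n k'))) rfl
    have h2 : f'^[j + mi f' (h (pad n k))] (h (pad n k)) = h (pad n k') := by
      rw [Function.iterate_add_apply]
      change f'^[j] (mn f' (h (pad n k))) = _
      rw [h1]
      exact hj
    rw [← hn] at h2
    have h3 := hh.inj h2
    have h4 := hf.min_unique hk.2.1 hk'.2.1 h3
    have h5 := congrArg valB h4
    rwa [valB_pad, valB_pad] at h5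

/-! ### Polynomial time -/

variable {α : Type} [TEnc α]

theorem poly_count (H : ∀ L, InPSPACE L → InP L) [TDec α] {N : α → ℕ} {p : α → ℕ → Prop}
    [∀ a, DecidablePred (p a)] (hN : Poly N)
    (hp : Poly (fun q : α × ℕ => decide (p q.1 q.2))) :
    Poly (fun a => Nat.count (p a) (N a)) := by
  have key : ∀ a i, (fun s : ℕ × ℕ => (s.1 + 1, s.2 + if p a s.1 then 1 else 0))^[i] (0, 0) =
      (i, Nat.count (p a) i) := by
    intro a i
    induction i with
    | zero => simp
    | succ i ih => rw [Function.iterate_succ_apply', ih, Nat.count_succ]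
  obtain ⟨pN, hpN⟩ := hN.sz_le
  have h := poly_iter H (n := N) (s := fun _ : α => ((0, 0) : ℕ × ℕ))
    (G := fun a s => (s.1 + 1, s.2 + if p a s.1 then 1 else 0)) hN (NPC.Poly.const _)
    (Poly.pair (Poly.succ (Poly.fst (Poly.snd Poly.id))) (Poly.add (Poly.snd (Poly.snd Poly.id))
      (Poly.ite (hp.comp (Poly.pair (Poly.fst Poly.id) (Poly.fst (Poly.snd Poly.id))))
        (NPC.Poly.const 1) (NPC.Poly.const 0)))) (4 * pN + 1) (by
      intro a i hi
      rw [key]
      have h1 := sz_nat_mono_le hi
      have h2 : Nat.count (p a) i ≤ N a := (Nat.count_le (p a)).trans hi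
      have h3 := sz_nat_mono_le h2
      have h4 := hpN a
      simp only [sz_pair, Polynomial.eval_add, Polynomial.eval_mul, Polynomial.eval_ofNat,
        Polynomial.eval_one]
      omega)
  refine (Poly.snd h).congr fun a => ?_
  rw [key]

section

variable (H : ∀ L, InPSPACE L → InP L) {f : List Bool → List Bool} (hf : LI f) (hp : Poly f)

include H hf hp

open Classical in
/-- strings of a given length, as a parameter -/
theorem poly_lead [TDec α] {w : α → List Bool} {c k : α → ℕ} (hw : Poly w) (hc : Poly c)
    (hk : Poly k) : Poly (fun a => decide (Lead f (w a).length (c a) (k a))) := by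
  have h1 : Poly (fun a => pad (w a).length (k a)) := poly_pad (UPoly.length hw) hk
  refine (Poly.and (poly_isMin H hf hp h1) (Poly.decide_eq (poly_period H hf hp h1) hc)).congr
    fun a => ?_
  rw [Bool.eq_iff_iff, Bool.and_eq_true, decide_eq_true_iff, decide_eq_true_iff,
    decide_eq_true_iff]
  rfl

open Classical in
theorem poly_rk [TDec α] {x : α → List Bool} (hx : Poly x) : Poly (fun a => rk f (x a)) := by
  have h1 : Poly (fun x : List Bool => valB (mn f x)) := Poly.valBits (poly_mn H hf hp Poly.id)
  have h2 : Poly (fun q : List Bool × ℕ =>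
      decide (Lead f q.1.length (minimalPeriod f q.1) q.2)) :=
    poly_lead H hf hp (Poly.fst Poly.id) (poly_period H hf hp (Poly.fst Poly.id))
        (Poly.snd Poly.id)
  have h : Poly (fun x : List Bool => Nat.count (Lead f x.length (minimalPeriod f x))
      (valB (mn f x))) :=
    poly_count H (N := fun x : List Bool => valB (mn f x))
      (p := fun x k => Lead f x.length (minimalPeriod f x) k) h1 h2
  exact NPC.Poly.comp (g := fun x : List Bool => rk f x) h hx

open Classical in
theorem poly_sel [TDec α] {w : α → List Bool} {c r : α → ℕ} (hw : Poly w) (hc : Poly c)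
    (hr : Poly r) : Poly (fun a => sel f (w a).length (c a) (r a)) := by
  have hcount : Poly (fun q : α × ℕ => Nat.count (Lead f (w q.1).length (c q.1)) q.2) :=
    poly_count H (p := fun (q : α × ℕ) k => Lead f (w q.1).length (c q.1) k) (Poly.snd Poly.id)
      (poly_lead H hf hp (hw.comp (Poly.fst (Poly.fst Poly.id)))
        (hc.comp (Poly.fst (Poly.fst Poly.id))) (Poly.snd Poly.id))
  have hl : Poly (fun q : α × ℕ => decide (Lead f (w q.1).length (c q.1) q.2 ∧
      Nat.count (Lead f (w q.1).length (c q.1)) q.2 = r q.1)) := by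
    refine (Poly.and (poly_lead H hf hp (hw.comp (Poly.fst Poly.id)) (hc.comp (Poly.fst Poly.id))
      (Poly.snd Poly.id)) (Poly.decide_eq hcount (hr.comp (Poly.fst Poly.id)))).congr
        fun a => ?_
    rw [Bool.eq_iff_iff]
    simp
  exact poly_pad (UPoly.length hw) (poly_lst H
    (p := fun a k => decide (Lead f (w a).length (c a) k ∧
      Nat.count (Lead f (w a).length (c a)) k = r a)) (poly_two_pow_length hw) hl)

end

theorem poly_cj (H : ∀ L, InPSPACE L → InP L) {f f' : List Bool → List Bool} (hf : LI f)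
    (hp : Poly f) (hf' : LI f') (hp' : Poly f') : Poly (cj f f') :=
  poly_pw H hf' hp' (poly_di H hf hp Poly.id) (poly_sel H hf' hp' Poly.id
    (poly_period H hf hp Poly.id) (poly_rk H hf hp Poly.id))

/-- If `P = PSPACE`, conjugate polynomial-time permutations are conjugate in polynomial time. -/
theorem conj_of (H : ∀ L, InPSPACE L → InP L) {g g' : Equiv.Perm (List Bool)} (hg : g ∈ PPerm)
    (hg' : g' ∈ PPerm) (h : ∃ k ∈ LPerm, k * g * k⁻¹ = g') :
    ∃ k ∈ PPerm, k * g * k⁻¹ = g' := by
  obtain ⟨k, hk, e⟩ := h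
  have hL := li_of_mem (PPerm_le hg)
  have hL' := li_of_mem (PPerm_le hg')
  have e1 : ∀ w, k (g w) = g' (k w) := by
    intro w
    have : k * g = g' * k := by rw [← e]; group
    exact congrArg (fun t : Equiv.Perm (List Bool) => t w) this
  have e2 : ∀ w, k⁻¹ (g' w) = g (k⁻¹ w) := by
    intro w
    have : k⁻¹ * g' = g * k⁻¹ := by rw [← e]; group
    exact congrArg (fun t : Equiv.Perm (List Bool) => t w) this
  have E : ∀ n c, tot g n c = tot g' n c := fun n c =>
    le_antisymm (tot_le hL hL' (li_of_mem hk) e1 n c)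
      (tot_le hL' hL (li_of_mem (LPerm.inv_mem hk)) e2 n c)
  have hp : Poly g := poly_iff.2 hg.2.1
  have hp' : Poly g' := poly_iff.2 hg'.2.1
  let t : Equiv.Perm (List Bool) := ⟨cj g g', cj g' g, cj_cj hL hL' E,
    cj_cj hL' hL (fun n c => (E n c).symm)⟩
  refine ⟨t, ⟨cj_len hL hL' E, poly_iff.1 (poly_cj H hL hp hL' hp'),
    poly_iff.1 (poly_cj H hL' hp' hL hp)⟩, ?_⟩
  rw [mul_inv_eq_iff_eq_mul]
  exact Equiv.ext (cj_f hL hL' E)

end Pool.Agent.V7H56.PP
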