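import Pool.Agent.V7H56.PP.Uniq

/-!
# If every polynomial-time permutation is conjugate to its inverse then `P = PSPACE`
-/

namespace Pool.Agent.V7H56.PP

open Pool.Agent.NPC Pool.Agent.NPC.PIso

theorem cyc_of {m : ℕ} {f : ℕ → ℕ} (hm : 0 < m) (h1 : ∀ u < m, f^[m] u = u)
    (h2 : ∀ u < m, ∀ r < m, f^[r] u = u → r = 0) (u : ℕ) (hu : u < m) (q : ℕ) :
    f^[q] u = u ↔ m ∣ q := by
  have h3 : ∀ k, f^[m * k] u = u := by
    intro k
    induction k with
    | zero => rfl
    | succ k ih => rw [Nat.mul_succ, Function.iterate_add_apply, h1 u hu, ih]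
  have h4 : f^[q] u = f^[q % m] u := by
    conv_lhs => rw [← Nat.div_add_mod q m, add_comm]
    rw [Function.iterate_add_apply, h3]
  rw [h4]
  constructor
  · intro h
    exact Nat.dvd_of_mod_eq_zero (h2 u hu _ (Nat.mod_lt _ hm) h)
  · intro h
    rw [Nat.mod_eq_zero_of_dvd h]
    rfl

/-- two cycles of length six -/
def P6 (c : Bool) (u : ℕ) : ℕ := bif c then [1, 2, 4, 0, 5, 3].getD u 0 else [1, 2, 3, 4, 5, 0].getD u 0

/-- their inverses -/
def P6i (c : Bool) (u : ℕ) : ℕ := bif c then [3, 0, 1, 5, 2, 4].getD u 0 else [5, 0, 1, 2, 3, 4].getD u 0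

theorem P6_lt : ∀ c u, u < 6 → P6 c u < 6 := by decide
theorem P6i_lt : ∀ c u, u < 6 → P6i c u < 6 := by decide
theorem P6i_P6 : ∀ c u, u < 6 → P6i c (P6 c u) = u := by decide
theorem P6_P6i : ∀ c u, u < 6 → P6 c (P6i c u) = u := by decide
theorem P6_iter : ∀ c, ∀ u < 6, (P6 c)^[6] u = u := by decide
theorem P6_iter' : ∀ c, ∀ u < 6, ∀ r < 6, (P6 c)^[r] u = u → r = 0 := by decide
theorem P6_trans : ∀ c, ∀ u < 6, ∃ q < 6, (P6 c)^[q] 0 = u := by decide

theorem P6_key : ∀ c < 6, ¬ (P6 true (P6 false c) = P6 false (P6 false c) ∧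
    P6 true c = P6 false c ∧
    P6 true (P6 false (P6 false (P6 false c))) = P6 false (P6 false (P6 false (P6 false c)))) := by
  decide

/-- No map of six points reverses both cycles. -/
theorem P6_no (r : ℕ → ℕ) (h0 : ∀ u < 6, r u < 6) (h1 : ∀ u < 6, P6 true (r (P6 true u)) = r u)
    (h2 : ∀ u < 6, P6 false (r (P6 false u)) = r u) : False := by
  have a0 : P6 false (r 1) = r 0 := h2 0 (by norm_num)
  have a1 : P6 false (r 2) = r 1 := h2 1 (by norm_num)
  have a4 : P6 false (r 5) = r 4 := h2 4 (by norm_num)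
  have a5 : P6 false (r 0) = r 5 := h2 5 (by norm_num)
  have b0 : P6 true (r 1) = r 0 := h1 0 (by norm_num)
  have b1 : P6 true (r 2) = r 1 := h1 1 (by norm_num)
  have b4 : P6 true (r 5) = r 4 := h1 4 (by norm_num)
  apply P6_key (r 2) (h0 2 (by norm_num))
  rw [a1, a0, a5, a4]
  exact ⟨b0, b1, b4⟩

theorem poly_P6 : Poly (fun p : Bool × ℕ => P6 p.1 p.2) :=
  Poly.cond (Poly.fst Poly.id) (Poly.getD (NPC.Poly.const _) (Poly.snd Poly.id) (NPC.Poly.const 0))
    (Poly.getD (NPC.Poly.const _) (Poly.snd Poly.id) (NPC.Poly.const 0))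

theorem poly_P6i : Poly (fun p : Bool × ℕ => P6i p.1 p.2) :=
  Poly.cond (Poly.fst Poly.id) (Poly.getD (NPC.Poly.const _) (Poly.snd Poly.id) (NPC.Poly.const 0))
    (Poly.getD (NPC.Poly.const _) (Poly.snd Poly.id) (NPC.Poly.const 0))

variable {L : Set (List Bool)} (D : Rev L)

/-- the number of an instance and a state -/
def pnum (x : List Bool) (v : ℕ) : ℕ := valB x * D.B x + v

theorem pnum_inj {x x' : List Bool} {v v' : ℕ} (hl : x.length = x'.length) (hv : v < D.B x)
    (hv' : v' < D.B x) (h : pnum D x v = pnum D x' v') : x = x' ∧ v = v' := by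
  unfold pnum at h
  rw [← D.B_len x x' hl] at h
  have hB := Tower.B_pos D x
  have h1 : valB x = valB x' := by
    have e1 : (valB x * D.B x + v) / D.B x = valB x := by
      rw [mul_comm, Nat.mul_add_div hB, Nat.div_eq_of_lt hv, add_zero]
    have e2 : (valB x' * D.B x + v') / D.B x = valB x' := by
      rw [mul_comm, Nat.mul_add_div hB, Nat.div_eq_of_lt hv', add_zero]
    rw [← e1, h, e2]
  refine ⟨valB_inj hl h1, ?_⟩
  rw [h1] at h
  omega

theorem poly_pnum : Poly (fun p : List Bool × ℕ => pnum D p.1 p.2) :=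
  Poly.add (Poly.mul (Poly.valBits (Poly.fst Poly.id)) (D.poly_B.comp (Poly.fst Poly.id)))
    (Poly.snd Poly.id)

/-- the tower used for conjugacy -/
def T6 : Tower D where
  m := 6
  P := P6
  Pi := P6i
  e := false
  Dl := pnum D
  m_pos := by norm_num
  P_lt := P6_lt
  Pi_lt := P6i_lt
  Pi_P := P6i_P6
  P_Pi := P6_P6i
  poly_P := poly_P6
  poly_Pi := poly_P6i
  poly_Dl := poly_pnum D

theorem sep_T6 : (T6 D).Sep where
  e := rfl
  inj x x' v v' hl hv hv' h := pnum_inj D hl hv hv' h
  cyc c u q hu := cyc_of (by norm_num : 0 < 6) (P6_iter c) (P6_iter' c) u hu q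
  trans c u hu := by
    obtain ⟨q, _, h⟩ := P6_trans c u hu
    exact ⟨q, h⟩

namespace Tower

variable {D} (T : Tower D)

/-- Reading the second coordinate of the images of the base points under a map which reverses the
permutation. -/
theorem reverse (hs : T.Sep) (x : List Bool) (h : List Bool → List Bool)
    (hinj : Function.Injective h) (hlen : ∀ w, (h w).length = w.length)
    (hh : ∀ w, h (T.F w) = T.Fi (h w)) (u : ℕ) (hu : u < T.m) :
    T.P (T.ans x (D.v₀ x)) (T.rd (h (T.cod x (0, T.P (T.ans x (D.v₀ x)) u, D.v₀ x)))) =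
      T.rd (h (T.cod x (0, u, D.v₀ x))) ∧ T.rd (h (T.cod x (0, u, D.v₀ x))) < T.m := by
  have hv := D.v₀_lt x
  generalize D.v₀ x = v at hv ⊢
  have hb : 0 < T.lap x v := T.lap_pos x v
  have hn : ∀ n w, h (T.F^[n] w) = T.Fi^[n] (h w) := by
    intro n
    induction n with
    | zero => intro w; rfl
    | succ n ih => intro w; rw [Function.iterate_succ_apply', hh, ih, Function.iterate_succ_apply']
  have hFi : ∀ n w, T.Fi^[n] (T.F^[n] w) = w := fun n w =>
    Function.LeftInverse.iterate T.Fi_F n w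
  have hF : ∀ n w, T.F^[n] (T.Fi^[n] w) = w := fun n w =>
    Function.LeftInverse.iterate T.F_Fi n w
  have hper : ∀ n, T.F^[n] (h (T.cod x (0, 0, v))) = h (T.cod x (0, 0, v)) ↔
      T.m * T.lap x v ∣ n := by
    intro n
    rw [← hs.iter_eq_iff T.m_pos hv n]
    constructor
    · intro e
      apply hinj
      rw [hn]
      conv_lhs => rw [← e]
      exact hFi n _
    · intro e
      conv_lhs => rw [← e]
      rw [hn, hF]
  obtain ⟨k, hk⟩ := hs.uniq T.m_pos hv (hlen _) hper
  have hread : ∀ j ≤ T.m, T.rd (h (T.cod x (0, (T.P (T.ans x v))^[j] 0, v))) =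
      (T.P (T.ans x v))^[(k + T.m * T.lap x v) / T.lap x v - j +
        (if (k + T.m * T.lap x v) % T.lap x v ≤ D.R x + T.ext x v then 0 else 1)] 0 := by
    intro j hj
    have h1 : j * T.lap x v ≤ k + T.m * T.lap x v :=
      (Nat.mul_le_mul_right _ hj).trans (Nat.le_add_left _ _)
    have h2 : T.F^[j * T.lap x v] (T.cod x (0, 0, v)) =
        T.cod x (0, (T.P (T.ans x v))^[j] 0, v) := by
      rw [T.F_iter (T.V_zero T.m_pos hv), T.G_laps x 0 hv]
    have h3 : T.F^[k] (T.cod x (0, 0, v)) =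
        T.F^[j * T.lap x v] (T.F^[k + T.m * T.lap x v - j * T.lap x v] (T.cod x (0, 0, v))) := by
      rw [← Function.iterate_add_apply, Nat.add_sub_cancel' h1, Function.iterate_add_apply,
        (hs.iter_eq_iff T.m_pos hv _).2 dvd_rfl]
    rw [← h2, hn, hk, h3, hFi, T.rd_iter T.m_pos hv, mul_comm j,
      Nat.sub_mul_div, Nat.sub_mul_mod (by rw [mul_comm]; exact h1)]
  have hq : T.m ≤ (k + T.m * T.lap x v) / T.lap x v := by
    rw [Nat.le_div_iff_mul_le hb]
    exact Nat.le_add_left _ _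
  obtain ⟨j, hj, rfl⟩ : ∃ j < T.m, (T.P (T.ans x v))^[j] 0 = u := by
    obtain ⟨q, hq⟩ := hs.trans (T.ans x v) u hu
    refine ⟨q % T.m, Nat.mod_lt _ T.m_pos, ?_⟩
    rw [← hq]
    conv_rhs => rw [← Nat.mod_add_div q T.m, Function.iterate_add_apply,
      (hs.cyc _ _ _ T.m_pos).2 (Dvd.intro _ rfl)]
  constructor
  · have e1 := hread (j + 1) hj
    rw [Function.iterate_succ_apply'] at e1
    rw [e1, hread j hj.le, ← Function.iterate_succ_apply' (T.P (T.ans x v))]
    congr 1
    omega
  · rw [hread j hj.le]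
    exact T.P_iter_lt _ T.m_pos _

end Tower

/-- If every polynomial-time permutation is conjugate to its inverse by a polynomial-time
permutation then every language in `PSPACE` is in `P`. -/
theorem inP_of_conj_inv (H : ∀ g ∈ PPerm, ∃ h ∈ PPerm, h * g * h⁻¹ = g⁻¹) {L : Set (List Bool)}
    (hL : InPSPACE L) : InP L := by
  obtain ⟨D⟩ := exists_rev hL
  obtain ⟨h, hh, he⟩ := H (T6 D).perm (T6 D).perm_mem
  have hF : ∀ w, h ((T6 D).F w) = (T6 D).Fi (h w) := by
    intro w
    have e1 : h * (T6 D).perm = (T6 D).perm⁻¹ * h := by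
      rw [← he]
      group
    exact congrArg (fun k : Equiv.Perm (List Bool) => k w) e1
  let r : List Bool → ℕ → ℕ := fun x u => (T6 D).rd (h ((T6 D).cod x (0, u, D.v₀ x)))
  have hr : ∀ x, ∀ u < 6, P6 ((T6 D).ans x (D.v₀ x)) (r x (P6 ((T6 D).ans x (D.v₀ x)) u)) = r x u ∧
      r x u < 6 := fun x u hu => (T6 D).reverse (sep_T6 D) x h h.injective hh.1 hF u hu
  let tst : List Bool → Bool := fun x =>
    (List.range 6).all (fun u => decide (P6 false (r x (P6 false u)) = r x u))
  have hpr : Poly (fun p : List Bool × ℕ => r p.1 p.2) :=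
    (T6 D).poly_rd ((poly_iff.2 hh.2.1).comp ((T6 D).poly_cod (Poly.fst Poly.id)
      (Poly.pair (NPC.Poly.const 0) (Poly.pair (Poly.snd Poly.id)
        (D.poly_v₀.comp (Poly.fst Poly.id))))))
  have hP0 : Poly (P6 false) := poly_P6.comp (Poly.pair (NPC.Poly.const false) Poly.id)
  have htst : Poly tst := by
    refine Poly.all (p := fun x u => decide (P6 false (r x (P6 false u)) = r x u))
      (NPC.Poly.const _) (Poly.decide_eq (hP0.comp (hpr.comp (f := fun p : List Bool × ℕ =>
        (p.1, P6 false p.2)) (Poly.pair (Poly.fst Poly.id) (hP0.comp (Poly.snd Poly.id))))) hpr)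
  refine ⟨fun x => [!(tst x)], polyTime_of_poly (Poly.not htst), fun x => ?_⟩
  have hspec : (T6 D).ans x (D.v₀ x) = true ↔ x ∈ L := D.spec x
  rw [← hspec]
  simp only [List.cons.injEq, and_true, Bool.not_eq_true']
  constructor
  · intro ha
    by_contra hcon
    rw [Bool.not_eq_false] at hcon
    have h2 : ∀ u < 6, P6 false (r x (P6 false u)) = r x u := by
      intro u hu
      have := List.all_eq_true.1 hcon u (List.mem_range.2 hu)
      simpa using this
    refine P6_no (r x) (fun u hu => (hr x u hu).2) (fun u hu => ?_) h2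
    have := (hr x u hu).1
    rwa [ha] at this
  · intro hf
    by_contra hcon
    rw [Bool.not_eq_true] at hcon
    have : tst x = true := by
      refine List.all_eq_true.2 fun u hu => ?_
      have h3 := (hr x u (List.mem_range.1 hu)).1
      rw [hcon] at h3
      simpa using h3
    rw [this] at hf
    exact absurd hf (by simp)

end Pool.Agent.V7H56.PP
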