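import Pool.Agent.H550R2.Iso.Str

/-!
# Cycles of a length-preserving permutation of bit strings
-/

namespace Pool.Agent.V7H56.PP

open Pool.Agent.NPC Pool.Agent.NPC.PIso
open Function (minimalPeriod)

/-- the least `k < N` with `p k`, or `N` if there is none -/
def lst (p : ℕ → Bool) (N : ℕ) : ℕ := (fun k => bif p k then k else k + 1)^[N] 0

theorem lst_inv (p : ℕ → Bool) (N : ℕ) :
    lst p N ≤ N ∧ (∀ k < lst p N, p k = false) ∧ (lst p N < N → p (lst p N) = true) := by
  unfold lst
  induction N with
  | zero => simp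
  | succ N ih =>
    rw [Function.iterate_succ_apply']
    generalize (fun k => bif p k then k else k + 1)^[N] 0 = v at ih ⊢
    obtain ⟨h1, h2, h3⟩ := ih
    cases hp : p v with
    | true => exact ⟨by simp; omega, by simpa using h2, fun _ => by simpa using hp⟩
    | false =>
      have hv : v = N := by
        by_contra hcon
        rw [h3 (by omega)] at hp
        exact absurd hp (by simp)
      refine ⟨by simp; omega, ?_, by simp; omega⟩
      intro k hk
      simp only [cond_false] at hk
      rcases Nat.lt_succ_iff_lt_or_eq.1 hk with h | h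
      · exact h2 k h
      · rw [h]; exact hp

theorem lst_le (p : ℕ → Bool) (N : ℕ) : lst p N ≤ N := (lst_inv p N).1

theorem lst_min {p : ℕ → Bool} {N k : ℕ} (hk : k < lst p N) : p k = false := (lst_inv p N).2.1 k hk

theorem lst_spec {p : ℕ → Bool} {N : ℕ} (h : ∃ k < N, p k = true) :
    lst p N < N ∧ p (lst p N) = true := by
  obtain ⟨k, hk, hp⟩ := h
  have h1 : lst p N ≤ k := by
    by_contra hcon
    rw [lst_min (p := p) (N := N) (by omega)] at hp
    exact absurd hp (by simp)
  exact ⟨by omega, (lst_inv p N).2.2 (by omega)⟩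

theorem lst_eq_iff (p : ℕ → Bool) (N : ℕ) : lst p N = N ↔ ∀ k < N, p k = false := by
  constructor
  · intro h k hk
    exact lst_min (p := p) (N := N) (h.symm ▸ hk)
  · intro h
    by_contra hcon
    have h1 := lst_le p N
    have h2 := (lst_inv p N).2.2 (by omega)
    rw [h (lst p N) (by omega)] at h2
    exact absurd h2 (by simp)

theorem lst_eq_of {p : ℕ → Bool} {N k : ℕ} (hk : k < N) (hp : p k = true)
    (hm : ∀ i < k, p i = false) : lst p N = k := by
  obtain ⟨h1, h2⟩ := lst_spec ⟨k, hk, hp⟩
  rcases lt_trichotomy (lst p N) k with h | h | h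
  · rw [hm _ h] at h2; exact absurd h2 (by simp)
  · exact h
  · rw [lst_min h] at hp; exact absurd hp (by simp)

/-- data of a length-preserving injective function -/
structure LI (f : List Bool → List Bool) : Prop where
  len : ∀ w, (f w).length = w.length
  inj : Function.Injective f

variable {f : List Bool → List Bool} (hf : LI f)

include hf

theorem LI.iter_len (n : ℕ) (w : List Bool) : (f^[n] w).length = w.length := by
  induction n with
  | zero => rfl
  | succ n ih => rw [Function.iterate_succ_apply', hf.len, ih]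

theorem LI.exists_period (x : List Bool) : ∃ p, 0 < p ∧ p ≤ 2 ^ x.length ∧ f^[p] x = x := by
  have hne : ¬ Function.Injective (fun i : Fin (2 ^ x.length + 1) =>
      (⟨valB (f^[i] x), by
        have := valB_lt (f^[i] x)
        rwa [hf.iter_len] at this⟩ : Fin (2 ^ x.length))) := by
    intro h
    have := Fintype.card_le_of_injective _ h
    simp at this
  rw [Function.not_injective_iff] at hne
  obtain ⟨i, j, hij, hne⟩ := hne
  simp only [Fin.mk.injEq] at hij
  have h1 : f^[i] x = f^[j] x := valB_inj (by rw [hf.iter_len, hf.iter_len]) hij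
  have key : ∀ i j : ℕ, i < j → f^[i] x = f^[j] x → f^[j - i] x = x := by
    intro i j hlt h
    apply hf.inj.iterate i
    rw [← Function.iterate_add_apply, Nat.add_sub_cancel' hlt.le]
    exact h.symm
  rcases lt_trichotomy (i : ℕ) j with h | h | h
  · exact ⟨j - i, by omega, by omega, key i j h h1⟩
  · exact absurd (Fin.ext h) hne
  · exact ⟨i - j, by omega, by omega, key j i h h1.symm⟩

theorem LI.period_pos (x : List Bool) : 0 < minimalPeriod f x := by
  obtain ⟨p, h1, _, h3⟩ := hf.exists_period x
  exact Function.IsPeriodicPt.minimalPeriod_pos h1 h3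

theorem LI.period_le (x : List Bool) : minimalPeriod f x ≤ 2 ^ x.length := by
  obtain ⟨p, h1, h2, h3⟩ := hf.exists_period x
  exact (Function.IsPeriodicPt.minimalPeriod_le h1 h3).trans h2

theorem LI.mem_periodic (x : List Bool) : x ∈ Function.periodicPts f :=
  Function.minimalPeriod_pos_iff_mem_periodicPts.1 (hf.period_pos x)

theorem LI.period_iter (n : ℕ) (x : List Bool) : minimalPeriod f (f^[n] x) = minimalPeriod f x :=
  Function.minimalPeriod_apply_iterate (hf.mem_periodic x) n

theorem LI.modEq (x : List Bool) (a b : ℕ) :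
    f^[a] x = f^[b] x ↔ a ≡ b [MOD minimalPeriod f x] := by
  have hp := hf.period_pos x
  constructor
  · intro h
    rw [← Function.iterate_mod_minimalPeriod_eq (n := a),
      ← Function.iterate_mod_minimalPeriod_eq (n := b)] at h
    exact (Function.iterate_eq_iterate_iff_of_lt_minimalPeriod (Nat.mod_lt _ hp)
      (Nat.mod_lt _ hp)).1 h
  · intro h
    rw [← Function.iterate_mod_minimalPeriod_eq (n := a),
      ← Function.iterate_mod_minimalPeriod_eq (n := b), h]

omit hf in
/-- `x` has the least value on its orbit -/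
def IsMin (f : List Bool → List Bool) (x : List Bool) : Prop := ∀ k, valB x ≤ valB (f^[k] x)

theorem LI.exists_min (x : List Bool) : ∃ k < 2 ^ x.length, IsMin f (f^[k] x) := by
  classical
  have hne : ∃ v, ∃ k, valB (f^[k] x) = v := ⟨_, 0, rfl⟩
  obtain ⟨k, hk⟩ := Nat.find_spec hne
  refine ⟨k % minimalPeriod f x, (Nat.mod_lt _ (hf.period_pos x)).trans_le (hf.period_le x), ?_⟩
  intro j
  rw [Function.iterate_mod_minimalPeriod_eq, hk, ← Function.iterate_add_apply]
  exact Nat.find_min' hne ⟨_, rfl⟩

/-- orbit relation -/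
theorem LI.symm_iter {x y : List Bool} {k : ℕ} (h : f^[k] x = y) : ∃ j, f^[j] y = x := by
  subst h
  have hp := hf.period_pos x
  refine ⟨k * (minimalPeriod f x - 1), ?_⟩
  rw [← Function.iterate_add_apply]
  have e : k * (minimalPeriod f x - 1) + k = minimalPeriod f x * k := by
    obtain ⟨p, hp'⟩ : ∃ p, minimalPeriod f x = p + 1 := ⟨minimalPeriod f x - 1, by omega⟩
    rw [hp']
    simp
    ring
  rw [e]
  exact (Function.isPeriodicPt_minimalPeriod f x).mul_const k

theorem LI.min_unique {x y : List Bool} (hx : IsMin f x) (hy : IsMin f y) {k : ℕ}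
    (h : f^[k] x = y) : x = y := by
  obtain ⟨j, hj⟩ := hf.symm_iter h
  refine valB_inj (by rw [← h, hf.iter_len]) (le_antisymm ?_ ?_)
  · rw [← h]; exact hx k
  · rw [← hj]; exact hy j

omit hf in
open Classical in
/-- the number of steps to the least point of the orbit -/
noncomputable def mi (f : List Bool → List Bool) (x : List Bool) : ℕ :=
  lst (fun k => decide (IsMin f (f^[k] x))) (2 ^ x.length)

omit hf in
/-- the least point of the orbit -/
noncomputable def mn (f : List Bool → List Bool) (x : List Bool) : List Bool := f^[mi f x] x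

theorem LI.mn_min (x : List Bool) : IsMin f (mn f x) := by
  classical
  obtain ⟨k, hk, h⟩ := hf.exists_min x
  have := (lst_spec (p := fun k => decide (IsMin f (f^[k] x))) (N := 2 ^ x.length)
    ⟨k, hk, by simpa using h⟩).2
  exact of_decide_eq_true this

theorem LI.mn_len (x : List Bool) : (mn f x).length = x.length := hf.iter_len _ _

theorem LI.mn_eq {x y : List Bool} {k : ℕ} (h : f^[k] x = y) : mn f x = mn f y := by
  obtain ⟨j, hj⟩ := hf.symm_iter (x := x) (k := mi f x) rfl
  refine hf.min_unique (hf.mn_min x) (hf.mn_min y) (k := mi f y + (k + j)) ?_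
  rw [Function.iterate_add_apply, Function.iterate_add_apply]
  change f^[mi f y] (f^[k] (f^[j] (f^[mi f x] x))) = _
  rw [hj, h]
  rfl

theorem LI.mn_iter (x : List Bool) (k : ℕ) : mn f (f^[k] x) = mn f x := (hf.mn_eq rfl).symm

theorem LI.mn_of_min {x : List Bool} (h : IsMin f x) : mn f x = x :=
  (hf.min_unique h (hf.mn_min x) (k := mi f x) rfl).symm

theorem LI.mn_mn (x : List Bool) : mn f (mn f x) = mn f x := hf.mn_of_min (hf.mn_min x)

theorem LI.mn_period (x : List Bool) : minimalPeriod f (mn f x) = minimalPeriod f x :=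
  hf.period_iter _ _

omit hf in
/-- the number of steps from the least point of the orbit -/
noncomputable def di (f : List Bool → List Bool) (x : List Bool) : ℕ :=
  lst (fun k => decide (f^[k] (mn f x) = x)) (2 ^ x.length)

theorem LI.exists_di (x : List Bool) : ∃ k < minimalPeriod f x, f^[k] (mn f x) = x := by
  obtain ⟨j, hj⟩ := hf.symm_iter (x := x) (k := mi f x) rfl
  refine ⟨j % minimalPeriod f x, Nat.mod_lt _ (hf.period_pos x), ?_⟩
  rw [← hf.mn_period, Function.iterate_mod_minimalPeriod_eq]
  exact hj

theorem LI.di_spec (x : List Bool) : f^[di f x] (mn f x) = x := by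
  obtain ⟨k, hk, h⟩ := hf.exists_di x
  have := (lst_spec (p := fun k => decide (f^[k] (mn f x) = x)) (N := 2 ^ x.length)
    ⟨k, hk.trans_le (hf.period_le x), by simpa using h⟩).2
  exact of_decide_eq_true this

theorem LI.di_lt (x : List Bool) : di f x < minimalPeriod f x := by
  obtain ⟨k, hk, h⟩ := hf.exists_di x
  by_contra hcon
  have h1 : k < di f x := by omega
  have h2 : decide (f^[k] (mn f x) = x) = false := lst_min h1
  rw [decide_eq_false_iff_not] at h2
  exact h2 h

theorem LI.di_iter {m : List Bool} (hm : IsMin f m) (j : ℕ) :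
    di f (f^[j] m) ≡ j [MOD minimalPeriod f m] := by
  have h := hf.di_spec (f^[j] m)
  rw [hf.mn_iter, hf.mn_of_min hm] at h
  exact (hf.modEq m _ _).1 h

omit hf in
/-- the reflection of each orbit at its least point -/
noncomputable def rfx (f : List Bool → List Bool) (x : List Bool) : List Bool :=
  f^[minimalPeriod f x - di f x] (mn f x)

theorem LI.rfx_len (x : List Bool) : (rfx f x).length = x.length := by
  unfold rfx
  rw [hf.iter_len, hf.mn_len]

theorem LI.rfx_iter {m : List Bool} (hm : IsMin f m) (j : ℕ) :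
    ∃ k, rfx f (f^[j] m) = f^[k] m ∧ minimalPeriod f m ∣ k + j := by
  refine ⟨minimalPeriod f m - di f (f^[j] m), ?_, ?_⟩
  · unfold rfx
    rw [hf.period_iter, hf.mn_iter, hf.mn_of_min hm]
  · have h1 := hf.di_iter hm j
    have h2 := hf.di_lt (f^[j] m)
    rw [hf.period_iter] at h2
    have h3 : minimalPeriod f m - di f (f^[j] m) + j ≡
        minimalPeriod f m - di f (f^[j] m) + di f (f^[j] m) [MOD minimalPeriod f m] :=
      Nat.ModEq.add_left _ h1.symm
    rw [Nat.sub_add_cancel h2.le] at h3
    exact (Nat.modEq_zero_iff_dvd.1 (h3.trans (by simp [Nat.ModEq])))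

theorem LI.rfx_rfx (x : List Bool) : rfx f (rfx f x) = x := by
  have hm := hf.mn_min x
  obtain ⟨k, hk, h1⟩ := hf.rfx_iter hm (di f x)
  obtain ⟨k', hk', h2⟩ := hf.rfx_iter hm k
  rw [hf.di_spec] at hk
  rw [hk, hk']
  conv_rhs => rw [← hf.di_spec x]
  rw [hf.modEq]
  have h3 : k' + k ≡ di f x + k [MOD minimalPeriod f (mn f x)] := by
    have e1 := Nat.modEq_zero_iff_dvd.2 h1
    have e2 := Nat.modEq_zero_iff_dvd.2 h2
    rw [add_comm] at e1
    exact e2.trans e1.symm
  exact Nat.ModEq.add_right_cancel' k h3

/-- The reflection reverses `f`. -/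
theorem LI.rfx_f (x : List Bool) : rfx f (f (rfx f (f x))) = x := by
  have hm := hf.mn_min x
  have e0 : f x = f^[di f x + 1] (mn f x) := by
    rw [Function.iterate_succ_apply', hf.di_spec]
  obtain ⟨k, hk, h1⟩ := hf.rfx_iter hm (di f x + 1)
  rw [e0, hk, ← Function.iterate_succ_apply' f]
  obtain ⟨k', hk', h2⟩ := hf.rfx_iter hm (k + 1)
  rw [Nat.succ_eq_add_one, hk']
  conv_rhs => rw [← hf.di_spec x]
  rw [hf.modEq]
  have h3 : k' + (k + 1) ≡ di f x + (k + 1) [MOD minimalPeriod f (mn f x)] := by
    have e1 := Nat.modEq_zero_iff_dvd.2 h1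
    have e2 := Nat.modEq_zero_iff_dvd.2 h2
    have e3 : di f x + (k + 1) = k + (di f x + 1) := by ring
    rw [e3]
    exact e2.trans e1.symm
  exact Nat.ModEq.add_right_cancel' (k + 1) h3

end Pool.Agent.V7H56.PP
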