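import Pool.Agent.H550R2.Iso.Machine
import Pool.Agent.H550R2.Iso.Iter

/-!
# The group of polynomial-time length-preserving permutations of bit strings
-/

namespace Pool.Agent.V7H56.PP

open Pool.Agent.NPC Pool.Agent.NPC.PIso

/-- The group of all length-preserving permutations of the set of bit strings. -/
def LPerm : Subgroup (Equiv.Perm (List Bool)) where
  carrier := {g | ∀ w, (g w).length = w.length}
  mul_mem' {a b} ha hb w := by
    rw [Equiv.Perm.mul_apply, ha, hb]
  one_mem' w := rfl
  inv_mem' {a} ha w := by
    have h := ha (a.symm w)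
    rw [a.apply_symm_apply] at h
    exact h.symm

/-- The group of the length-preserving permutations of the set of bit strings which are computable
in polynomial time together with their inverses. -/
def PPerm : Subgroup (Equiv.Perm (List Bool)) where
  carrier := {g | (∀ w, (g w).length = w.length) ∧ PolyTime g ∧ PolyTime g.symm}
  mul_mem' {a b} ha hb := by
    refine ⟨fun w => ?_, ?_, ?_⟩
    · rw [Equiv.Perm.mul_apply, ha.1, hb.1]
    · exact poly_iff.1 ((poly_iff.2 ha.2.1).comp (poly_iff.2 hb.2.1))
    · exact poly_iff.1 ((poly_iff.2 hb.2.2).comp (poly_iff.2 ha.2.2))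
  one_mem' := ⟨fun w => rfl, poly_iff.1 Poly.id, poly_iff.1 Poly.id⟩
  inv_mem' {a} ha := by
    refine ⟨fun w => ?_, ha.2.2, ha.2.1⟩
    have h := ha.1 (a.symm w)
    rw [a.apply_symm_apply] at h
    exact h.symm

end Pool.Agent.V7H56.PP
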