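import Pool.Agent.V7H56.PP.Defs

/-!
# Locally checkable labellings of polynomial-time permutations
-/

namespace Pool.Agent.V7H56.PP

open Pool.Agent.NPC Pool.Agent.NPC.PIso

/-- A permutation `f` of a set `X` of bit strings which preserves the length; `X` is in `P` and `f`
and its inverse `fi` are computable in polynomial time. -/
structure PSys where
  /-- the set -/
  X : Set (List Bool)
  /-- the permutation -/
  f : List Bool → List Bool
  /-- its inverse -/
  fi : List Bool → List Bool
  inP : InP X
  poly_f : PolyTime f
  poly_fi : PolyTime fi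
  f_mem : ∀ x ∈ X, f x ∈ X
  fi_mem : ∀ x ∈ X, fi x ∈ X
  fi_f : ∀ x ∈ X, fi (f x) = x
  f_fi : ∀ x ∈ X, f (fi x) = x
  len : ∀ x ∈ X, (f x).length = x.length

variable {q : ℕ}

/-- `l` is a locally checkable labelling of the system: the labels of `x` and `f x` are always
joined by an arc of the digraph `E` (so `l` maps every cycle of `f` to a closed walk of `E`). -/
def PSys.Labels (S : PSys) (E : Fin (q + 1) → Fin (q + 1) → Prop)
    (l : List Bool → Fin (q + 1)) : Prop :=
  ∀ x ∈ S.X, E (l x) (l (S.f x))

/-- The labelling `l` is computable in polynomial time (labels are written in unary). -/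
def PolyLabel (l : List Bool → Fin (q + 1)) : Prop :=
  PolyTime (fun x => List.replicate (l x : ℕ) true)

/-- Every polynomial-time permutation which has a labelling by `E` has one which is computable in
polynomial time. -/
def Solvable (E : Fin (q + 1) → Fin (q + 1) → Prop) : Prop :=
  ∀ S : PSys, (∃ l, S.Labels E l) → ∃ l, S.Labels E l ∧ PolyLabel l

/-- There is a closed walk of length `d` at the vertex `a` of the digraph `E`. -/
def Closed (E : Fin (q + 1) → Fin (q + 1) → Prop) (a : Fin (q + 1)) (d : ℕ) : Prop :=
  ∃ w : ℕ → Fin (q + 1), w 0 = a ∧ w d = a ∧ ∀ i < d, E (w i) (w (i + 1))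

/-- The digraph `E` is flexible: some vertex has closed walks of all sufficiently large lengths. -/
def Flexible (E : Fin (q + 1) → Fin (q + 1) → Prop) : Prop :=
  ∃ a k, ∀ d ≥ k, Closed E a d

end Pool.Agent.V7H56.PP
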