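import Pool.Agent.V7H56.PP.LNorm

/-!
# Labellings by a flexible digraph can always be found in polynomial time
-/

namespace Pool.Agent.V7H56.PP

open Pool.Agent.NPC Pool.Agent.NPC.PIso
open Function (minimalPeriod)

section uiter

variable {α β : Type} [TEnc α] [TEnc β]

/-- short iterations -/
theorem poly_uiter {n : α → ℕ} {s : α → β} {G : α → β → β} (hn : UPoly n) (hs : Poly s)
    (hG : Poly (fun p : α × β => G p.1 p.2)) (q : Polynomial ℕ)
    (hq : ∀ a, ∀ i ≤ n a, sz ((G a)^[i] (s a)) ≤ q.eval (sz a)) :
    Poly (fun a => (G a)^[n a] (s a)) := by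
  refine (Poly.iterLen (l := fun a => List.replicate (n a) ()) hn hs hG q (fun a i hi =>
    hq a i (by simpa using hi))).congr fun a => ?_
  rw [List.length_replicate]

/-- short searches -/
theorem poly_ulst {N : α → ℕ} {p : α → ℕ → Bool} (hN : UPoly N)
    (hp : Poly (fun q : α × ℕ => p q.1 q.2)) : Poly (fun a => lst (p a) (N a)) := by
  obtain ⟨pN, hpN⟩ := hN.toPoly.sz_le
  refine poly_uiter (G := fun a k => bif p a k then k else k + 1) (s := fun _ => 0) hN
    (NPC.Poly.const 0) (Poly.cond hp (Poly.snd Poly.id) (Poly.succ (Poly.snd Poly.id)))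
    (2 * pN) fun a i hi => ?_
  have h1 : lst (p a) i ≤ N a := (lst_le _ _).trans hi
  have h2 := sz_nat_mono_le h1
  have h3 := hpN a
  unfold lst at h2
  simp only [Polynomial.eval_mul, Polynomial.eval_ofNat]
  omega

theorem poly_upw {f : List Bool → List Bool} (hf : LI f) (hp : Poly f) {k : α → ℕ}
    {x : α → List Bool} (hk : UPoly k) (hx : Poly x) : Poly (fun a => f^[k a] (x a)) := by
  obtain ⟨q, hq⟩ := hx.sz_le
  refine poly_uiter (G := fun (_ : α) w => f w) hk hx (hp.comp (Poly.snd Poly.id))
    (4 * q + 1) fun a i _ => ?_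
  change sz (f^[i] (x a)) ≤ _
  have h1 := sz_listBool_le (f^[i] (x a))
  rw [hf.iter_len] at h1
  have h2 := sz_listBool_ge (x a)
  have h3 := hq a
  simp only [Polynomial.eval_add, Polynomial.eval_mul, Polynomial.eval_ofNat,
    Polynomial.eval_one]
  omega

theorem upoly_min {k K : α → ℕ} (hk : Poly k) (hK : UPoly K) : UPoly (fun a => min (k a) (K a)) :=
  UPoly.of_le (Poly.min hk hK.toPoly) hK fun _ => min_le_right _ _

end uiter

/-! ### Colours -/

/-- the first position where two strings differ -/
def fd (x y : List Bool) : ℕ := lst (fun i => x.getD i false != y.getD i false) x.length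

/-- one step of deterministic coin tossing -/
def c1 (x y : List Bool) : ℕ := 2 * fd x y + (if x.getD (fd x y) false = true then 1 else 0)

theorem fd_spec {x y : List Bool} (hl : x.length = y.length) (h : x ≠ y) :
    x.getD (fd x y) false ≠ y.getD (fd x y) false := by
  have hex : ∃ i < x.length, (fun i => x.getD i false != y.getD i false) i = true := by
    by_contra hcon
    push Not at hcon
    apply h
    apply List.ext_getElem hl
    intro i h1 h2
    have := hcon i h1
    simp only [ne_eq, bne_iff_ne, not_not] at this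
    rw [List.getD_eq_getElem _ _ h1, List.getD_eq_getElem _ _ h2] at this
    exact this
  exact bne_iff_ne.1 (lst_spec hex).2

theorem c1_lt (x y : List Bool) : c1 x y < 2 * x.length + 2 := by
  have := lst_le (fun i => x.getD i false != y.getD i false) x.length
  unfold c1 fd
  split_ifs <;> omega

theorem c1_ne {x y z : List Bool} (hl : x.length = y.length) (h : x ≠ y) :
    c1 x y ≠ c1 y z := by
  intro e
  have h1 := fd_spec hl h
  have h2 : fd x y = fd y z := by
    unfold c1 at e
    split_ifs at e <;> omega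
  apply h1
  unfold c1 at e
  rw [← h2] at e
  cases hx : x.getD (fd x y) false <;> cases hy : y.getD (fd x y) false <;>
    simp only [hx, hy, if_true] at e <;> first | rfl | (simp at e)

theorem poly_fd {α : Type} [TEnc α] {x y : α → List Bool} (hx : Poly x) (hy : Poly y) :
    Poly (fun a => fd (x a) (y a)) := by
  have h1 : Poly (fun q : α × ℕ => (x q.1).getD q.2 false) :=
    Poly.getD (hx.comp (Poly.fst Poly.id)) (Poly.snd Poly.id) (NPC.Poly.const false)
  have h2 : Poly (fun q : α × ℕ => (y q.1).getD q.2 false) :=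
    Poly.getD (hy.comp (Poly.fst Poly.id)) (Poly.snd Poly.id) (NPC.Poly.const false)
  refine poly_ulst (p := fun a i => (x a).getD i false != (y a).getD i false) (UPoly.length hx)
    ((Poly.xor h1 h2).congr fun q => ?_)
  cases (x q.1).getD q.2 false <;> cases (y q.1).getD q.2 false <;> rfl

theorem poly_c1 {α : Type} [TEnc α] {x y : α → List Bool} (hx : Poly x) (hy : Poly y) :
    Poly (fun a => c1 (x a) (y a)) :=
  Poly.add (Poly.mul (NPC.Poly.const 2) (poly_fd hx hy)) (Poly.ite (Poly.decide_bool
    (Poly.getD hx (poly_fd hx hy) (NPC.Poly.const false))) (NPC.Poly.const 1) (NPC.Poly.const 0))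

section cc

variable (f : List Bool → List Bool)

/-- composite colour -/
def cc : ℕ → List Bool → ℕ
  | 0, _ => 0
  | j + 1, x => cc j x * (2 * x.length + 2) + c1 x (f^[j + 1] x)

theorem cc_lt (j : ℕ) (x : List Bool) : cc f j x < (2 * x.length + 2) ^ j := by
  induction j with
  | zero => simp [cc]
  | succ j ih =>
    have h1 := c1_lt x (f^[j + 1] x)
    rw [cc, pow_succ]
    have h2 : cc f j x + 1 ≤ (2 * x.length + 2) ^ j := ih
    have h3 := Nat.mul_le_mul_right (2 * x.length + 2) h2
    rw [Nat.add_one_mul] at h3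
    omega

theorem cc_inj {x y : List Bool} (hl : x.length = y.length) : ∀ {j : ℕ},
    cc f j x = cc f j y → ∀ i, 0 < i → i ≤ j → c1 x (f^[i] x) = c1 y (f^[i] y) := by
  intro j
  induction j with
  | zero => intro _ i h1 h2; omega
  | succ j ih =>
    intro h i h1 h2
    rw [cc, cc, ← hl] at h
    have h3 := c1_lt x (f^[j + 1] x)
    have h4 := c1_lt y (f^[j + 1] y)
    rw [← hl] at h4
    have hb : 0 < 2 * x.length + 2 := by omega
    have h5 : cc f j x = cc f j y := by
      have := congrArg (fun t => t / (2 * x.length + 2)) h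
      rwa [mul_comm, Nat.mul_add_div hb, Nat.div_eq_of_lt h3, add_zero,
        mul_comm (cc f j y), Nat.mul_add_div hb, Nat.div_eq_of_lt h4, add_zero] at this
    rcases Nat.lt_succ_iff_lt_or_eq.1 (Nat.lt_succ_of_le h2) with h6 | h6
    · exact ih h5 i h1 (by omega)
    · subst h6
      rw [h5] at h
      omega

theorem poly_cc (hf : LI f) (hp : Poly f) (j : ℕ) : Poly (cc f j) := by
  induction j with
  | zero => exact NPC.Poly.const 0
  | succ j ih =>
    exact Poly.add (Poly.mul ih (Poly.add (Poly.mul (NPC.Poly.const 2) (Poly.length Poly.id))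
      (NPC.Poly.const 2))) (poly_c1 Poly.id (poly_upw hf hp (UPoly.const (j + 1)) Poly.id))

end cc

/-! ### Ruling sets -/

section ruling

variable (f fi : List Bool → List Bool) (k : ℕ)

/-- `x` has the least colour among its near neighbours -/
def rul (x : List Bool) : Bool :=
  (List.range k).all (fun j => decide (j = 0) || (decide (cc f (k - 1) x < cc f (k - 1) (f^[j] x)) &&
    decide (cc f (k - 1) x < cc f (k - 1) (fi^[j] x))))

theorem rul_iff (x : List Bool) : rul f fi k x = true ↔ ∀ j, 0 < j → j < k →
    cc f (k - 1) x < cc f (k - 1) (f^[j] x) ∧ cc f (k - 1) x < cc f (k - 1) (fi^[j] x) := by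
  unfold rul
  rw [List.all_eq_true]
  constructor
  · intro h j h1 h2
    have := h j (List.mem_range.2 h2)
    simp only [Bool.or_eq_true, decide_eq_true_iff, Bool.and_eq_true] at this
    rcases this with h3 | h3
    · omega
    · exact h3
  · intro h j hj
    simp only [Bool.or_eq_true, decide_eq_true_iff, Bool.and_eq_true]
    rcases Nat.eq_zero_or_pos j with h3 | h3
    · exact Or.inl h3
    · exact Or.inr (h j h3 (List.mem_range.1 hj))

/-- the bound for the distances -/
noncomputable def Kp : Polynomial ℕ := 2 * ((2 * Polynomial.X + 2) ^ (k - 1) * Polynomial.C k) + 1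

theorem Kp_eval (n : ℕ) : (Kp k).eval n = 2 * ((2 * n + 2) ^ (k - 1) * k) + 1 := by
  unfold Kp
  simp

variable {f fi}
variable (hf : LI f) (h1 : ∀ x, fi (f x) = x) (h2 : ∀ x, f (fi x) = x)

include hf

theorem cc_ne {x : List Bool} (hx : ∀ j, 0 < j → j < k → f^[j] x ≠ x) (j : ℕ) (hj : 0 < j)
    (hjk : j < k) : cc f (k - 1) (f^[j] x) ≠ cc f (k - 1) x := by
  intro e
  have h3 := cc_inj f (hf.iter_len j x) e j hj (by omega)
  have h4 : x ≠ f^[j] x := (hx j hj hjk).symm
  exact c1_ne (hf.iter_len j x).symm h4 h3.symm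

include h1 in
omit hf in
theorem fi_f_iter (j : ℕ) (x : List Bool) : fi^[j] (f^[j] x) = x :=
  Function.LeftInverse.iterate h1 j x

include h2 in
omit hf in
theorem f_fi_iter (j : ℕ) (x : List Bool) : f^[j] (fi^[j] x) = x :=
  Function.LeftInverse.iterate h2 j x

/-- long cycles -/
def Long (f : List Bool → List Bool) (k : ℕ) (x : List Bool) : Prop :=
  ∀ j, 0 < j → j < k → f^[j] x ≠ x

theorem Long.iter {x : List Bool} (hx : Long f k x) (n : ℕ) : Long f k (f^[n] x) := by
  intro j hj hjk e
  apply hx j hj hjk
  apply hf.inj.iterate n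
  rw [← Function.iterate_add_apply, add_comm, Function.iterate_add_apply]
  exact e

include h1 h2

theorem exists_rul_near {y : List Bool} (hy : Long f k y) : ∀ (v s : ℕ),
    cc f (k - 1) (f^[s] y) ≤ v → v * k ≤ s →
    ∃ s', s' ≤ s + v * k ∧ s ≤ s' + v * k ∧ rul f fi k (f^[s'] y) = true := by
  intro v
  induction v with
  | zero =>
    intro s hs _
    refine ⟨s, by omega, by omega, ?_⟩
    rw [rul_iff]
    have hl := hy.iter k hf s
    intro j hj hjk
    have e1 := cc_ne k hf hl j hj hjk
    have hl' : Long f k (fi^[j] (f^[s] y)) := by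
      intro i hi hik e
      apply hl i hi hik
      have := congrArg (f^[j]) e
      rw [← Function.iterate_add_apply, add_comm, Function.iterate_add_apply,
        f_fi_iter h2] at this
      exact this
    have e2 := cc_ne k hf hl' j hj hjk
    rw [f_fi_iter h2] at e2
    omega
  | succ v ih =>
    intro s hs hvs
    by_cases hr : rul f fi k (f^[s] y) = true
    · exact ⟨s, by omega, by omega, hr⟩
    · rw [rul_iff] at hr
      push Not at hr
      obtain ⟨j, hj, hjk, hr⟩ := hr
      have e : (v + 1) * k = v * k + k := Nat.succ_mul v k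
      rw [e] at hvs ⊢
      have hl := hy.iter k hf s
      by_cases hc : cc f (k - 1) (f^[s] y) < cc f (k - 1) (f^[j] (f^[s] y))
      · have h3 := hr hc
        have hjs : j ≤ s := by omega
        have e3 : fi^[j] (f^[s] y) = f^[s - j] y := by
          obtain ⟨t, rfl⟩ : ∃ t, s = j + t := ⟨s - j, by omega⟩
          rw [Function.iterate_add_apply, fi_f_iter h1, Nat.add_sub_cancel_left]
        rw [e3] at h3
        have hl' := hy.iter k hf (s - j)
        have e4 := cc_ne k hf hl' j hj hjk
        rw [← Function.iterate_add_apply, Nat.add_sub_cancel' hjs] at e4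
        obtain ⟨s', h4, h5, h6⟩ := ih (s - j) (by omega) (by omega)
        exact ⟨s', by omega, by omega, h6⟩
      · have e4 := cc_ne k hf hl j hj hjk
        rw [← Function.iterate_add_apply] at hc e4
        obtain ⟨s', h4, h5, h6⟩ := ih (j + s) (by omega) (by omega)
        exact ⟨s', by omega, by omega, h6⟩

theorem exists_fwd {x : List Bool} (hx : Long f k x) :
    ∃ s < (Kp k).eval x.length, rul f fi k (f^[s] x) = true := by
  rw [Kp_eval]
  have h3 := cc_lt f (k - 1) (f^[(2 * x.length + 2) ^ (k - 1) * k] x)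
  rw [hf.iter_len] at h3
  obtain ⟨s', h4, _, h6⟩ := exists_rul_near k hf h1 h2 hx ((2 * x.length + 2) ^ (k - 1))
    ((2 * x.length + 2) ^ (k - 1) * k) h3.le le_rfl
  exact ⟨s', by omega, h6⟩

theorem exists_bwd {x : List Bool} (hx : Long f k x) :
    ∃ s < (Kp k).eval x.length, rul f fi k (fi^[s] x) = true := by
  rw [Kp_eval]
  generalize hA : (2 * x.length + 2) ^ (k - 1) * k = A
  have hl : Long f k (fi^[2 * A] x) := by
    intro i hi hik e
    apply hx i hi hik
    have := congrArg (f^[2 * A]) e
    rw [← Function.iterate_add_apply, add_comm, Function.iterate_add_apply,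
      f_fi_iter h2] at this
    exact this
  have hlen : (fi^[2 * A] x).length = x.length := by
    rw [← hf.iter_len (2 * A) (fi^[2 * A] x), f_fi_iter h2]
  have h3 := cc_lt f (k - 1) (f^[A] (fi^[2 * A] x))
  rw [hf.iter_len, hlen] at h3
  obtain ⟨s', h4, _, h6⟩ := exists_rul_near k hf h1 h2 hl ((2 * x.length + 2) ^ (k - 1)) A
    h3.le hA.le
  rw [hA] at h4
  refine ⟨2 * A - s', by omega, ?_⟩
  have e : fi^[2 * A - s'] x = f^[s'] (fi^[2 * A] x) := by
    obtain ⟨t, ht⟩ : ∃ t, 2 * A = s' + t := ⟨2 * A - s', by omega⟩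
    rw [ht, Nat.add_sub_cancel_left, Function.iterate_add_apply, f_fi_iter h2]
  rw [e]
  exact h6

omit hf h2 in
/-- Two points of the ruling set are far from each other. -/
theorem rul_far {x : List Bool} (hx : rul f fi k x = true) {d : ℕ} (hd : 0 < d)
    (hy : rul f fi k (f^[d] x) = true) : k ≤ d := by
  by_contra hcon
  have e1 := ((rul_iff f fi k x).1 hx d hd (by omega)).1
  have e2 := ((rul_iff f fi k _).1 hy d hd (by omega)).2
  rw [fi_f_iter h1] at e2
  omega

end ruling

end Pool.Agent.V7H56.PP
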