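import Pool.Agent.V7H56.PP.Tower
import Pool.Agent.V7H56.PP.Defs

/-!
# Towers as permutations of bit strings
-/

namespace Pool.Agent.V7H56.PP

open Pool.Agent.NPC Pool.Agent.NPC.PIso

theorem lt_two_pow_sz (n : ℕ) : n < 2 ^ sz n :=
  (Nat.lt_size_self n).trans_le (Nat.pow_le_pow_right (by norm_num)
    (by have := size_le_sz n; omega))

theorem exists_bound {B : List Bool → ℕ} (hB : Poly B) {F : List Bool → ℕ → ℕ}
    (hF : Poly (fun p : List Bool × ℕ => F p.1 p.2)) :
    ∃ p : Polynomial ℕ, ∀ x, ∀ v < B x, F x v < 2 ^ (p.eval x.length) := by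
  obtain ⟨pB, hpB⟩ := hB.sz_le
  obtain ⟨pF, hpF⟩ := hF.sz_le
  refine ⟨pF.comp ((4 * Polynomial.X + 1) + 2 * pB.comp (4 * Polynomial.X + 1) + 1),
    fun x v hv => ?_⟩
  refine (lt_two_pow_sz _).trans_le (Nat.pow_le_pow_right (by norm_num) ?_)
  refine (hpF (x, v)).trans ?_
  rw [Polynomial.eval_comp]
  refine eval_mono pF ?_
  have h1 := sz_listBool_le x
  have h2 := sz_nat_mono_le hv.le
  have h3 := (hpB x).trans (eval_mono pB h1)
  simp only [sz_pair, Polynomial.eval_add, Polynomial.eval_mul, Polynomial.eval_X,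
    Polynomial.eval_one, Polynomial.eval_ofNat, Polynomial.eval_comp]
  omega

namespace Tower

variable {L : Set (List Bool)} {D : Rev L} (T : Tower D)

/-- the number of a state -/
def num (x : List Bool) (z : ℕ × ℕ × ℕ) : ℕ := (z.1 * T.m + z.2.1) * D.B x + z.2.2

/-- the state of a number -/
def den (x : List Bool) (n : ℕ) : ℕ × ℕ × ℕ := (n / D.B x / T.m, n / D.B x % T.m, n % D.B x)

theorem B_pos (D : Rev L) (x : List Bool) : 0 < D.B x := (Nat.zero_le _).trans_lt (D.v₀_lt x)

theorem den_num {x : List Bool} {z : ℕ × ℕ × ℕ} (h : T.V x z) : T.den x (T.num x z) = z := by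
  obtain ⟨t, u, v⟩ := z
  obtain ⟨_, h2, h3, _⟩ := h
  simp only at h2 h3
  unfold den num
  simp only
  have e1 : ((t * T.m + u) * D.B x + v) / D.B x = t * T.m + u := by
    rw [mul_comm, Nat.mul_add_div (B_pos D x), Nat.div_eq_of_lt h3, add_zero]
  have e2 : ((t * T.m + u) * D.B x + v) % D.B x = v := by
    rw [mul_comm, Nat.mul_add_mod, Nat.mod_eq_of_lt h3]
  rw [e1, e2, mul_comm t, Nat.mul_add_div T.m_pos, Nat.div_eq_of_lt h2, add_zero,
    Nat.mul_add_mod, Nat.mod_eq_of_lt h2]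

theorem exists_W : ∃ W : Polynomial ℕ, ∀ x z, T.V x z → T.num x z < 2 ^ (W.eval x.length) := by
  have hx : Poly (fun p : List Bool × ℕ => p.1) := Poly.fst Poly.id
  have h1 : Poly (fun p : List Bool × ℕ =>
      (2 * D.R p.1 + 2 + T.Dl p.1 p.2 + 1) * T.m * D.B p.1) :=
    Poly.mul (Poly.mul (Poly.add (Poly.add (Poly.add (Poly.mul (NPC.Poly.const 2) (D.poly_R.comp hx))
      (NPC.Poly.const 2)) T.poly_Dl) (NPC.Poly.const 1)) (NPC.Poly.const _)) (D.poly_B.comp hx)
  obtain ⟨p, hp⟩ := exists_bound (B := D.B) D.poly_B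
    (F := fun x v => (2 * D.R x + 2 + T.Dl x v + 1) * T.m * D.B x) h1
  refine ⟨p, fun x z hz => ?_⟩
  obtain ⟨t, u, v⟩ := z
  obtain ⟨h2, h3, h4, _⟩ := hz
  simp only at h2 h3 h4
  refine lt_of_lt_of_le ?_ (hp x v h4).le
  unfold num
  simp only
  have e1 : (t * T.m + u) * D.B x + v < (t * T.m + u + 1) * D.B x := by
    rw [Nat.add_one_mul]; omega
  refine e1.trans_le (Nat.mul_le_mul_right _ ?_)
  have e2 : t * T.m + u + 1 ≤ (t + 1) * T.m := by rw [Nat.add_one_mul]; omega
  exact e2.trans (Nat.mul_le_mul_right _ (by omega))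

/-- the width of the number part -/
noncomputable def W : Polynomial ℕ := T.exists_W.choose

theorem num_lt {x : List Bool} {z : ℕ × ℕ × ℕ} (h : T.V x z) :
    T.num x z < 2 ^ (T.W.eval x.length) := T.exists_W.choose_spec x z h

/-- the string of a state -/
noncomputable def cod (x : List Bool) (z : ℕ × ℕ × ℕ) : List Bool :=
  pairBits x (pad (T.W.eval x.length) (T.num x z))

/-- the instance of a string -/
def ix (w : List Bool) : List Bool := (unpair w).1

/-- the state of a string -/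
def sx (w : List Bool) : ℕ × ℕ × ℕ := T.den (ix w) (valB (unpair w).2)

/-- strings coding valid states -/
noncomputable def ok (w : List Bool) : Bool :=
  decide (T.cod (ix w) (T.sx w) = w) && decide (T.V (ix w) (T.sx w))

theorem ix_cod (x : List Bool) (z : ℕ × ℕ × ℕ) : ix (T.cod x z) = x := by
  simp [ix, cod, unpair_pairBits]

theorem sx_cod {x : List Bool} {z : ℕ × ℕ × ℕ} (h : T.V x z) : T.sx (T.cod x z) = z := by
  unfold sx
  rw [ix_cod]
  unfold cod
  rw [unpair_pairBits, valB_pad, T.den_num h]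

theorem ok_cod {x : List Bool} {z : ℕ × ℕ × ℕ} (h : T.V x z) : T.ok (T.cod x z) = true := by
  unfold ok
  rw [T.sx_cod h, ix_cod]
  simp [h]

theorem ok_spec {w : List Bool} (h : T.ok w = true) :
    T.cod (ix w) (T.sx w) = w ∧ T.V (ix w) (T.sx w) := by
  unfold ok at h
  simpa only [Bool.and_eq_true, decide_eq_true_iff] using h

theorem cod_length {x : List Bool} {z : ℕ × ℕ × ℕ} (h : T.V x z) :
    (T.cod x z).length = 2 * x.length + 1 + T.W.eval x.length := by
  unfold cod
  rw [pairBits_length, pad_length (T.num_lt h)]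

theorem length_eq {x x' : List Bool} {z z' : ℕ × ℕ × ℕ} (h : T.V x z) (h' : T.V x' z')
    (e : (T.cod x z).length = (T.cod x' z').length) : x.length = x'.length := by
  rw [T.cod_length h, T.cod_length h'] at e
  rcases lt_trichotomy x.length x'.length with hlt | heq | hgt
  · have := eval_mono T.W hlt.le
    omega
  · exact heq
  · have := eval_mono T.W hgt.le
    omega

theorem cod_inj {x x' : List Bool} {z z' : ℕ × ℕ × ℕ} (h : T.V x z) (h' : T.V x' z')
    (e : T.cod x z = T.cod x' z') : x = x' ∧ z = z' := by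
  have h1 := congrArg ix e
  have h2 := congrArg T.sx e
  rw [ix_cod, ix_cod] at h1
  rw [T.sx_cod h, T.sx_cod h'] at h2
  exact ⟨h1, h2⟩

/-- the permutation on strings -/
noncomputable def F (w : List Bool) : List Bool :=
  if T.ok w = true then T.cod (ix w) (T.G (ix w) (T.sx w)) else w

/-- its inverse -/
noncomputable def Fi (w : List Bool) : List Bool :=
  if T.ok w = true then T.cod (ix w) (T.Gi (ix w) (T.sx w)) else w

theorem F_cod {x : List Bool} {z : ℕ × ℕ × ℕ} (h : T.V x z) :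
    T.F (T.cod x z) = T.cod x (T.G x z) := by
  unfold F
  rw [if_pos (T.ok_cod h), T.sx_cod h, ix_cod]

theorem Fi_cod {x : List Bool} {z : ℕ × ℕ × ℕ} (h : T.V x z) :
    T.Fi (T.cod x z) = T.cod x (T.Gi x z) := by
  unfold Fi
  rw [if_pos (T.ok_cod h), T.sx_cod h, ix_cod]

theorem F_Fi (w : List Bool) : T.F (T.Fi w) = w := by
  by_cases h : T.ok w = true
  · obtain ⟨h1, h2⟩ := T.ok_spec h
    rw [← h1, T.Fi_cod h2, T.F_cod (T.V_Gi h2), T.G_Gi h2]
  · have : T.Fi w = w := if_neg h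
    rw [this]
    exact if_neg h

theorem Fi_F (w : List Bool) : T.Fi (T.F w) = w := by
  by_cases h : T.ok w = true
  · obtain ⟨h1, h2⟩ := T.ok_spec h
    rw [← h1, T.F_cod h2, T.Fi_cod (T.V_G h2), T.Gi_G h2]
  · have : T.F w = w := if_neg h
    rw [this]
    exact if_neg h

theorem length_F (w : List Bool) : (T.F w).length = w.length := by
  by_cases h : T.ok w = true
  · obtain ⟨h1, h2⟩ := T.ok_spec h
    rw [← h1, T.F_cod h2, T.cod_length h2, T.cod_length (T.V_G h2)]
  · have : T.F w = w := if_neg h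
    rw [this]

/-- the permutation -/
noncomputable def perm : Equiv.Perm (List Bool) := ⟨T.F, T.Fi, T.Fi_F, T.F_Fi⟩

/-! ### Polynomial time -/

section poly

variable {α : Type} [TEnc α]

theorem poly_cod {x : α → List Bool} {z : α → ℕ × ℕ × ℕ} (hx : Poly x) (hz : Poly z) :
    Poly (fun a => T.cod (x a) (z a)) :=
  poly_pairBits hx (poly_pad (UPoly.eval (UPoly.length hx) _) (Poly.add (Poly.mul
    (Poly.add (Poly.mul (Poly.fst hz) (NPC.Poly.const _)) (Poly.fst (Poly.snd hz)))
    (D.poly_B.comp hx)) (Poly.snd (Poly.snd hz))))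

theorem poly_ix {w : α → List Bool} (hw : Poly w) : Poly (fun a => ix (w a)) :=
  Poly.fst (poly_unpair.comp hw)

theorem poly_sx {w : α → List Bool} (hw : Poly w) : Poly (fun a => T.sx (w a)) := by
  have h1 : Poly (fun a => valB (unpair (w a)).2) := Poly.valBits (Poly.snd (poly_unpair.comp hw))
  have hB := D.poly_B.comp (poly_ix hw)
  exact Poly.pair (Poly.div (Poly.div h1 hB) (NPC.Poly.const _))
    (Poly.pair (Poly.mod (Poly.div h1 hB) (NPC.Poly.const _)) (Poly.mod h1 hB))

theorem poly_V {x : α → List Bool} {z : α → ℕ × ℕ × ℕ} (hx : Poly x) (hz : Poly z) :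
    Poly (fun a => decide (T.V (x a) (z a))) := by
  have hR := D.poly_R.comp hx
  have ht := Poly.fst hz
  have hu := Poly.fst (Poly.snd hz)
  have hv := Poly.snd (Poly.snd hz)
  have hDl : Poly (fun a => T.Dl (x a) (z a).2.2) :=
    T.poly_Dl.comp (f := fun a => (x a, (z a).2.2)) (Poly.pair hx hv)
  have hb : Poly (fun a => D.b (x a) (z a).2.2) :=
    D.poly_b.comp (f := fun a => (x a, (z a).2.2)) (Poly.pair hx hv)
  have h := Poly.and (Poly.decide_le ht (Poly.add (Poly.add (Poly.mul (NPC.Poly.const 2) hR)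
    (NPC.Poly.const 2)) hDl)) (Poly.and (Poly.decide_lt hu (NPC.Poly.const T.m)) (Poly.and
    (Poly.decide_lt hv (D.poly_B.comp hx)) (Poly.or (Poly.decide_not (Poly.decide_eq ht
    (Poly.add hR (NPC.Poly.const 1)))) (Poly.and (NPC.Poly.const T.e) hb))))
  refine h.congr fun a => ?_
  rw [Bool.eq_iff_iff]
  simp only [Bool.and_eq_true, Bool.or_eq_true, decide_eq_true_iff]
  unfold V
  tauto

theorem poly_ok : Poly T.ok :=
  Poly.and (Poly.decide_eq (T.poly_cod (poly_ix Poly.id) (T.poly_sx Poly.id)) Poly.id)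
    (T.poly_V (poly_ix Poly.id) (T.poly_sx Poly.id))

theorem poly_G {x : α → List Bool} {z : α → ℕ × ℕ × ℕ} (hx : Poly x) (hz : Poly z) :
    Poly (fun a => T.G (x a) (z a)) := by
  have hR := D.poly_R.comp hx
  have ht := Poly.fst hz
  have hu := Poly.fst (Poly.snd hz)
  have hv := Poly.snd (Poly.snd hz)
  have hDl : Poly (fun a => T.Dl (x a) (z a).2.2) :=
    T.poly_Dl.comp (f := fun a => (x a, (z a).2.2)) (Poly.pair hx hv)
  have hb : Poly (fun a => D.b (x a) (z a).2.2) :=
    D.poly_b.comp (f := fun a => (x a, (z a).2.2)) (Poly.pair hx hv)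
  have hΘ : Poly (fun a => D.Θ (x a) (z a).2.2) :=
    D.poly_Θ.comp (f := fun a => (x a, (z a).2.2)) (Poly.pair hx hv)
  have hΘi : Poly (fun a => D.Θi (x a) (z a).2.2) :=
    D.poly_Θi.comp (f := fun a => (x a, (z a).2.2)) (Poly.pair hx hv)
  have hP : Poly (fun a => T.P (D.b (x a) (z a).2.2) (z a).2.1) :=
    T.poly_P.comp (f := fun a => (D.b (x a) (z a).2.2, (z a).2.1)) (Poly.pair hb hu)
  have h22 := Poly.add (Poly.mul (NPC.Poly.const 2) hR) (NPC.Poly.const 2)
  have hmid := Poly.pair (Poly.add hR (NPC.Poly.const 2)) (Poly.pair hP hv)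
  unfold G
  exact Poly.ite (Poly.decide_lt ht hR) (Poly.pair (Poly.succ ht) (Poly.pair hu hΘ))
    (Poly.ite (Poly.decide_eq ht hR)
      (Poly.ite (Poly.decide_and (Poly.decide_bool (NPC.Poly.const T.e)) (Poly.decide_bool hb))
        (Poly.pair (Poly.succ hR) (Poly.pair hu hv)) hmid)
      (Poly.ite (Poly.decide_eq ht (Poly.succ hR)) hmid
        (Poly.ite (Poly.decide_lt ht h22) (Poly.pair (Poly.succ ht) (Poly.pair hu hΘi))
          (Poly.ite (Poly.decide_lt ht (Poly.add h22 hDl))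
            (Poly.pair (Poly.succ ht) (Poly.pair hu hv))
            (Poly.pair (NPC.Poly.const 0) (Poly.pair hu hv))))))

theorem poly_Gi {x : α → List Bool} {z : α → ℕ × ℕ × ℕ} (hx : Poly x) (hz : Poly z) :
    Poly (fun a => T.Gi (x a) (z a)) := by
  have hR := D.poly_R.comp hx
  have ht := Poly.fst hz
  have hu := Poly.fst (Poly.snd hz)
  have hv := Poly.snd (Poly.snd hz)
  have hDl : Poly (fun a => T.Dl (x a) (z a).2.2) :=
    T.poly_Dl.comp (f := fun a => (x a, (z a).2.2)) (Poly.pair hx hv)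
  have hb : Poly (fun a => D.b (x a) (z a).2.2) :=
    D.poly_b.comp (f := fun a => (x a, (z a).2.2)) (Poly.pair hx hv)
  have hΘ : Poly (fun a => D.Θ (x a) (z a).2.2) :=
    D.poly_Θ.comp (f := fun a => (x a, (z a).2.2)) (Poly.pair hx hv)
  have hΘi : Poly (fun a => D.Θi (x a) (z a).2.2) :=
    D.poly_Θi.comp (f := fun a => (x a, (z a).2.2)) (Poly.pair hx hv)
  have hP : Poly (fun a => T.Pi (D.b (x a) (z a).2.2) (z a).2.1) :=
    T.poly_Pi.comp (f := fun a => (D.b (x a) (z a).2.2, (z a).2.1)) (Poly.pair hb hu)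
  have h22 := Poly.add (Poly.mul (NPC.Poly.const 2) hR) (NPC.Poly.const 2)
  have hpred := Poly.sub ht (NPC.Poly.const 1)
  unfold Gi
  exact Poly.ite (Poly.decide_eq ht (NPC.Poly.const 0)) (Poly.pair (Poly.add h22 hDl)
      (Poly.pair hu hv))
    (Poly.ite (Poly.decide_le ht hR) (Poly.pair hpred (Poly.pair hu hΘi))
      (Poly.ite (Poly.decide_eq ht (Poly.succ hR)) (Poly.pair hR (Poly.pair hu hv))
        (Poly.ite (Poly.decide_eq ht (Poly.add hR (NPC.Poly.const 2)))
          (Poly.ite (Poly.decide_and (Poly.decide_bool (NPC.Poly.const T.e)) (Poly.decide_bool hb))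
            (Poly.pair (Poly.succ hR) (Poly.pair hP hv)) (Poly.pair hR (Poly.pair hP hv)))
          (Poly.ite (Poly.decide_le ht h22) (Poly.pair hpred (Poly.pair hu hΘ))
            (Poly.pair hpred (Poly.pair hu hv))))))

theorem poly_F : Poly T.F :=
  Poly.ite (Poly.decide_bool T.poly_ok) (T.poly_cod (poly_ix Poly.id)
    (T.poly_G (poly_ix Poly.id) (T.poly_sx Poly.id))) Poly.id

theorem poly_Fi : Poly T.Fi :=
  Poly.ite (Poly.decide_bool T.poly_ok) (T.poly_cod (poly_ix Poly.id)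
    (T.poly_Gi (poly_ix Poly.id) (T.poly_sx Poly.id))) Poly.id

end poly

theorem perm_mem : T.perm ∈ PPerm :=
  ⟨T.length_F, poly_iff.1 T.poly_F, poly_iff.1 T.poly_Fi⟩

/-! ### Orbits -/

theorem F_iter {x : List Bool} {z : ℕ × ℕ × ℕ} (h : T.V x z) (n : ℕ) :
    T.F^[n] (T.cod x z) = T.cod x ((T.G x)^[n] z) := by
  induction n with
  | zero => rfl
  | succ n ih =>
    rw [Function.iterate_succ_apply', ih, T.F_cod (T.V_iter h n), Function.iterate_succ_apply']

theorem F_iter_eq_iff {x : List Bool} {u v : ℕ} (hu : u < T.m) (hv : v < D.B x) (n : ℕ) :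
    T.F^[n] (T.cod x (0, u, v)) = T.cod x (0, u, v) ↔
      T.lap x v ∣ n ∧ (T.P (T.ans x v))^[n / T.lap x v] u = u := by
  have hV := T.V_zero hu hv
  rw [T.F_iter hV]
  constructor
  · intro h
    exact (T.iter_eq_iff x hv n).1 (T.cod_inj (T.V_iter hV n) hV h).2
  · intro h
    rw [(T.iter_eq_iff x hv n).2 h]

/-- the second coordinate of a string -/
def rd (w : List Bool) : ℕ := (T.sx w).2.1

theorem poly_rd {α : Type} [TEnc α] {w : α → List Bool} (hw : Poly w) :
    Poly (fun a => T.rd (w a)) := Poly.fst (Poly.snd (T.poly_sx hw))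

theorem rd_iter {x : List Bool} {u v : ℕ} (hu : u < T.m) (hv : v < D.B x) (n : ℕ) :
    T.rd (T.F^[n] (T.cod x (0, u, v))) = (T.P (T.ans x v))^[n / T.lap x v +
      (if n % T.lap x v ≤ D.R x + T.ext x v then 0 else 1)] u := by
  have hV := T.V_zero hu hv
  rw [T.F_iter hV, rd, T.sx_cod (T.V_iter hV n), T.snd_iter x u hv]

end Tower

end Pool.Agent.V7H56.PP
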