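import Pool.Agent.V7H56.PP.LNorm
import Pool.Agent.V7H56.PP.Str

/-!
# Labellings by an inflexible digraph: if they can be found in polynomial time then `P = PSPACE`
-/

namespace Pool.Agent.V7H56.PP

open Pool.Agent.NPC Pool.Agent.NPC.PIso
open Function (minimalPeriod)

variable {q : ℕ} {E : Fin (q + 1) → Fin (q + 1) → Prop}

/-- there is a walk of length `n` from `a` to `b` -/
def Wk (E : Fin (q + 1) → Fin (q + 1) → Prop) (a b : Fin (q + 1)) (n : ℕ) : Prop :=
  ∃ w : ℕ → Fin (q + 1), w 0 = a ∧ w n = b ∧ ∀ i < n, E (w i) (w (i + 1))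

theorem Wk.add {a b c : Fin (q + 1)} {d e : ℕ} (h : Wk E a b d) (h' : Wk E b c e) :
    Wk E a c (d + e) := by
  obtain ⟨w, h1, h2, h3⟩ := h
  obtain ⟨w', h1', h2', h3'⟩ := h'
  refine ⟨fun i => if i ≤ d then w i else w' (i - d), by simp [h1], ?_, ?_⟩
  · rcases Nat.eq_zero_or_pos e with he | he
    · subst he
      simp only [add_zero, le_refl, if_true]
      rw [h2, ← h1', h2']
    · simp only
      rw [if_neg (by omega), Nat.add_sub_cancel_left, h2']
  · intro i hi
    simp only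
    rcases lt_trichotomy i d with hlt | heq | hgt
    · rw [if_pos (by omega), if_pos (by omega)]
      exact h3 i hlt
    · subst heq
      rw [if_pos le_rfl, if_neg (by omega), h2, ← h1', Nat.add_sub_cancel_left]
      exact h3' 0 (by omega)
    · rw [if_neg (by omega), if_neg (by omega)]
      have e1 : i + 1 - d = i - d + 1 := by omega
      rw [e1]
      exact h3' (i - d) (by omega)

/-- the greatest common divisor of the lengths of the closed walks at `a` -/
noncomputable def gd (E : Fin (q + 1) → Fin (q + 1) → Prop) (a : Fin (q + 1)) : ℕ :=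
  Nat.setGcd {d | Closed E a d}

theorem gd_dvd {a : Fin (q + 1)} {d : ℕ} (h : Closed E a d) : gd E a ∣ d :=
  Nat.setGcd_dvd_of_mem h

/-- the closed walk lengths form a submonoid -/
def cmon (E : Fin (q + 1) → Fin (q + 1) → Prop) (a : Fin (q + 1)) : AddSubmonoid ℕ where
  carrier := {d | Closed E a d}
  add_mem' h h' := h.add h'
  zero_mem' := Closed.zero a

theorem two_le_gd (hE : ¬ Flexible E) {a : Fin (q + 1)} {d : ℕ} (hd : 0 < d) (h : Closed E a d) :
    2 ≤ gd E a := by
  have h0 : gd E a ≠ 0 := by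
    intro h0
    have := gd_dvd h
    rw [h0] at this
    have := Nat.eq_zero_of_zero_dvd this
    omega
  have h1 : gd E a ≠ 1 := by
    intro h1
    apply hE
    obtain ⟨n, hn⟩ := Nat.exists_mem_closure_of_ge {d | Closed E a d}
    refine ⟨a, n, fun m hm => ?_⟩
    have h2 := hn m hm (by
      change gd E a ∣ m
      rw [h1]
      exact one_dvd _)
    have h3 : AddSubmonoid.closure {d | Closed E a d} ≤ cmon E a :=
      AddSubmonoid.closure_le.2 fun _ h => h
    exact h3 h2
  omega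

open Classical in
/-- the phase of `b` as seen from `a` -/
noncomputable def ph (E : Fin (q + 1) → Fin (q + 1) → Prop) (a b : Fin (q + 1)) : ℕ :=
  if h : ∃ s, Wk E a b s ∧ ∃ r, Wk E b a r then h.choose % gd E a else 0

theorem ph_eq {a b : Fin (q + 1)} {s r : ℕ} (h : Wk E a b s) (h' : Wk E b a r) :
    ph E a b = s % gd E a := by
  have hex : ∃ s, Wk E a b s ∧ ∃ r, Wk E b a r := ⟨s, h, r, h'⟩
  unfold ph
  rw [dif_pos hex]
  have h1 := hex.choose_spec.1
  have h2 : gd E a ∣ hex.choose + r := gd_dvd (h1.add h')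
  have h3 : gd E a ∣ s + r := gd_dvd (h.add h')
  have h4 : hex.choose + r ≡ s + r [MOD gd E a] :=
    ((Nat.modEq_zero_iff_dvd.2 h2).trans (Nat.modEq_zero_iff_dvd.2 h3).symm)
  exact Nat.ModEq.add_right_cancel' r h4

section poly

variable {α : Type} [TEnc α]

theorem poly_gd {l : α → Fin (q + 1)} (h : Poly (fun x => (l x : ℕ))) :
    Poly (fun x => gd E (l x)) := by
  refine (poly_table (q + 1) (fun i => gd E (Fin.ofNat (q + 1) i)) h).congr fun x => ?_
  rw [table_eq (l x).2]
  congr 1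
  exact Fin.ext (Nat.mod_eq_of_lt (l x).2)

theorem poly_ph {l l' : α → Fin (q + 1)} (h : Poly (fun x => (l x : ℕ)))
    (h' : Poly (fun x => (l' x : ℕ))) : Poly (fun x => ph E (l x) (l' x)) := by
  refine (poly_table ((q + 1) * (q + 1)) (fun i => ph E (Fin.ofNat (q + 1) (i / (q + 1)))
    (Fin.ofNat (q + 1) (i % (q + 1)))) (Poly.add (Poly.mul h (NPC.Poly.const (q + 1))) h')).congr
      fun x => ?_
  have h1 := (l x).2
  have h2 := (l' x).2
  have h3 : (l x : ℕ) * (q + 1) + (l' x : ℕ) < (q + 1) * (q + 1) := by nlinarith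
  rw [table_eq h3]
  have e1 : ((l x : ℕ) * (q + 1) + (l' x : ℕ)) / (q + 1) = l x := by
    rw [mul_comm, Nat.mul_add_div (Nat.succ_pos _), Nat.div_eq_of_lt h2, add_zero]
  have e2 : ((l x : ℕ) * (q + 1) + (l' x : ℕ)) % (q + 1) = l' x := by
    rw [mul_comm, Nat.mul_add_mod, Nat.mod_eq_of_lt h2]
  rw [e1, e2]
  have e3 : Fin.ofNat (q + 1) (l x : ℕ) = l x := Fin.ext (Nat.mod_eq_of_lt h1)
  have e4 : Fin.ofNat (q + 1) (l' x : ℕ) = l' x := Fin.ext (Nat.mod_eq_of_lt h2)
  rw [e3, e4]

end poly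

/-! ### The tower -/

variable {L : Set (List Bool)} (D : Rev L)

/-- the tower used for labellings -/
def TL (m : ℕ) (hm : 0 < m) : Tower D where
  m := m
  P := fun _ u => (u + 1) % m
  Pi := fun _ u => (u + (m - 1)) % m
  e := true
  Dl := fun _ _ => 0
  m_pos := hm
  P_lt _ _ _ := Nat.mod_lt _ hm
  Pi_lt _ _ _ := Nat.mod_lt _ hm
  Pi_P _ u hu := by
    rw [Nat.mod_add_mod]
    have e : u + 1 + (m - 1) = u + m := by omega
    rw [e, Nat.add_mod_right, Nat.mod_eq_of_lt hu]
  P_Pi _ u hu := by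
    rw [Nat.mod_add_mod]
    have e : u + (m - 1) + 1 = u + m := by omega
    rw [e, Nat.add_mod_right, Nat.mod_eq_of_lt hu]
  poly_P := Poly.mod (Poly.succ (Poly.snd Poly.id)) (NPC.Poly.const m)
  poly_Pi := Poly.mod (Poly.add (Poly.snd Poly.id) (NPC.Poly.const (m - 1))) (NPC.Poly.const m)
  poly_Dl := NPC.Poly.const 0

theorem TL_iter (m k u : ℕ) (hu : u < m) : (fun u => (u + 1) % m)^[k] u = (u + k) % m := by
  induction k with
  | zero => simp [Nat.mod_eq_of_lt hu]
  | succ k ih =>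
    rw [Function.iterate_succ_apply', ih, Nat.mod_add_mod]
    rfl

/-- the system of a tower -/
noncomputable def Tower.sys (T : Tower D) : PSys where
  X := {w | T.ok w = true}
  f := T.F
  fi := T.Fi
  inP := ⟨fun w => [T.ok w], polyTime_of_poly T.poly_ok, fun w => by simp⟩
  poly_f := poly_iff.1 T.poly_F
  poly_fi := poly_iff.1 T.poly_Fi
  f_mem w h := by
    obtain ⟨h1, h2⟩ := T.ok_spec h
    rw [← h1, T.F_cod h2]
    exact T.ok_cod (T.V_G h2)
  fi_mem w h := by
    obtain ⟨h1, h2⟩ := T.ok_spec h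
    rw [← h1, T.Fi_cod h2]
    exact T.ok_cod (T.V_Gi h2)
  fi_f w _ := T.Fi_F w
  f_fi w _ := T.F_Fi w
  len w _ := T.length_F w

theorem Tower.li (T : Tower D) : LI T.F := ⟨T.length_F, Function.LeftInverse.injective T.Fi_F⟩

theorem TL_dvd {m : ℕ} (hm : 0 < m) {w : List Bool} (hw : (TL D m hm).ok w = true) :
    m ∣ minimalPeriod (TL D m hm).F w := by
  generalize hT : TL D m hm = T at hw ⊢
  obtain ⟨x, z, rfl, hz⟩ : ∃ x z, w = T.cod x z ∧ T.V x z :=
    ⟨Tower.ix w, T.sx w, (T.ok_spec hw).1.symm, (T.ok_spec hw).2⟩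
  obtain ⟨i, u, v, hu, hv, rfl⟩ := T.exists_base _ z rfl hz
  rw [← T.F_iter (T.V_zero hu hv), (T.li).period_iter]
  obtain ⟨h1, h2⟩ := (T.F_iter_eq_iff hu hv _).1
    (Function.iterate_minimalPeriod (f := T.F) (x := T.cod x (0, u, v)))
  generalize minimalPeriod T.F (T.cod x (0, u, v)) = N at h1 h2 ⊢
  subst hT
  have h3 : (u + N / (TL D m hm).lap x v) % m = u := by
    rw [← TL_iter m _ u hu]
    exact h2
  have h4 : m ∣ N / (TL D m hm).lap x v := by
    have hu' : u < m := hu
    have h5 : u + N / (TL D m hm).lap x v ≡ u + 0 [MOD m] := by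
      rw [add_zero]
      unfold Nat.ModEq
      rw [h3, Nat.mod_eq_of_lt hu']
    exact Nat.modEq_zero_iff_dvd.1 (Nat.ModEq.add_left_cancel' u h5)
  rw [← Nat.div_mul_cancel h1]
  exact h4.mul_right _

/-- If labellings by an inflexible digraph with a closed walk can be found in polynomial time then
every language in `PSPACE` is in `P`. -/
theorem inP_of_solvable (hS : Solvable E) (hE : ¬ Flexible E) {a₀ : Fin (q + 1)} {m : ℕ}
    (hm : 0 < m) (hc : Closed E a₀ m) {L : Set (List Bool)} (hL : InPSPACE L) : InP L := by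
  classical
  obtain ⟨D⟩ := exists_rev hL
  have hex : ∃ l, (Tower.sys D (TL D m hm)).Labels E l := by
    obtain ⟨w, hw0, hwm, hw⟩ := hc
    refine ⟨fun x => w (di (TL D m hm).F x % m), fun x hx => ?_⟩
    have h1 : m ∣ minimalPeriod (TL D m hm).F x := TL_dvd D hm hx
    have h2 := (Tower.li D (TL D m hm)).di_f x
    change E (w (di (TL D m hm).F x % m)) (w (di (TL D m hm).F ((TL D m hm).F x) % m))
    rw [h2, Nat.mod_mod_of_dvd _ h1]
    generalize di (TL D m hm).F x = j
    have h3 := Nat.mod_lt j hm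
    have h4 := hw _ h3
    rcases Nat.lt_or_ge (j % m + 1) m with h5 | h5
    · have e : (j + 1) % m = j % m + 1 := by
        rw [Nat.add_mod]
        rcases Nat.lt_or_ge 1 m with h6 | h6
        · rw [Nat.mod_eq_of_lt h6, Nat.mod_eq_of_lt h5]
        · omega
      rw [e]
      exact h4
    · have h6 : j % m + 1 = m := by omega
      have e : (j + 1) % m = 0 := by
        rw [← Nat.mod_add_mod, h6, Nat.mod_self]
      rw [e, hw0, ← hwm]
      rw [h6] at h4
      exact h4
  obtain ⟨l, hl, hpl⟩ := hS _ hex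
  have hpl' := poly_of_polyLabel hpl
  let T := TL D m hm
  have hV : ∀ x, T.V x (0, 0, D.v₀ x) := fun x => T.V_zero hm (D.v₀_lt x)
  let p : List Bool → List Bool := fun x => T.cod x (0, 0, D.v₀ x)
  let r : List Bool → List Bool := fun x => T.cod x (2 * D.R x + 2, 1 % m, D.v₀ x)
  have hr : ∀ x, r x = T.F^[2 * D.R x + 1 + T.ext x (D.v₀ x)] (p x) := by
    intro x
    rw [T.F_iter (hV x), T.G_2R2 x 0 (D.v₀_lt x)]
    rfl
  have hlE : ∀ (x : List Bool) (i : ℕ), E (l (T.F^[i] (p x))) (l (T.F^[i + 1] (p x))) := by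
    intro x i
    rw [Function.iterate_succ_apply']
    refine hl _ ?_
    change T.ok _ = true
    rw [T.F_iter (hV x)]
    exact T.ok_cod (T.V_iter (hV x) i)
  have hwk : ∀ x i n, Wk E (l (T.F^[i] (p x))) (l (T.F^[i + n] (p x))) n := by
    intro x i n
    exact ⟨fun j => l (T.F^[i + j] (p x)), rfl, rfl, fun j _ => hlE x (i + j)⟩
  have hext : ∀ x, T.ext x (D.v₀ x) = if x ∈ L then 1 else 0 := by
    intro x
    have hspec : T.ans x (D.v₀ x) = true ↔ x ∈ L := D.spec x
    unfold Tower.ext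
    by_cases h : x ∈ L
    · rw [if_pos h, if_pos ⟨rfl, hspec.2 h⟩]
    · rw [if_neg h, if_neg]
      rintro ⟨_, h2⟩
      exact h (hspec.1 h2)
  have hph : ∀ x, 2 ≤ gd E (l (p x)) ∧
      ph E (l (p x)) (l (r x)) = (2 * D.R x + 1 + T.ext x (D.v₀ x)) % gd E (l (p x)) := by
    intro x
    have hN := (Tower.li D T).period_pos (p x)
    have h1 := hwk x 0 (minimalPeriod T.F (p x))
    rw [zero_add, Function.iterate_minimalPeriod] at h1
    refine ⟨two_le_gd hE hN h1, ?_⟩
    generalize hs : 2 * D.R x + 1 + T.ext x (D.v₀ x) = s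
    have h2 := hwk x 0 s
    have h3 := hwk x s (minimalPeriod T.F (p x) * s - s)
    have e1 : s + (minimalPeriod T.F (p x) * s - s) = minimalPeriod T.F (p x) * s := by
      have : s ≤ minimalPeriod T.F (p x) * s := Nat.le_mul_of_pos_left _ hN
      omega
    have e2 : T.F^[minimalPeriod T.F (p x) * s] (p x) = p x :=
      (Function.isPeriodicPt_minimalPeriod T.F (p x)).mul_const s
    rw [e1, e2] at h3
    rw [zero_add] at h2
    have hr' := hr x
    rw [hs] at hr'
    rw [hr']
    exact ph_eq h2 h3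
  have hpp : Poly p := T.poly_cod Poly.id (Poly.pair (NPC.Poly.const 0) (Poly.pair (NPC.Poly.const 0)
    D.poly_v₀))
  have hpr : Poly r := T.poly_cod Poly.id (Poly.pair (Poly.add (Poly.mul (NPC.Poly.const 2) D.poly_R)
    (NPC.Poly.const 2)) (Poly.pair (NPC.Poly.const (1 % m)) D.poly_v₀))
  refine ⟨fun x => [!(decide (ph E (l (p x)) (l (r x)) = (2 * D.R x + 1) % gd E (l (p x))))],
    polyTime_of_poly (Poly.not (Poly.decide_eq
      (poly_ph (hpl'.comp hpp) (hpl'.comp hpr))
      (Poly.mod (Poly.add (Poly.mul (NPC.Poly.const 2) D.poly_R) (NPC.Poly.const 1))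
        (poly_gd (hpl'.comp hpp))))), fun x => ?_⟩
  obtain ⟨h1, h2⟩ := hph x
  simp only [List.cons.injEq, and_true, Bool.not_eq_true', decide_eq_false_iff_not]
  rw [h2, hext x]
  constructor
  · intro h h3
    rw [if_pos h] at h3
    have h4 : 2 * D.R x + 1 + 1 ≡ 2 * D.R x + 1 + 0 [MOD gd E (l (p x))] := h3
    have h5 := Nat.modEq_zero_iff_dvd.1 (Nat.ModEq.add_left_cancel' _ h4)
    have := Nat.le_of_dvd (by norm_num) h5
    omega
  · intro h
    by_contra hcon
    rw [if_neg hcon] at h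
    exact h rfl

end Pool.Agent.V7H56.PP
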