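import Pool.Agent.V7H56.PP.LFlex
import Pool.Agent.V7H56.PP.LHard

/-!
# The dichotomy for labellings of polynomial-time permutations
-/

namespace Pool.Agent.V7H56.PP

open Pool.Agent.NPC Pool.Agent.NPC.PIso
open Function (minimalPeriod)

attribute [local irreducible] Kp

theorem all_congr {l : List ℕ} {p p' : ℕ → Bool} (h : ∀ a ∈ l, p a = p' a) : l.all p = l.all p' := by
  rw [Bool.eq_iff_iff, List.all_eq_true, List.all_eq_true]
  exact forall₂_congr fun a ha => by rw [h a ha]

theorem any_congr {l : List ℕ} {p p' : ℕ → Bool} (h : ∀ a ∈ l, p a = p' a) : l.any p = l.any p' := by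
  rw [Bool.eq_iff_iff, List.any_eq_true, List.any_eq_true]
  exact exists_congr fun a => and_congr_right fun ha => by rw [h a ha]

theorem least_unique {p : ℕ → Bool} {a b : ℕ} (ha : p a = true) (ha' : ∀ i < a, p i = false)
    (hb : p b = true) (hb' : ∀ i < b, p i = false) : a = b := by
  rcases lt_trichotomy a b with h | h | h
  · rw [hb' a h] at ha; exact absurd ha (by simp)
  · exact h
  · rw [ha' b h] at hb; exact absurd hb (by simp)

section

variable (f fi : List Bool → List Bool) (k : ℕ)

theorem poly_rul (hf : LI f) (hfi : LI fi) (hp : Poly f) (hpi : Poly fi) : Poly (rul f fi k) := by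
  have hc : Poly (cc f (k - 1)) := poly_cc f hf hp (k - 1)
  have hmin : UPoly (fun p : List Bool × ℕ => min p.2 k) :=
    upoly_min (Poly.snd Poly.id) (UPoly.const k)
  have h1 : Poly (fun p : List Bool × ℕ => f^[min p.2 k] p.1) :=
    poly_upw hf hp hmin (Poly.fst Poly.id)
  have h2 : Poly (fun p : List Bool × ℕ => fi^[min p.2 k] p.1) :=
    poly_upw hfi hpi hmin (Poly.fst Poly.id)
  have h := Poly.all (l := fun _ : List Bool => List.range k) (p := fun x j => decide (j = 0) ||
    (decide (cc f (k - 1) x < cc f (k - 1) (f^[min j k] x)) &&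
      decide (cc f (k - 1) x < cc f (k - 1) (fi^[min j k] x)))) (NPC.Poly.const _)
    (Poly.or (Poly.decide_eq (Poly.snd Poly.id) (NPC.Poly.const 0)) (Poly.and
      (Poly.decide_lt (hc.comp (Poly.fst Poly.id)) (hc.comp h1))
      (Poly.decide_lt (hc.comp (Poly.fst Poly.id)) (hc.comp h2))))
  refine h.congr fun x => ?_
  refine all_congr fun j hj => ?_
  rw [min_eq_left (List.mem_range.1 hj).le]

/-- steps back to the ruling set -/
noncomputable def prv (x : List Bool) : ℕ :=
  lst (fun i => rul f fi k (fi^[min i ((Kp k).eval x.length)] x)) ((Kp k).eval x.length)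

/-- steps forward to the ruling set, starting from the successor -/
noncomputable def nxt (x : List Bool) : ℕ :=
  lst (fun i => rul f fi k (f^[min i ((Kp k).eval x.length)] (f x))) ((Kp k).eval x.length)

theorem poly_prv (hf : LI f) (hfi : LI fi) (hp : Poly f) (hpi : Poly fi) : Poly (prv f fi k) := by
  have hK : ∀ {α : Type} [TEnc α] {x : α → List Bool}, Poly x →
      UPoly (fun a => (Kp k).eval (x a).length) := fun hx => UPoly.eval (UPoly.length hx) _
  have h1 : Poly (fun q : List Bool × ℕ => fi^[min q.2 ((Kp k).eval q.1.length)] q.1) :=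
    poly_upw hfi hpi (upoly_min (Poly.snd Poly.id) (hK (Poly.fst Poly.id))) (Poly.fst Poly.id)
  have h2 : Poly (fun q : List Bool × ℕ =>
      rul f fi k (fi^[min q.2 ((Kp k).eval q.1.length)] q.1)) :=
    (poly_rul f fi k hf hfi hp hpi).comp h1
  exact poly_ulst (N := fun x : List Bool => (Kp k).eval x.length)
    (p := fun x i => rul f fi k (fi^[min i ((Kp k).eval x.length)] x)) (hK Poly.id) h2

theorem poly_nxt (hf : LI f) (hfi : LI fi) (hp : Poly f) (hpi : Poly fi) : Poly (nxt f fi k) := by
  have hK : ∀ {α : Type} [TEnc α] {x : α → List Bool}, Poly x →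
      UPoly (fun a => (Kp k).eval (x a).length) := fun hx => UPoly.eval (UPoly.length hx) _
  have h1 : Poly (fun q : List Bool × ℕ => f^[min q.2 ((Kp k).eval q.1.length)] (f q.1)) :=
    poly_upw hf hp (upoly_min (Poly.snd Poly.id) (hK (Poly.fst Poly.id)))
      (hp.comp (Poly.fst Poly.id))
  have h2 : Poly (fun q : List Bool × ℕ =>
      rul f fi k (f^[min q.2 ((Kp k).eval q.1.length)] (f q.1))) :=
    (poly_rul f fi k hf hfi hp hpi).comp h1
  exact poly_ulst (N := fun x : List Bool => (Kp k).eval x.length)
    (p := fun x i => rul f fi k (f^[min i ((Kp k).eval x.length)] (f x))) (hK Poly.id) h2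

variable {f fi}
variable (hf : LI f) (h1 : ∀ x, fi (f x) = x) (h2 : ∀ x, f (fi x) = x)

include hf h1 h2

theorem prv_spec {x : List Bool} (hx : Long f k x) :
    rul f fi k (fi^[prv f fi k x] x) = true ∧
      ∀ i < prv f fi k x, rul f fi k (fi^[i] x) = false := by
  obtain ⟨s, hs, h⟩ := exists_bwd k hf h1 h2 hx
  have h3 := lst_spec (p := fun i => rul f fi k (fi^[min i ((Kp k).eval x.length)] x))
    (N := (Kp k).eval x.length) ⟨s, hs, by rw [min_eq_left hs.le]; exact h⟩
  obtain ⟨h4, h5⟩ := h3
  refine ⟨?_, fun i hi => ?_⟩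
  · rwa [min_eq_left h4.le] at h5
  · have h6 := lst_min hi
    rwa [min_eq_left (hi.trans h4).le] at h6

theorem nxt_spec {x : List Bool} (hx : Long f k x) :
    rul f fi k (f^[nxt f fi k x] (f x)) = true ∧
      ∀ i < nxt f fi k x, rul f fi k (f^[i] (f x)) = false := by
  obtain ⟨s, hs, h⟩ := exists_fwd k hf h1 h2 (Long.iter k hf hx 1)
  simp only [Function.iterate_one] at hs h
  rw [hf.len] at hs
  have h3 := lst_spec (p := fun i => rul f fi k (f^[min i ((Kp k).eval x.length)] (f x)))
    (N := (Kp k).eval x.length) ⟨s, hs, by rw [min_eq_left hs.le]; exact h⟩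
  obtain ⟨h4, h5⟩ := h3
  refine ⟨?_, fun i hi => ?_⟩
  · rwa [min_eq_left h4.le] at h5
  · have h6 := lst_min hi
    rwa [min_eq_left (hi.trans h4).le] at h6

/-- how the two distances change -/
theorem prv_nxt_f {x : List Bool} (hx : Long f k x) :
    (nxt f fi k x = 0 ∧ prv f fi k (f x) = 0) ∨
    (0 < nxt f fi k x ∧ prv f fi k (f x) = prv f fi k x + 1 ∧
      nxt f fi k (f x) + 1 = nxt f fi k x) := by
  have hx' : Long f k (f x) := Long.iter k hf hx 1
  obtain ⟨a1, a2⟩ := prv_spec k hf h1 h2 hx
  obtain ⟨b1, b2⟩ := nxt_spec k hf h1 h2 hx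
  obtain ⟨a1', a2'⟩ := prv_spec k hf h1 h2 hx'
  obtain ⟨b1', b2'⟩ := nxt_spec k hf h1 h2 hx'
  by_cases hr : rul f fi k (f x) = true
  · left
    refine ⟨?_, ?_⟩
    · by_contra hcon
      have := b2 0 (by omega)
      simp only [Function.iterate_zero, id_eq] at this
      rw [hr] at this
      exact absurd this (by simp)
    · by_contra hcon
      have := a2' 0 (by omega)
      simp only [Function.iterate_zero, id_eq] at this
      rw [hr] at this
      exact absurd this (by simp)
  · right
    have hn : 0 < nxt f fi k x := by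
      rcases Nat.eq_zero_or_pos (nxt f fi k x) with h | h
      · rw [h] at b1
        exact absurd b1 hr
      · exact h
    refine ⟨hn, ?_, ?_⟩
    · refine least_unique (p := fun i => rul f fi k (fi^[i] (f x))) a1' a2' ?_ ?_
      · rw [Function.iterate_succ_apply, h1]
        exact a1
      · intro i hi
        rcases Nat.eq_zero_or_pos i with h | h
        · subst h
          simpa using hr
        · obtain ⟨j, rfl⟩ : ∃ j, i = j + 1 := ⟨i - 1, by omega⟩
          rw [Function.iterate_succ_apply, h1]
          exact a2 j (by omega)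
    · have : nxt f fi k (f x) = nxt f fi k x - 1 := by
        refine least_unique (p := fun i => rul f fi k (f^[i] (f (f x)))) b1' b2' ?_ ?_
        · rw [← Function.iterate_succ_apply, Nat.succ_eq_add_one, Nat.sub_add_cancel hn]
          exact b1
        · intro i hi
          rw [← Function.iterate_succ_apply]
          exact b2 (i + 1) (by omega)
      omega

theorem prv_nxt_far {x : List Bool} (hx : Long f k x) :
    k ≤ prv f fi k x + nxt f fi k x + 1 := by
  obtain ⟨a1, _⟩ := prv_spec k hf h1 h2 hx
  obtain ⟨b1, _⟩ := nxt_spec k hf h1 h2 hx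
  refine rul_far k h1 a1 (d := prv f fi k x + nxt f fi k x + 1) (by omega) ?_
  have e : prv f fi k x + nxt f fi k x + 1 = nxt f fi k x + 1 + prv f fi k x := by ring
  rw [e, Function.iterate_add_apply, f_fi_iter h2, Function.iterate_succ_apply]
  exact b1

end

/-! ### Short cycles -/

section short

variable (f fi : List Bool → List Bool) (k : ℕ)

/-- short cycles -/
def sh (x : List Bool) : Bool :=
  (List.range k).any (fun j => decide (0 < j) && decide (f^[min j k] x = x))

/-- the length of a short cycle -/
def perS (x : List Bool) : ℕ := lst (fun j => decide (f^[min j k + 1] x = x)) k + 1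

/-- least points of short cycles -/
def minS (y : List Bool) : Bool :=
  (List.range k).all (fun j => decide (valB y ≤ valB (f^[min j k] y)))

/-- the distance from the least point of a short cycle -/
def diS (x : List Bool) : ℕ := lst (fun i => minS f k (fi^[min i k] x)) k

variable {α : Type} [TEnc α]

theorem poly_sh (hf : LI f) (hp : Poly f) : Poly (sh f k) :=
  Poly.any (p := fun x j => decide (0 < j) && decide (f^[min j k] x = x)) (NPC.Poly.const _)
    (Poly.and (Poly.decide_lt (NPC.Poly.const 0) (Poly.snd Poly.id)) (Poly.decide_eq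
      (poly_upw hf hp (upoly_min (Poly.snd Poly.id) (UPoly.const k)) (Poly.fst Poly.id))
      (Poly.fst Poly.id)))

theorem poly_perS (hf : LI f) (hp : Poly f) : Poly (perS f k) :=
  Poly.succ (poly_ulst (p := fun x j => decide (f^[min j k + 1] x = x)) (UPoly.const k)
    (Poly.decide_eq (poly_upw hf hp (UPoly.add (upoly_min (Poly.snd Poly.id) (UPoly.const k))
      (UPoly.const 1)) (Poly.fst Poly.id)) (Poly.fst Poly.id)))

theorem poly_minS (hf : LI f) (hp : Poly f) : Poly (minS f k) :=
  Poly.all (p := fun y j => decide (valB y ≤ valB (f^[min j k] y))) (NPC.Poly.const _)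
    (Poly.decide_le (Poly.valBits (Poly.fst Poly.id)) (Poly.valBits
      (poly_upw hf hp (upoly_min (Poly.snd Poly.id) (UPoly.const k)) (Poly.fst Poly.id))))

theorem poly_diS (hf : LI f) (hp : Poly f) (hfi : LI fi) (hpi : Poly fi) : Poly (diS f fi k) :=
  poly_ulst (p := fun x i => minS f k (fi^[min i k] x)) (UPoly.const k)
    ((poly_minS f k hf hp).comp (poly_upw hfi hpi (upoly_min (Poly.snd Poly.id) (UPoly.const k))
      (Poly.fst Poly.id)))

variable {f fi}

theorem sh_iff (x : List Bool) : sh f k x = true ↔ ¬ Long f k x := by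
  unfold sh Long
  rw [List.any_eq_true]
  push Not
  constructor
  · rintro ⟨j, hj, h⟩
    simp only [Bool.and_eq_true, decide_eq_true_iff] at h
    have hj' := List.mem_range.1 hj
    rw [min_eq_left hj'.le] at h
    exact ⟨j, h.1, hj', h.2⟩
  · rintro ⟨j, h1, h2, h3⟩
    refine ⟨j, List.mem_range.2 h2, ?_⟩
    simp only [Bool.and_eq_true, decide_eq_true_iff]
    rw [min_eq_left h2.le]
    exact ⟨h1, h3⟩

theorem sh_period {x : List Bool} (h : sh f k x = true) : minimalPeriod f x < k := by
  rw [sh_iff] at h
  unfold Long at h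
  push Not at h
  obtain ⟨j, h1, h2, h3⟩ := h
  exact (Function.IsPeriodicPt.minimalPeriod_le h1 h3).trans_lt h2

variable (hf : LI f)

include hf

theorem perS_eq {x : List Bool} (h : minimalPeriod f x < k) : perS f k x = minimalPeriod f x := by
  have hpos := hf.period_pos x
  have e : lst (fun j => decide (f^[min j k + 1] x = x)) k = minimalPeriod f x - 1 := by
    apply lst_eq_of
    · omega
    · rw [decide_eq_true_iff, min_eq_left (by omega), Nat.sub_add_cancel hpos]
      exact Function.iterate_minimalPeriod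
    · intro i hi
      rw [decide_eq_false_iff_not, min_eq_left (by omega)]
      exact Function.not_isPeriodicPt_of_pos_of_lt_minimalPeriod (by omega) (by omega)
  unfold perS
  rw [e]
  omega

theorem minS_iff {y : List Bool} (h : minimalPeriod f y < k) : minS f k y = true ↔ IsMin f y := by
  unfold minS IsMin
  rw [List.all_eq_true]
  constructor
  · intro h1 j
    have hlt := (Nat.mod_lt j (hf.period_pos y)).trans h
    have := h1 (j % minimalPeriod f y) (List.mem_range.2 hlt)
    simp only [decide_eq_true_iff] at this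
    rwa [min_eq_left hlt.le, Function.iterate_mod_minimalPeriod_eq] at this
  · intro h1 j _
    simp only [decide_eq_true_iff]
    exact h1 _

variable (h1 : ∀ x, fi (f x) = x) (h2 : ∀ x, f (fi x) = x)

include h1 h2

theorem diS_eq {x : List Bool} (h : minimalPeriod f x < k) : diS f fi k x = di f x := by
  have hdl := hf.di_lt x
  have hper : ∀ i, minimalPeriod f (fi^[i] x) = minimalPeriod f x := by
    intro i
    conv_rhs => rw [← f_fi_iter h2 i x, hf.period_iter]
  apply lst_eq_of (by omega)
  · rw [min_eq_left (by omega), minS_iff k hf (by rw [hper]; exact h)]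
    have e : fi^[di f x] x = mn f x := by
      have e0 := congrArg (fi^[di f x]) (hf.di_spec x)
      rw [fi_f_iter h1] at e0
      exact e0.symm
    rw [e]
    exact hf.mn_min x
  · intro i hi
    rw [min_eq_left (by omega)]
    by_contra hcon
    rw [Bool.not_eq_false, minS_iff k hf (by rw [hper]; exact h)] at hcon
    have e1 := hf.min_unique hcon (hf.mn_min x) (k := mi f x + i) (by
      rw [Function.iterate_add_apply, f_fi_iter h2]
      rfl)
    have e2 : f^[i] (mn f x) = f^[di f x] (mn f x) := by
      rw [← e1, f_fi_iter h2, e1, hf.di_spec]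
    have e3 := (hf.modEq _ _ _).1 e2
    rw [hf.mn_period] at e3
    have := Nat.ModEq.eq_of_lt_of_lt e3 (hi.trans hdl) hdl
    omega

end short

/-! ### The theorem -/

variable {q : ℕ} {E : Fin (q + 1) → Fin (q + 1) → Prop}

theorem PSys.lii (S : PSys) : LI S.gi where
  len w := by
    have := S.li.len (S.gi w)
    rw [S.g_gi] at this
    exact this.symm
  inj := Function.LeftInverse.injective S.g_gi

/-- Labellings by flexible digraphs can always be found in polynomial time. -/
theorem solvable_of_flexible (hE : Flexible E) : Solvable E := by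
  obtain ⟨a, k₀, hk₀⟩ := hE
  obtain ⟨k, hk, hkE⟩ : ∃ k, 0 < k ∧ ∀ d ≥ k, Closed E a d :=
    ⟨k₀ + 1, by omega, fun d hd => hk₀ d (by omega)⟩
  intro S hS
  obtain ⟨l, hl⟩ := hS
  obtain ⟨wl, hwl, hw⟩ := exists_walks E
  obtain ⟨_, wa, _, hwa, _, hA⟩ := exists_anchored E a
  let lab : List Bool → Fin (q + 1) := fun x =>
    if sh S.g k x = true then wl (perS S.g k x) (diS S.g S.gi k x)
    else wa (prv S.g S.gi k x + nxt S.g S.gi k x + 1) (prv S.g S.gi k x)
  refine ⟨lab, fun x hx => ?_, polyLabel_of ?_⟩
  · rw [← S.g_of hx]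
    have hxl : minimalPeriod S.g (S.g x) = minimalPeriod S.g x := S.li.period_iter 1 x
    by_cases hs : sh S.g k x = true
    · have hp := sh_period k hs
      have hs' : sh S.g k (S.g x) = true := by
        rw [sh_iff]
        intro hL
        refine hL (minimalPeriod S.g x) (S.li.period_pos x) hp ?_
        rw [← hxl]
        exact Function.iterate_minimalPeriod
      have hp' := sh_period k hs'
      simp only [lab]
      rw [if_pos hs, if_pos hs', perS_eq k S.li hp, perS_eq k S.li hp',
        diS_eq k S.li S.gi_g S.g_gi hp, diS_eq k S.li S.gi_g S.g_gi hp', hxl, S.li.di_f]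
      exact hw _ (S.li.period_pos x) ⟨_, S.closed_of hl hx⟩ _ (S.li.di_lt x)
    · have hL : Long S.g k x := by
        by_contra hcon
        exact hs ((sh_iff k x).2 hcon)
      have hL' : Long S.g k (S.g x) := Long.iter k S.li hL 1
      have hs' : ¬ sh S.g k (S.g x) = true := fun h => (sh_iff k _).1 h hL'
      simp only [lab]
      rw [if_neg hs, if_neg hs']
      have hfar := prv_nxt_far k S.li S.gi_g S.g_gi hL
      have hfar' := prv_nxt_far k S.li S.gi_g S.g_gi hL'
      obtain ⟨_, h2⟩ := hA _ (Nat.succ_pos (prv S.g S.gi k x + nxt S.g S.gi k x)) (hkE _ hfar)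
      obtain ⟨h3, _⟩ := hA _ (Nat.succ_pos (prv S.g S.gi k (S.g x) + nxt S.g S.gi k (S.g x)))
        (hkE _ hfar')
      have h4 := h2 (prv S.g S.gi k x) (by omega)
      rw [Nat.succ_eq_add_one] at h3 h4
      rcases prv_nxt_f k S.li S.gi_g S.g_gi hL with ⟨h5, h6⟩ | ⟨h5, h6, h7⟩
      · rw [h5, if_neg (by omega)] at h4
        rw [h6] at h3 ⊢
        rw [h3, h5]
        exact h4
      · rw [if_pos (by omega)] at h4
        have e : prv S.g S.gi k (S.g x) + nxt S.g S.gi k (S.g x) + 1 =
            prv S.g S.gi k x + nxt S.g S.gi k x + 1 := by omega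
        rw [e, h6]
        exact h4
  · have h1 : Poly (fun x => (wl (perS S.g k x) (diS S.g S.gi k x) : ℕ)) :=
      hwl.comp (f := fun x => (perS S.g k x, diS S.g S.gi k x)) (Poly.pair
        (poly_perS S.g k S.li S.poly_g) (poly_diS S.g S.gi k S.li S.poly_g S.lii S.poly_gi))
    have hprv := poly_prv S.g S.gi k S.li S.lii S.poly_g S.poly_gi
    have hnxt := poly_nxt S.g S.gi k S.li S.lii S.poly_g S.poly_gi
    have h2 : Poly (fun x => (wa (prv S.g S.gi k x + nxt S.g S.gi k x + 1)
        (prv S.g S.gi k x) : ℕ)) :=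
      hwa.comp (f := fun x => (prv S.g S.gi k x + nxt S.g S.gi k x + 1, prv S.g S.gi k x))
        (Poly.pair (Poly.succ (Poly.add hprv hnxt)) hprv)
    refine (Poly.ite (Poly.decide_bool (poly_sh S.g k S.li S.poly_g)) h1 h2).congr fun x => ?_
    simp only [lab]
    by_cases h : sh S.g k x = true <;> simp [h]

/-- A digraph without closed walks has no labellings of nonempty systems. -/
theorem solvable_of_no_closed (hE : ∀ a d, 0 < d → ¬ Closed E a d) : Solvable E := by
  intro S hS
  obtain ⟨l, hl⟩ := hS
  refine ⟨fun _ => 0, fun x hx => ?_, polyLabel_of (NPC.Poly.const _)⟩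
  exact absurd (S.closed_of hl hx) (hE _ _ (S.li.period_pos x))

theorem solvable_iff (hE : ¬ Flexible E) (hc : ∃ a d, 0 < d ∧ Closed E a d) :
    Solvable E ↔ {L | InP L} = {L | InPSPACE L} := by
  constructor
  · intro h
    obtain ⟨a, d, hd, hc⟩ := hc
    ext L
    exact ⟨inPSPACE_of_inP, inP_of_solvable h hE hd hc⟩
  · intro h
    refine solvable_of (fun L hL => ?_) E
    have : L ∈ {L | InP L} := by rw [h]; exact hL
    exact this

end Pool.Agent.V7H56.PP
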