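import Pool.Agent.V7H56.PP.PSp
import Pool.Agent.V7H56.PP.Cyc

/-!
# If `P = PSPACE` then every polynomial-time permutation is a product of two involutions
-/

namespace Pool.Agent.V7H56.PP

open Pool.Agent.NPC Pool.Agent.NPC.PIso
open Function (minimalPeriod)

variable {α β : Type} [TEnc α] [TEnc β]

/-- long iterations with a parameter -/
theorem poly_iter (H : ∀ L, InPSPACE L → InP L) [TDec α] {n : α → ℕ} {s : α → β}
    {G : α → β → β} (hn : Poly n) (hs : Poly s) (hG : Poly (fun p : α × β => G p.1 p.2))
    (q : Polynomial ℕ) (hq : ∀ a, ∀ i ≤ n a, sz ((G a)^[i] (s a)) ≤ q.eval (sz a)) :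
    Poly (fun a => (G a)^[n a] (s a)) := by
  have key : ∀ (a : α) (b : β) (i : ℕ),
      (fun p : α × β => (p.1, G p.1 p.2))^[i] (a, b) = (a, (G a)^[i] b) := by
    intro a b i
    induction i with
    | zero => rfl
    | succ i ih => rw [Function.iterate_succ_apply', ih, Function.iterate_succ_apply']
  have h := poly_iterate H (n := n) (s := fun a => (a, s a)) (G := fun p : α × β =>
    (p.1, G p.1 p.2)) hn (Poly.pair Poly.id hs) (Poly.pair (Poly.fst Poly.id) hG)
    (Polynomial.X + q + 1) (by
      intro a i hi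
      rw [key]
      have := hq a i hi
      simp only [sz_pair, Polynomial.eval_add, Polynomial.eval_X, Polynomial.eval_one]
      omega)
  refine (Poly.snd h).congr fun a => ?_
  rw [key]

/-- long searches -/
theorem poly_lst (H : ∀ L, InPSPACE L → InP L) [TDec α] {N : α → ℕ} {p : α → ℕ → Bool}
    (hN : Poly N) (hp : Poly (fun q : α × ℕ => p q.1 q.2)) : Poly (fun a => lst (p a) (N a)) := by
  obtain ⟨pN, hpN⟩ := hN.sz_le
  refine poly_iter H (G := fun a k => bif p a k then k else k + 1) (s := fun _ => 0) hN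
    (NPC.Poly.const 0) (Poly.cond hp (Poly.snd Poly.id) (Poly.succ (Poly.snd Poly.id)))
    (2 * pN) fun a i hi => ?_
  have h1 : lst (p a) i ≤ N a := (lst_le _ _).trans hi
  have h2 := sz_nat_mono_le h1
  have h3 := hpN a
  unfold lst at h2
  simp only [Polynomial.eval_mul, Polynomial.eval_ofNat]
  omega

theorem poly_two_pow_length {x : α → List Bool} (hx : Poly x) :
    Poly (fun a => 2 ^ (x a).length) := poly_two_pow (UPoly.length hx)

section

variable (H : ∀ L, InPSPACE L → InP L) {f : List Bool → List Bool} (hf : LI f) (hp : Poly f)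

include H hf hp

theorem poly_pw [TDec α] {k : α → ℕ} {x : α → List Bool} (hk : Poly k) (hx : Poly x) :
    Poly (fun a => f^[k a] (x a)) := by
  obtain ⟨q, hq⟩ := hx.sz_le
  refine poly_iter H (G := fun (_ : α) w => f w) hk hx (hp.comp (Poly.snd Poly.id))
    (4 * q + 1) fun a i _ => ?_
  change sz (f^[i] (x a)) ≤ _
  have h1 := sz_listBool_le (f^[i] (x a))
  rw [hf.iter_len] at h1
  have h2 := sz_listBool_ge (x a)
  have h3 := hq a
  simp only [Polynomial.eval_add, Polynomial.eval_mul, Polynomial.eval_ofNat,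
    Polynomial.eval_one]
  omega

theorem poly_period [TDec α] {x : α → List Bool} (hx : Poly x) :
    Poly (fun a => minimalPeriod f (x a)) := by
  have h1 : Poly (fun w : List Bool =>
      lst (fun k => decide (f^[k + 1] w = w)) (2 ^ w.length) + 1) :=
    Poly.succ (poly_lst H (p := fun w k => decide (f^[k + 1] w = w))
      (poly_two_pow_length Poly.id) (Poly.decide_eq
        (poly_pw H hf hp (Poly.succ (Poly.snd Poly.id)) (Poly.fst Poly.id)) (Poly.fst Poly.id)))
  have h2 : Poly (minimalPeriod f : List Bool → ℕ) := by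
    refine h1.congr fun w => ?_
    have hpos := hf.period_pos w
    have e : lst (fun k => decide (f^[k + 1] w = w)) (2 ^ w.length) = minimalPeriod f w - 1 := by
      apply lst_eq_of
      · have := hf.period_le w
        omega
      · rw [decide_eq_true_iff, Nat.sub_add_cancel hpos]
        exact Function.iterate_minimalPeriod
      · intro i hi
        rw [decide_eq_false_iff_not]
        exact Function.not_isPeriodicPt_of_pos_of_lt_minimalPeriod (by omega) (by omega)
    rw [e]
    omega
  exact h2.comp hx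

open Classical in
theorem poly_isMin [TDec α] {x : α → List Bool} (hx : Poly x) :
    Poly (fun a => decide (IsMin f (x a))) := by
  have h1 : Poly (fun w : List Bool =>
      decide (lst (fun k => decide (valB (f^[k] w) < valB w)) (2 ^ w.length) = 2 ^ w.length)) :=
    Poly.decide_eq (poly_lst H (p := fun w k => decide (valB (f^[k] w) < valB w))
      (poly_two_pow_length Poly.id) (Poly.decide_lt (Poly.valBits
        (poly_pw H hf hp (Poly.snd Poly.id) (Poly.fst Poly.id)))
        (Poly.valBits (Poly.fst Poly.id)))) (poly_two_pow_length Poly.id)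
  have h2 : Poly (fun w : List Bool => decide (IsMin f w)) := by
    refine h1.congr fun w => ?_
    rw [decide_eq_decide, lst_eq_iff]
    constructor
    · intro h k
      rw [← Function.iterate_mod_minimalPeriod_eq]
      have := h (k % minimalPeriod f w)
        ((Nat.mod_lt _ (hf.period_pos w)).trans_le (hf.period_le w))
      rw [decide_eq_false_iff_not] at this
      exact not_lt.1 this
    · intro h k _
      rw [decide_eq_false_iff_not]
      exact not_lt.2 (h k)
  exact h2.comp hx

theorem poly_mi [TDec α] {x : α → List Bool} (hx : Poly x) : Poly (fun a => mi f (x a)) := by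
  classical
  have h1 : Poly (fun w : List Bool => mi f w) :=
    poly_lst H (p := fun w k => decide (IsMin f (f^[k] w))) (poly_two_pow_length Poly.id)
      (poly_isMin H hf hp (poly_pw H hf hp (Poly.snd Poly.id) (Poly.fst Poly.id)))
  exact h1.comp hx

theorem poly_mn [TDec α] {x : α → List Bool} (hx : Poly x) : Poly (fun a => mn f (x a)) :=
  poly_pw H hf hp (poly_mi H hf hp hx) hx

theorem poly_di [TDec α] {x : α → List Bool} (hx : Poly x) : Poly (fun a => di f (x a)) := by
  have h1 : Poly (fun w : List Bool => di f w) :=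
    poly_lst H (p := fun w k => decide (f^[k] (mn f w) = w)) (poly_two_pow_length Poly.id)
      (Poly.decide_eq (poly_pw H hf hp (Poly.snd Poly.id) (poly_mn H hf hp (Poly.fst Poly.id)))
        (Poly.fst Poly.id))
  exact h1.comp hx

theorem poly_rfx : Poly (rfx f) :=
  poly_pw H hf hp (Poly.sub (poly_period H hf hp Poly.id) (poly_di H hf hp Poly.id))
    (poly_mn H hf hp Poly.id)

end

theorem li_of_mem {g : Equiv.Perm (List Bool)} (hg : g ∈ LPerm) : LI g := ⟨hg, g.injective⟩

theorem PPerm_le : PPerm ≤ LPerm := fun _ hg => hg.1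

/-- The reflection as a permutation. -/
noncomputable def rfxP {f : List Bool → List Bool} (hf : LI f) : Equiv.Perm (List Bool) :=
  ⟨rfx f, rfx f, hf.rfx_rfx, hf.rfx_rfx⟩

theorem rfxP_mem {g : Equiv.Perm (List Bool)} (hg : g ∈ LPerm) : rfxP (li_of_mem hg) ∈ LPerm :=
  (li_of_mem hg).rfx_len

theorem rfxP_sq {f : List Bool → List Bool} (hf : LI f) : rfxP hf * rfxP hf = 1 :=
  Equiv.ext hf.rfx_rfx

theorem rfxP_mul_sq {g : Equiv.Perm (List Bool)} (hg : g ∈ LPerm) :
    (rfxP (li_of_mem hg) * g) * (rfxP (li_of_mem hg) * g) = 1 :=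
  Equiv.ext (li_of_mem hg).rfx_f

theorem inv_of_sq {G : Type} [Group G] {a : G} (h : a * a = 1) : a⁻¹ = a := inv_eq_of_mul_eq_one_left h

/-- If `P = PSPACE`, every polynomial-time permutation is a product of two involutions. -/
theorem strongly_real (H : ∀ L, InPSPACE L → InP L) {g : Equiv.Perm (List Bool)} (hg : g ∈ PPerm) :
    ∃ a ∈ PPerm, ∃ b ∈ PPerm, a * a = 1 ∧ b * b = 1 ∧ g = a * b := by
  have hL := PPerm_le hg
  have hpg : Poly g := poly_iff.2 hg.2.1
  have ha : rfxP (li_of_mem hL) ∈ PPerm :=
    ⟨rfxP_mem hL, poly_iff.1 (poly_rfx H (li_of_mem hL) hpg),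
      poly_iff.1 (poly_rfx H (li_of_mem hL) hpg)⟩
  refine ⟨_, ha, _, PPerm.mul_mem ha hg, rfxP_sq _, rfxP_mul_sq hL, ?_⟩
  rw [← mul_assoc, rfxP_sq, one_mul]

end Pool.Agent.V7H56.PP
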