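import Pool.Agent.V7H56.PP.Walk
import Pool.Agent.V7H56.PP.Pos

/-!
# Labellings: the case `P = PSPACE`
-/

namespace Pool.Agent.V7H56.PP

open Pool.Agent.NPC Pool.Agent.NPC.PIso
open Function (minimalPeriod)

theorem exists_test {X : Set (List Bool)} (h : InP X) :
    ∃ c : List Bool → Bool, Poly c ∧ ∀ x, x ∈ X ↔ c x = true := by
  obtain ⟨V, hV, h⟩ := h
  exact ⟨fun x => decide (V x = [true]), Poly.decide_eq (poly_iff.2 hV) (NPC.Poly.const _),
    fun x => by rw [h x, decide_eq_true_iff]⟩

variable {q : ℕ} {E : Fin (q + 1) → Fin (q + 1) → Prop}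

theorem polyLabel_of {l : List Bool → Fin (q + 1)} (h : Poly (fun x => (l x : ℕ))) :
    PolyLabel l := by
  have h1 : UPoly (fun x : List Bool => (l x : ℕ)) :=
    UPoly.of_le h (UPoly.const q) fun x => Nat.lt_succ_iff.1 (l x).2
  exact poly_iff.1 ((NPC.Poly.map (F := fun _ (_ : Unit) => true) h1 (NPC.Poly.const true)).congr
    fun x => by simp)

theorem poly_of_polyLabel {l : List Bool → Fin (q + 1)} (h : PolyLabel l) :
    Poly (fun x => (l x : ℕ)) :=
  (Poly.length (poly_iff.2 h)).congr fun x => by simp

namespace PSys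

variable (S : PSys)

/-- the test for membership -/
noncomputable def test : List Bool → Bool := (exists_test S.inP).choose

theorem poly_test : Poly S.test := (exists_test S.inP).choose_spec.1

theorem mem_iff (x : List Bool) : x ∈ S.X ↔ S.test x = true := (exists_test S.inP).choose_spec.2 x

/-- the permutation, extended by the identity -/
noncomputable def g (w : List Bool) : List Bool := if S.test w = true then S.f w else w

/-- the inverse, extended by the identity -/
noncomputable def gi (w : List Bool) : List Bool := if S.test w = true then S.fi w else w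

theorem g_of {x : List Bool} (h : x ∈ S.X) : S.g x = S.f x := if_pos ((S.mem_iff x).1 h)

theorem gi_of {x : List Bool} (h : x ∈ S.X) : S.gi x = S.fi x := if_pos ((S.mem_iff x).1 h)

theorem g_of_not {x : List Bool} (h : x ∉ S.X) : S.g x = x :=
  if_neg fun h' => h ((S.mem_iff x).2 h')

theorem gi_of_not {x : List Bool} (h : x ∉ S.X) : S.gi x = x :=
  if_neg fun h' => h ((S.mem_iff x).2 h')

theorem g_mem {x : List Bool} (h : x ∈ S.X) : S.g x ∈ S.X := by rw [S.g_of h]; exact S.f_mem x h

theorem gi_mem {x : List Bool} (h : x ∈ S.X) : S.gi x ∈ S.X := by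
  rw [S.gi_of h]; exact S.fi_mem x h

theorem gi_g (x : List Bool) : S.gi (S.g x) = x := by
  by_cases h : x ∈ S.X
  · rw [S.g_of h, S.gi_of (S.f_mem x h), S.fi_f x h]
  · rw [S.g_of_not h, S.gi_of_not h]

theorem g_gi (x : List Bool) : S.g (S.gi x) = x := by
  by_cases h : x ∈ S.X
  · rw [S.gi_of h, S.g_of (S.fi_mem x h), S.f_fi x h]
  · rw [S.gi_of_not h, S.g_of_not h]

theorem li : LI S.g where
  len w := by
    by_cases h : w ∈ S.X
    · rw [S.g_of h, S.len w h]
    · rw [S.g_of_not h]
  inj := Function.LeftInverse.injective S.gi_g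

theorem poly_g : Poly S.g :=
  Poly.ite (Poly.decide_bool S.poly_test) (poly_iff.2 S.poly_f) Poly.id

theorem poly_gi : Poly S.gi :=
  Poly.ite (Poly.decide_bool S.poly_test) (poly_iff.2 S.poly_fi) Poly.id

theorem iter_mem {x : List Bool} (h : x ∈ S.X) (n : ℕ) : S.g^[n] x ∈ S.X := by
  induction n with
  | zero => exact h
  | succ n ih => rw [Function.iterate_succ_apply']; exact S.g_mem ih

/-- A labelling gives a closed walk of the length of each cycle. -/
theorem closed_of {l : List Bool → Fin (q + 1)} (hl : S.Labels E l) {x : List Bool}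
    (hx : x ∈ S.X) : Closed E (l x) (minimalPeriod S.g x) := by
  refine ⟨fun i => l (S.g^[i] x), rfl, ?_, fun i _ => ?_⟩
  · simp only
    rw [Function.iterate_minimalPeriod]
  · simp only
    rw [Function.iterate_succ_apply', S.g_of (S.iter_mem hx i)]
    exact hl _ (S.iter_mem hx i)

end PSys

theorem LI.di_f {f : List Bool → List Bool} (hf : LI f) (x : List Bool) :
    di f (f x) = (di f x + 1) % minimalPeriod f x := by
  have h1 := hf.di_iter (hf.mn_min x) (di f x + 1)
  rw [Function.iterate_succ_apply', hf.di_spec, hf.mn_period] at h1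
  have h2 := hf.di_lt (f x)
  have h3 : minimalPeriod f (f x) = minimalPeriod f x := hf.period_iter 1 x
  rw [h3] at h2
  exact Nat.ModEq.eq_of_lt_of_lt (h1.trans (Nat.mod_modEq _ _).symm) h2
    (Nat.mod_lt _ (hf.period_pos x))

/-- If `P = PSPACE`, every labelling problem is solvable in polynomial time. -/
theorem solvable_of (H : ∀ L, InPSPACE L → InP L) (E : Fin (q + 1) → Fin (q + 1) → Prop) :
    Solvable E := by
  intro S hS
  obtain ⟨l, hl⟩ := hS
  obtain ⟨wl, hwl, hw⟩ := exists_walks E
  refine ⟨fun x => wl (minimalPeriod S.g x) (di S.g x), fun x hx => ?_, polyLabel_of ?_⟩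
  · have h1 := hw (minimalPeriod S.g x) (S.li.period_pos x) ⟨_, S.closed_of hl hx⟩ (di S.g x)
      (S.li.di_lt x)
    have h2 := S.li.di_f x
    have h3 : minimalPeriod S.g (S.g x) = minimalPeriod S.g x := S.li.period_iter 1 x
    rw [S.g_of hx] at h2 h3
    simp only
    rw [h2, h3]
    exact h1
  · exact hwl.comp (f := fun x => (minimalPeriod S.g x, di S.g x))
      (Poly.pair (poly_period H S.li S.poly_g Poly.id) (poly_di H S.li S.poly_g Poly.id))

end Pool.Agent.V7H56.PP
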