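import Pool.Agent.V7H56.PP.Defs

/-!
# Exponentially long iterations are possible in polynomial time if `P = PSPACE`
-/

namespace Pool.Agent.V7H56.PP

open Pool.Agent.NPC Pool.Agent.NPC.PIso

variable {α β : Type} [TEnc α] [TEnc β]

theorem poly_bits : Poly (bits : α → List Bool) := by
  obtain ⟨c, p, h⟩ := PC.rawIn
  exact ⟨c, p, fun a => h (bits a)⟩

theorem poly_of_bits {f : α → β} (h : Poly (fun a => bits (f a))) : Poly f :=
  PC.comp (g := fun x => x) (f := fun a => bits (f a)) rawOut h

section

variable (G : β → β) (acc : ℕ → β → Bool)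

/-- states of the iteration: index, counter, number of steps, value -/
abbrev ISt (β : Type) : Type := Option (ℕ × ℕ × ℕ × β)

/-- one step -/
def istep : ISt β → ISt β
  | none => none
  | some (j, i, n, b) => some (j, i + 1, n, G b)

/-- the end -/
def istop : ISt β → Bool
  | none => true
  | some (_, i, n, _) => decide (i = n)

/-- the answer -/
def iacc : ISt β → Bool
  | none => false
  | some (j, _, _, b) => acc j b

theorem poly_istep (hG : Poly G) : Poly (istep G) := by
  refine (Poly.optCases (o := fun s : ISt β => s) (g := fun _ => (none : ISt β))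
    (h := fun _ p => some (p.1, p.2.1 + 1, p.2.2.1, G p.2.2.2)) Poly.id (NPC.Poly.const _)
    (Poly.some (Poly.pair (Poly.fst (Poly.snd Poly.id)) (Poly.pair
      (Poly.succ (Poly.fst (Poly.snd (Poly.snd Poly.id))))
      (Poly.pair (Poly.fst (Poly.snd (Poly.snd (Poly.snd Poly.id))))
        (hG.comp (Poly.snd (Poly.snd (Poly.snd (Poly.snd Poly.id)))))))))).congr fun s => ?_
  cases s <;> rfl

theorem poly_istop : Poly (istop : ISt β → Bool) := by
  refine (Poly.optCases (o := fun s : ISt β => s) (g := fun _ => true)
    (h := fun _ p => decide (p.2.1 = p.2.2.1)) Poly.id (NPC.Poly.const _)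
    (Poly.decide_eq (Poly.fst (Poly.snd (Poly.snd Poly.id)))
      (Poly.fst (Poly.snd (Poly.snd (Poly.snd Poly.id)))))).congr fun s => ?_
  cases s <;> rfl

theorem poly_iacc (hacc : Poly (fun p : ℕ × β => acc p.1 p.2)) : Poly (iacc acc) := by
  refine (Poly.optCases (o := fun s : ISt β => s) (g := fun _ => false)
    (h := fun _ p => acc p.1 p.2.2.2) Poly.id (NPC.Poly.const _)
    (hacc.comp (f := fun q : ISt β × (ℕ × ℕ × ℕ × β) => (q.2.1, q.2.2.2.2))
      (Poly.pair (Poly.fst (Poly.snd Poly.id))
        (Poly.snd (Poly.snd (Poly.snd (Poly.snd Poly.id))))))).congr fun s => ?_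
  cases s <;> rfl

omit [TEnc β] in
theorem istep_iterate (j n : ℕ) (b : β) : ∀ i,
    (istep G)^[i] (some (j, 0, n, b)) = some (j, i, n, G^[i] b) := by
  intro i
  induction i with
  | zero => rfl
  | succ i ih => rw [Function.iterate_succ_apply', ih, Function.iterate_succ_apply']; rfl

end

/-- Testing the result of a long iteration in polynomial space. -/
theorem inPSPACE_test [TDec α] {n : α → ℕ} {s : α → β} {G : β → β} {acc : ℕ → β → Bool}
    (hn : Poly n) (hs : Poly s) (hG : Poly G) (hacc : Poly (fun p : ℕ × β => acc p.1 p.2))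
    (q : Polynomial ℕ) (hq : ∀ a, ∀ i ≤ n a, sz (G^[i] (s a)) ≤ q.eval (sz a)) :
    InPSPACE (lang (fun p : α × ℕ => acc p.2 (G^[n p.1] (s p.1)) = true)) := by
  obtain ⟨pn, hpn⟩ := hn.sz_le
  have hinit : Poly (fun w : List Bool => (unbits (α × ℕ) w).map
      (fun p => (p.2, 0, n p.1, s p.1))) := by
    refine Poly.optMap (f := fun (_ : List Bool) (p : α × ℕ) => (p.2, 0, n p.1, s p.1))
      poly_unbits ?_
    exact Poly.pair (Poly.snd (Poly.snd Poly.id)) (Poly.pair (NPC.Poly.const 0)
      (Poly.pair (hn.comp (Poly.fst (Poly.snd Poly.id))) (hs.comp (Poly.fst (Poly.snd Poly.id)))))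
  refine inPSPACE_iter (G := istep G) (stop := istop) (acc := iacc acc)
    (init := fun w => (unbits (α × ℕ) w).map (fun p => (p.2, 0, n p.1, s p.1)))
    (poly_istep G hG) poly_istop (poly_iacc acc hacc) hinit
    (Polynomial.X + 4 * pn + q + 10) fun w => ?_
  rw [mem_lang_iff]
  cases hw : unbits (α × ℕ) w with
  | none =>
    refine ⟨0, rfl, by omega, fun i hi => ?_, ?_⟩
    · obtain rfl : i = 0 := by omega
      simp
    · simp [iacc]
  | some p =>
    obtain ⟨a, j⟩ := p
    refine ⟨n a, ?_, fun i hi => ?_, fun i hi => ?_, ?_⟩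
    · simp only [Option.map_some]
      rw [istep_iterate]
      simp [istop]
    · simp only [Option.map_some]
      rw [istep_iterate]
      simp only [istop, decide_eq_false_iff_not]
      omega
    · simp only [Option.map_some]
      rw [istep_iterate]
      have h1 := bits_of_unbits hw
      have h2 : (bits (a, j)).length = w.length := by rw [h1]
      rw [bits_length, sz_pair] at h2
      have h3 := hq a i hi
      have h4 := (sz_nat_mono_le hi)
      have h5 := hpn a
      have h6 : pn.eval (sz a) ≤ pn.eval w.length := eval_mono pn (by omega)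
      have h7 : q.eval (sz a) ≤ q.eval w.length := eval_mono q (by omega)
      simp only [sz_some, sz_pair, Polynomial.eval_add, Polynomial.eval_mul, Polynomial.eval_X,
        Polynomial.eval_ofNat]
      omega
    · simp only [Option.map_some]
      rw [istep_iterate]
      simp [iacc]

/-- **Exponentially long iterations.** If `P = PSPACE` then the result of `n a` steps of a
polynomial-time function is computable in polynomial time, as long as the intermediate results are
short. -/
theorem poly_iterate (H : ∀ L, InPSPACE L → InP L) [TDec α] {n : α → ℕ} {s : α → β} {G : β → β}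
    (hn : Poly n) (hs : Poly s) (hG : Poly G) (q : Polynomial ℕ)
    (hq : ∀ a, ∀ i ≤ n a, sz (G^[i] (s a)) ≤ q.eval (sz a)) : Poly (fun a => G^[n a] (s a)) := by
  have hb : Poly (bits : β → List Bool) := poly_bits
  have key : ∀ acc : ℕ → β → Bool, Poly (fun p : ℕ × β => acc p.1 p.2) →
      Poly (fun p : α × ℕ => acc p.2 (G^[n p.1] (s p.1))) := by
    intro acc hacc
    obtain ⟨V, hV, h⟩ := H _ (inPSPACE_test hn hs hG hacc q hq)
    have h1 : Poly (fun p : α × ℕ => decide (V (bits p) = [true])) :=
      Poly.decide_eq ((poly_iff.2 hV).comp poly_bits) (NPC.Poly.const _)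
    refine h1.congr fun p => ?_
    rw [Bool.eq_iff_iff, decide_eq_true_iff, ← h (bits p), bits_mem_lang]
  have h1 := key (fun j b => (bits b).getD j false)
    (Poly.getD (hb.comp (Poly.snd Poly.id)) (Poly.fst Poly.id) (NPC.Poly.const false))
  have h2 := key (fun j b => decide (j < (bits b).length))
    (Poly.decide_lt (Poly.fst Poly.id) (Poly.length (hb.comp (Poly.snd Poly.id))))
  apply poly_of_bits
  have hU : UPoly (fun a : α => q.eval (sz a)) := by
    have : UPoly (fun a : α => (bits a).length) := UPoly.length poly_bits
    exact UPoly.eval this q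
  have h3 : Poly (fun a => (List.range (q.eval (sz a))).filter
      (fun j => decide (j < (bits (G^[n a] (s a))).length))) :=
    Poly.filter (p := fun a j => decide (j < (bits (G^[n a] (s a))).length)) hU.range h2
  have h4 := NPC.Poly.map (F := fun a j => (bits (G^[n a] (s a))).getD j false) h3 h1
  refine h4.congr fun a => ?_
  have h5 : (bits (G^[n a] (s a))).length ≤ q.eval (sz a) := hq a _ le_rfl
  generalize bits (G^[n a] (s a)) = l at h5 ⊢
  generalize q.eval (sz a) = N at h5 ⊢
  have h6 : (List.range N).filter (fun j => decide (j < l.length)) = List.range l.length := by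
    obtain ⟨k, rfl⟩ : ∃ k, N = l.length + k := ⟨N - l.length, by omega⟩
    rw [List.range_add, List.filter_append]
    have e1 : (List.range l.length).filter (fun j => decide (j < l.length)) =
        List.range l.length := by
      rw [List.filter_eq_self]
      intro j hj
      simpa using hj
    have e2 : ((List.range k).map (fun x => l.length + x)).filter
        (fun j => decide (j < l.length)) = [] := by
      rw [List.filter_eq_nil_iff]
      intro j hj
      rw [List.mem_map] at hj
      obtain ⟨i, _, rfl⟩ := hj
      simp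
    rw [e1, e2, List.append_nil]
  rw [h6]
  apply List.ext_getElem
  · simp
  · intro i h1 h2
    simp [List.getD_eq_getElem?_getD, h2]

end Pool.Agent.V7H56.PP
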