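import Pool.Agent.H550R2.Iso.Machine
import Pool.Agent.H550R2.Iso.Iter

/-!
# Reversible computation in a fixed number of steps

A language in `PSPACE` is decided by iterating, a prescribed (exponentially large) number of times,
a polynomial-time permutation of an interval of natural numbers.
-/

namespace Pool.Agent.V7H56.PP

open Pool.Agent.NPC Pool.Agent.NPC.PIso

/-- a language decided by iterating a permutation `R` times -/
structure Rev (L : Set (List Bool)) where
  /-- number of states -/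
  B : List Bool → ℕ
  /-- number of steps -/
  R : List Bool → ℕ
  /-- one step -/
  Θ : List Bool → ℕ → ℕ
  /-- one step back -/
  Θi : List Bool → ℕ → ℕ
  /-- final test -/
  b : List Bool → ℕ → Bool
  /-- start -/
  v₀ : List Bool → ℕ
  poly_B : Poly B
  poly_R : Poly R
  poly_Θ : Poly (fun p : List Bool × ℕ => Θ p.1 p.2)
  poly_Θi : Poly (fun p : List Bool × ℕ => Θi p.1 p.2)
  poly_b : Poly (fun p : List Bool × ℕ => b p.1 p.2)
  poly_v₀ : Poly v₀
  B_len : ∀ x y, x.length = y.length → B x = B y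
  R_len : ∀ x y, x.length = y.length → R x = R y
  Θ_lt : ∀ x v, v < B x → Θ x v < B x
  Θi_lt : ∀ x v, v < B x → Θi x v < B x
  Θi_Θ : ∀ x v, v < B x → Θi x (Θ x v) = v
  Θ_Θi : ∀ x v, v < B x → Θ x (Θi x v) = v
  v₀_lt : ∀ x, v₀ x < B x
  spec : ∀ x, b x ((Θ x)^[R x] (v₀ x)) = true ↔ x ∈ L

namespace OfSys

variable {L : Set (List Bool)} (D : Sys L)

/-- number of darts -/
def Q (x : List Bool) : ℕ := D.M x * (D.M x + 1)

theorem M_pos (x : List Bool) : 0 < D.M x := Nat.two_pow_pos _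

theorem Q_pos (x : List Bool) : 0 < Q D x := Nat.mul_pos (M_pos D x) (Nat.succ_pos _)

/-- the dart of a number -/
def dart (x : List Bool) (v : ℕ) : ℕ × ℕ :=
  ((v % Q D x) / (D.M x + 1), (v % Q D x) % (D.M x + 1))

/-- the counter of a number -/
def cnt (x : List Bool) (v : ℕ) : ℕ := v / Q D x

/-- the number of a dart and a counter -/
def mk (x : List Bool) (a : ℕ × ℕ) (s : ℕ) : ℕ := s * Q D x + (a.1 * (D.M x + 1) + a.2)

/-- the amount added to the counter -/
def hit (x : List Bool) (a : ℕ × ℕ) : ℕ :=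
  if (a.2 = D.M x ∧ D.F x a.1 = true) ∧ D.A a.1 = true then 1 else 0

/-- the tour -/
abbrev To (x : List Bool) : ℕ × ℕ → ℕ × ℕ := Euler.T (D.M x) D.δ (D.F x)

/-- the tour back -/
abbrev Toi (x : List Bool) : ℕ × ℕ → ℕ × ℕ := Euler.Ti (D.M x) D.δ (D.F x)

/-- one step -/
def Th (x : List Bool) (v : ℕ) : ℕ :=
  mk D x (To D x (dart D x v)) ((cnt D x v + hit D x (dart D x v)) % (Q D x + 1))

/-- one step back -/
def Thi (x : List Bool) (v : ℕ) : ℕ :=
  mk D x (Toi D x (dart D x v))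
    ((cnt D x v + (Q D x + 1 - hit D x (Toi D x (dart D x v)))) % (Q D x + 1))

theorem hit_le (x : List Bool) (a : ℕ × ℕ) : hit D x a ≤ 1 := by
  unfold hit; split_ifs <;> omega

theorem dn_lt {x : List Bool} {a : ℕ × ℕ} (ha : Euler.Valid (D.M x) a) :
    a.1 * (D.M x + 1) + a.2 < Q D x := by
  obtain ⟨h1, h2⟩ := ha
  unfold Q
  nlinarith

theorem valid_dart (x : List Bool) (v : ℕ) : Euler.Valid (D.M x) (dart D x v) := by
  have hQ := Nat.mod_lt v (Q_pos D x)
  refine ⟨?_, Nat.lt_succ_iff.1 (Nat.mod_lt _ (Nat.succ_pos _))⟩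
  unfold dart
  simp only
  rw [Nat.div_lt_iff_lt_mul (Nat.succ_pos _)]
  exact hQ

theorem cnt_lt {x : List Bool} {v : ℕ} (hv : v < (Q D x + 1) * Q D x) : cnt D x v < Q D x + 1 := by
  unfold cnt
  rwa [Nat.div_lt_iff_lt_mul (Q_pos D x)]

theorem dart_mk {x : List Bool} {a : ℕ × ℕ} (ha : Euler.Valid (D.M x) a) (s : ℕ) :
    dart D x (mk D x a s) = a := by
  have h1 := dn_lt D ha
  have h2 : a.2 < D.M x + 1 := Nat.lt_succ_of_le ha.2
  have h3 : mk D x a s % Q D x = a.1 * (D.M x + 1) + a.2 := by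
    unfold mk
    rw [mul_comm s, Nat.mul_add_mod, Nat.mod_eq_of_lt h1]
  unfold dart
  rw [h3]
  apply Prod.ext
  · simp only
    rw [mul_comm, Nat.mul_add_div (Nat.succ_pos _), Nat.div_eq_of_lt h2, add_zero]
  · simp only
    rw [mul_comm, Nat.mul_add_mod, Nat.mod_eq_of_lt h2]

theorem cnt_mk {x : List Bool} {a : ℕ × ℕ} (ha : Euler.Valid (D.M x) a) (s : ℕ) :
    cnt D x (mk D x a s) = s := by
  have h1 := dn_lt D ha
  unfold cnt mk
  rw [mul_comm s, Nat.mul_add_div (Q_pos D x), Nat.div_eq_of_lt h1, add_zero]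

theorem mk_eta {x : List Bool} (v : ℕ) : mk D x (dart D x v) (cnt D x v) = v := by
  unfold mk dart cnt
  simp only
  rw [mul_comm (v % Q D x / (D.M x + 1)), Nat.div_add_mod, mul_comm, Nat.div_add_mod]

theorem mk_lt {x : List Bool} {a : ℕ × ℕ} (ha : Euler.Valid (D.M x) a) {s : ℕ}
    (hs : s < Q D x + 1) : mk D x a s < (Q D x + 1) * Q D x := by
  have h1 := dn_lt D ha
  unfold mk
  nlinarith

theorem Th_mk {x : List Bool} {a : ℕ × ℕ} (ha : Euler.Valid (D.M x) a) (s : ℕ) :
    Th D x (mk D x a s) = mk D x (To D x a) ((s + hit D x a) % (Q D x + 1)) := by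
  unfold Th
  rw [dart_mk D ha, cnt_mk D ha]

theorem Th_lt (x : List Bool) (v : ℕ) : Th D x v < (Q D x + 1) * Q D x :=
  mk_lt D (Euler.valid_T (D.hδ x) (valid_dart D x v)) (Nat.mod_lt _ (Nat.succ_pos _))

theorem Thi_lt (x : List Bool) (v : ℕ) : Thi D x v < (Q D x + 1) * Q D x :=
  mk_lt D (Euler.valid_Ti (D.hδ x) (valid_dart D x v)) (Nat.mod_lt _ (Nat.succ_pos _))

theorem Thi_Th {x : List Bool} {v : ℕ} (hv : v < (Q D x + 1) * Q D x) :
    Thi D x (Th D x v) = v := by
  have hd := valid_dart D x v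
  have hT := Euler.valid_T (D.hδ x) hd
  have he : Toi D x (To D x (dart D x v)) = dart D x v := Euler.Ti_T (D.hδ x) hd
  unfold Thi
  rw [Th, dart_mk D hT, cnt_mk D hT, he]
  have h1 : ((cnt D x v + hit D x (dart D x v)) % (Q D x + 1) +
      (Q D x + 1 - hit D x (dart D x v))) % (Q D x + 1) = cnt D x v := by
    have h2 := hit_le D x (dart D x v)
    rw [Nat.mod_add_mod, add_assoc, Nat.add_sub_cancel' (by omega), Nat.add_mod_right,
      Nat.mod_eq_of_lt (cnt_lt D hv)]
  rw [h1, mk_eta]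

theorem Th_Thi {x : List Bool} {v : ℕ} (hv : v < (Q D x + 1) * Q D x) :
    Th D x (Thi D x v) = v := by
  have hd := valid_dart D x v
  have hT := Euler.valid_Ti (D.hδ x) hd
  have he : To D x (Toi D x (dart D x v)) = dart D x v := Euler.T_Ti (D.hδ x) hd
  rw [Thi, Th_mk D hT, he]
  have h1 : ((cnt D x v + (Q D x + 1 - hit D x (Toi D x (dart D x v)))) % (Q D x + 1) +
      hit D x (Toi D x (dart D x v))) % (Q D x + 1) = cnt D x v := by
    have h2 := hit_le D x (Toi D x (dart D x v))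
    rw [Nat.mod_add_mod, add_assoc, Nat.sub_add_cancel (by omega), Nat.add_mod_right,
      Nat.mod_eq_of_lt (cnt_lt D hv)]
  rw [h1, mk_eta]

/-- number of hits -/
def hits (x : List Bool) (a : ℕ × ℕ) (n : ℕ) : ℕ :=
  ∑ i ∈ Finset.range n, hit D x ((To D x)^[i] a)

theorem hits_le (x : List Bool) (a : ℕ × ℕ) (n : ℕ) : hits D x a n ≤ n := by
  unfold hits
  refine (Finset.sum_le_sum fun i _ => hit_le D x _).trans ?_
  simp

theorem valid_iter {x : List Bool} {a : ℕ × ℕ} (ha : Euler.Valid (D.M x) a) (n : ℕ) :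
    Euler.Valid (D.M x) ((To D x)^[n] a) := by
  induction n with
  | zero => exact ha
  | succ n ih => rw [Function.iterate_succ_apply']; exact Euler.valid_T (D.hδ x) ih

theorem Th_iter {x : List Bool} {a : ℕ × ℕ} (ha : Euler.Valid (D.M x) a) (n : ℕ)
    (hn : n ≤ Q D x) :
    (Th D x)^[n] (mk D x a 0) = mk D x ((To D x)^[n] a) (hits D x a n) := by
  induction n with
  | zero => simp [hits]
  | succ n ih =>
    rw [Function.iterate_succ_apply', ih (by omega), Th_mk D (valid_iter D ha n)]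
    have h1 : hits D x a (n + 1) = hits D x a n + hit D x ((To D x)^[n] a) := by
      unfold hits
      rw [Finset.sum_range_succ]
    have h2 := hits_le D x a (n + 1)
    rw [← h1, Nat.mod_eq_of_lt (by omega), Function.iterate_succ_apply']

theorem first_lt {x : List Bool} {n z : ℕ} (h : Euler.At (D.M x) D.δ (D.F x) z n (D.c₀ x)) :
    ∃ m < Q D x, (To D x)^[m] (D.c₀ x, D.M x) = (z, D.M x) := by
  classical
  obtain ⟨m, h1, h2⟩ := Euler.first_final (D.hδ x) h
  refine ⟨m, ?_, h1⟩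
  have hz : D.F x z = true := h.2.2.1
  have hinj : Function.Injective (fun i : Fin (m + 1) =>
      ((⟨((To D x)^[i] (D.c₀ x, D.M x)).1, (valid_iter D (D.valid_c₀ x) i).1⟩,
        ⟨((To D x)^[i] (D.c₀ x, D.M x)).2, Nat.lt_succ_of_le (valid_iter D (D.valid_c₀ x) i).2⟩) :
        Fin (D.M x) × Fin (D.M x + 1))) := by
    have key : ∀ i j : ℕ, i < j → j ≤ m →
        (To D x)^[i] (D.c₀ x, D.M x) = (To D x)^[j] (D.c₀ x, D.M x) → False := by
      intro i j hij hj he
      have h3 : ∀ i : ℕ, ∀ a b : ℕ × ℕ, Euler.Valid (D.M x) a → Euler.Valid (D.M x) b →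
          (To D x)^[i] a = (To D x)^[i] b → a = b := by
        intro i
        induction i with
        | zero => intro a b _ _ h; exact h
        | succ i ih =>
          intro a b ha hb h
          rw [Function.iterate_succ_apply', Function.iterate_succ_apply'] at h
          apply ih a b ha hb
          have e1 := Euler.Ti_T (D.hδ x) (valid_iter D ha i)
          have e2 := Euler.Ti_T (D.hδ x) (valid_iter D hb i)
          rw [← e1, ← e2]
          exact congrArg _ h
      have h4 : (D.c₀ x, D.M x) = (To D x)^[j - i] (D.c₀ x, D.M x) := by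
        apply h3 i _ _ (D.valid_c₀ x) (valid_iter D (D.valid_c₀ x) _)
        rw [← Function.iterate_add_apply, Nat.add_sub_cancel' hij.le]
        exact he
      have h5 : (To D x)^[m] (D.c₀ x, D.M x) = (To D x)^[m - (j - i)] (D.c₀ x, D.M x) := by
        conv_rhs => rw [h4]
        rw [← Function.iterate_add_apply, Nat.sub_add_cancel (by omega)]
      apply h2 (m - (j - i)) (by omega)
      rw [← h5, h1]
      exact ⟨rfl, hz⟩
    intro i j hij
    simp only [Prod.mk.injEq, Fin.mk.injEq] at hij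
    have he : (To D x)^[i] (D.c₀ x, D.M x) = (To D x)^[j] (D.c₀ x, D.M x) :=
      Prod.ext hij.1 hij.2
    rcases lt_trichotomy i j with hlt | heq | hgt
    · exact (key i j hlt (by omega) he).elim
    · exact heq
    · exact (key j i hgt (by omega) he.symm).elim
  have hc := Fintype.card_le_of_injective _ hinj
  simp only [Fintype.card_fin, Fintype.card_prod] at hc
  unfold Q
  omega

theorem spec (x : List Bool) :
    decide (cnt D x ((Th D x)^[Q D x] (mk D x (D.c₀ x, D.M x) 0)) ≠ 0) = true ↔ x ∈ L := by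
  obtain ⟨n, z, hAt, hz⟩ := D.at_c₀ x
  rw [decide_eq_true_iff, Th_iter D (D.valid_c₀ x) _ le_rfl,
    cnt_mk D (valid_iter D (D.valid_c₀ x) _), hz]
  unfold hits
  constructor
  · intro h
    obtain ⟨i, hi, h1⟩ := Finset.exists_ne_zero_of_sum_ne_zero h
    have h2 : (((To D x)^[i] (D.c₀ x, D.M x)).2 = D.M x ∧
        D.F x ((To D x)^[i] (D.c₀ x, D.M x)).1 = true) ∧
        D.A ((To D x)^[i] (D.c₀ x, D.M x)).1 = true := by
      by_contra hcon
      exact h1 (if_neg hcon)
    obtain ⟨_, n', h3⟩ := Euler.inv_iter (D.hδ x) z (a := (D.c₀ x, D.M x)) (D.valid_c₀ x)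
      ⟨n, hAt⟩ i
    rw [← h3.final h2.1.2]
    exact h2.2
  · intro hA h
    obtain ⟨m, hm, h1⟩ := first_lt D hAt
    rw [Finset.sum_eq_zero_iff] at h
    have h2 := h m (Finset.mem_range.2 hm)
    rw [h1] at h2
    unfold hit at h2
    rw [if_pos ⟨⟨rfl, hAt.2.2.1⟩, hA⟩] at h2
    omega

section poly

variable {α : Type} [TEnc α]

theorem poly_Q {x : α → List Bool} (hx : Poly x) : Poly (fun a => Q D (x a)) :=
  Poly.mul (D.poly_M hx) (Poly.add (D.poly_M hx) (NPC.Poly.const 1))

theorem poly_dart {x : α → List Bool} {v : α → ℕ} (hx : Poly x) (hv : Poly v) :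
    Poly (fun a => dart D (x a) (v a)) := by
  have h1 := Poly.mod hv (poly_Q D hx)
  have h2 := Poly.add (D.poly_M hx) (NPC.Poly.const 1)
  exact Poly.pair (Poly.div h1 h2) (Poly.mod h1 h2)

theorem poly_cnt {x : α → List Bool} {v : α → ℕ} (hx : Poly x) (hv : Poly v) :
    Poly (fun a => cnt D (x a) (v a)) := Poly.div hv (poly_Q D hx)

theorem poly_mk {x : α → List Bool} {a : α → ℕ × ℕ} {s : α → ℕ} (hx : Poly x) (ha : Poly a)
    (hs : Poly s) : Poly (fun t => mk D (x t) (a t) (s t)) :=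
  Poly.add (Poly.mul hs (poly_Q D hx)) (Poly.add (Poly.mul (Poly.fst ha)
    (Poly.add (D.poly_M hx) (NPC.Poly.const 1))) (Poly.snd ha))

theorem poly_hit {x : α → List Bool} {a : α → ℕ × ℕ} (hx : Poly x) (ha : Poly a) :
    Poly (fun t => hit D (x t) (a t)) := by
  unfold hit
  exact Poly.ite (Poly.decide_and (Poly.decide_and (Poly.decide_eq (Poly.snd ha) (D.poly_M hx))
    (Poly.decide_bool (D.poly_F hx (Poly.fst ha)))) (Poly.decide_bool (D.poly_A.comp (Poly.fst ha))))
    (NPC.Poly.const 1) (NPC.Poly.const 0)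

theorem poly_To {x : α → List Bool} {a : α → ℕ × ℕ} (hx : Poly x) (ha : Poly a) :
    Poly (fun t => To D (x t) (a t)) := by
  have h := D.poly_eps hx ha
  exact Poly.pair (Poly.fst h) (Poly.mod (Poly.add (Poly.snd h) (NPC.Poly.const 1))
    (Poly.add (D.poly_M hx) (NPC.Poly.const 1)))

theorem poly_Toi {x : α → List Bool} {a : α → ℕ × ℕ} (hx : Poly x) (ha : Poly a) :
    Poly (fun t => Toi D (x t) (a t)) := by
  refine D.poly_eps (a := fun t => Euler.rhoi (D.M (x t)) (a t)) hx ?_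
  exact Poly.pair (Poly.fst ha) (Poly.mod (Poly.add (Poly.snd ha)
    (D.poly_M hx)) (Poly.add (D.poly_M hx) (NPC.Poly.const 1)))

theorem poly_Th : Poly (fun p : List Bool × ℕ => Th D p.1 p.2) := by
  have hx : Poly (fun p : List Bool × ℕ => p.1) := Poly.fst Poly.id
  have hv : Poly (fun p : List Bool × ℕ => p.2) := Poly.snd Poly.id
  have hd := poly_dart D hx hv
  exact poly_mk D hx (poly_To D hx hd) (Poly.mod (Poly.add (poly_cnt D hx hv) (poly_hit D hx hd))
    (Poly.add (poly_Q D hx) (NPC.Poly.const 1)))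

theorem poly_Thi : Poly (fun p : List Bool × ℕ => Thi D p.1 p.2) := by
  have hx : Poly (fun p : List Bool × ℕ => p.1) := Poly.fst Poly.id
  have hv : Poly (fun p : List Bool × ℕ => p.2) := Poly.snd Poly.id
  have hd := poly_Toi D hx (poly_dart D hx hv)
  exact poly_mk D hx hd (Poly.mod (Poly.add (poly_cnt D hx hv)
    (Poly.sub (Poly.add (poly_Q D hx) (NPC.Poly.const 1)) (poly_hit D hx hd)))
    (Poly.add (poly_Q D hx) (NPC.Poly.const 1)))

end poly

theorem M_len {x y : List Bool} (h : x.length = y.length) : D.M x = D.M y := by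
  unfold Sys.M; rw [h]

theorem Q_len {x y : List Bool} (h : x.length = y.length) : Q D x = Q D y := by
  unfold Q; rw [M_len D h]

/-- the reversible system of a system -/
def rev : Rev L where
  B x := (Q D x + 1) * Q D x
  R x := Q D x
  Θ := Th D
  Θi := Thi D
  b x v := decide (cnt D x v ≠ 0)
  v₀ x := mk D x (D.c₀ x, D.M x) 0
  poly_B := Poly.mul (Poly.add (poly_Q D Poly.id) (NPC.Poly.const 1)) (poly_Q D Poly.id)
  poly_R := poly_Q D Poly.id
  poly_Θ := poly_Th D
  poly_Θi := poly_Thi D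
  poly_b := Poly.decide_not (Poly.decide_eq (poly_cnt D (Poly.fst Poly.id) (Poly.snd Poly.id))
    (NPC.Poly.const 0))
  poly_v₀ := poly_mk D Poly.id (Poly.pair D.poly_c₀ (D.poly_M Poly.id)) (NPC.Poly.const 0)
  B_len x y h := by rw [Q_len D h]
  R_len x y h := Q_len D h
  Θ_lt x v _ := Th_lt D x v
  Θi_lt x v _ := Thi_lt D x v
  Θi_Θ x v hv := Thi_Th D hv
  Θ_Θi x v hv := Th_Thi D hv
  v₀_lt x := mk_lt D (D.valid_c₀ x) (Nat.succ_pos _)
  spec := spec D

end OfSys

theorem exists_rev {L : Set (List Bool)} (h : InPSPACE L) : Nonempty (Rev L) :=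
  let ⟨D⟩ := exists_sys h
  ⟨OfSys.rev D⟩

end Pool.Agent.V7H56.PP
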