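import Pool.Agent.V7H56.PP.Rev

/-!
# Towers over a reversible computation

A permutation of triples `(t, u, v)`: the clock `t` first runs the reversible computation on `v`,
then `u` is changed according to the answer, the computation is undone, and after a waiting time
the clock starts again.
-/

namespace Pool.Agent.V7H56.PP

open Pool.Agent.NPC Pool.Agent.NPC.PIso

/-- the parameters of a tower -/
structure Tower {L : Set (List Bool)} (D : Rev L) where
  /-- the range of `u` -/
  m : ℕ
  /-- the permutation applied to `u`, depending on the answer -/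
  P : Bool → ℕ → ℕ
  /-- its inverse -/
  Pi : Bool → ℕ → ℕ
  /-- whether an extra step is made for the answer yes -/
  e : Bool
  /-- the waiting time -/
  Dl : List Bool → ℕ → ℕ
  m_pos : 0 < m
  P_lt : ∀ c u, u < m → P c u < m
  Pi_lt : ∀ c u, u < m → Pi c u < m
  Pi_P : ∀ c u, u < m → Pi c (P c u) = u
  P_Pi : ∀ c u, u < m → P c (Pi c u) = u
  poly_P : Poly (fun p : Bool × ℕ => P p.1 p.2)
  poly_Pi : Poly (fun p : Bool × ℕ => Pi p.1 p.2)
  poly_Dl : Poly (fun p : List Bool × ℕ => Dl p.1 p.2)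

namespace Tower

variable {L : Set (List Bool)} {D : Rev L} (T : Tower D)

/-- valid states -/
def V (x : List Bool) (z : ℕ × ℕ × ℕ) : Prop :=
  z.1 ≤ 2 * D.R x + 2 + T.Dl x z.2.2 ∧ z.2.1 < T.m ∧ z.2.2 < D.B x ∧
    (z.1 = D.R x + 1 → T.e = true ∧ D.b x z.2.2 = true)

instance (x : List Bool) (z : ℕ × ℕ × ℕ) : Decidable (T.V x z) := by unfold V; infer_instance

/-- one step -/
def G (x : List Bool) (z : ℕ × ℕ × ℕ) : ℕ × ℕ × ℕ :=
  if z.1 < D.R x then (z.1 + 1, z.2.1, D.Θ x z.2.2)
  else if z.1 = D.R x then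
    (if T.e = true ∧ D.b x z.2.2 = true then (D.R x + 1, z.2.1, z.2.2)
      else (D.R x + 2, T.P (D.b x z.2.2) z.2.1, z.2.2))
  else if z.1 = D.R x + 1 then (D.R x + 2, T.P (D.b x z.2.2) z.2.1, z.2.2)
  else if z.1 < 2 * D.R x + 2 then (z.1 + 1, z.2.1, D.Θi x z.2.2)
  else if z.1 < 2 * D.R x + 2 + T.Dl x z.2.2 then (z.1 + 1, z.2.1, z.2.2)
  else (0, z.2.1, z.2.2)

/-- one step back -/
def Gi (x : List Bool) (z : ℕ × ℕ × ℕ) : ℕ × ℕ × ℕ :=
  if z.1 = 0 then (2 * D.R x + 2 + T.Dl x z.2.2, z.2.1, z.2.2)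
  else if z.1 ≤ D.R x then (z.1 - 1, z.2.1, D.Θi x z.2.2)
  else if z.1 = D.R x + 1 then (D.R x, z.2.1, z.2.2)
  else if z.1 = D.R x + 2 then
    (if T.e = true ∧ D.b x z.2.2 = true then (D.R x + 1, T.Pi (D.b x z.2.2) z.2.1, z.2.2)
      else (D.R x, T.Pi (D.b x z.2.2) z.2.1, z.2.2))
  else if z.1 ≤ 2 * D.R x + 2 then (z.1 - 1, z.2.1, D.Θ x z.2.2)
  else (z.1 - 1, z.2.1, z.2.2)

theorem V_G {x : List Bool} {z : ℕ × ℕ × ℕ} (h : T.V x z) : T.V x (T.G x z) := by
  obtain ⟨t, u, v⟩ := z
  obtain ⟨h1, h2, h3, h4⟩ := h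
  simp only at h1 h2 h3 h4
  unfold G
  simp only
  split_ifs with c1 c2 c3 c4 c5 c6
  · exact ⟨by simp only; omega, h2, D.Θ_lt x v h3, fun hh => by simp only at hh; omega⟩
  · exact ⟨by simp only; omega, h2, h3, fun _ => c3⟩
  · exact ⟨by simp only; omega, T.P_lt _ _ h2, h3, fun hh => by simp only at hh; omega⟩
  · exact ⟨by simp only; omega, T.P_lt _ _ h2, h3, fun hh => by simp only at hh; omega⟩
  · exact ⟨by simp only; omega, h2, D.Θi_lt x v h3, fun hh => by simp only at hh; omega⟩
  · exact ⟨by simp only; omega, h2, h3, fun hh => by simp only at hh; omega⟩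
  · exact ⟨by simp only; omega, h2, h3, fun hh => by simp only at hh; omega⟩

theorem V_Gi {x : List Bool} {z : ℕ × ℕ × ℕ} (h : T.V x z) : T.V x (T.Gi x z) := by
  obtain ⟨t, u, v⟩ := z
  obtain ⟨h1, h2, h3, h4⟩ := h
  simp only at h1 h2 h3 h4
  unfold Gi
  simp only
  split_ifs with c1 c2 c3 c4 c5 c6
  · exact ⟨by simp only; omega, h2, h3, fun hh => by simp only at hh; omega⟩
  · exact ⟨by simp only; omega, h2, D.Θi_lt x v h3, fun hh => by simp only at hh; omega⟩
  · exact ⟨by simp only; omega, h2, h3, fun hh => by simp only at hh; omega⟩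
  · exact ⟨by simp only; omega, T.Pi_lt _ _ h2, h3, fun _ => c5⟩
  · exact ⟨by simp only; omega, T.Pi_lt _ _ h2, h3, fun hh => by simp only at hh; omega⟩
  · exact ⟨by simp only; omega, h2, D.Θ_lt x v h3, fun hh => by simp only at hh; omega⟩
  · exact ⟨by simp only; omega, h2, h3, fun hh => by simp only at hh; omega⟩

theorem Gi_G {x : List Bool} {z : ℕ × ℕ × ℕ} (h : T.V x z) : T.Gi x (T.G x z) = z := by
  obtain ⟨t, u, v⟩ := z
  obtain ⟨h1, h2, h3, h4⟩ := h
  simp only at h1 h2 h3 h4
  unfold G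
  simp only
  split_ifs with c1 c2 c3 c4 c5 c6
  · unfold Gi
    simp only
    rw [if_neg (by omega), if_pos (by omega), D.Θi_Θ x v h3]
    simp
  · unfold Gi
    simp only
    rw [if_neg (by omega), if_neg (by omega), if_pos trivial, c2]
  · unfold Gi
    simp only
    rw [if_neg (by omega), if_neg (by omega), if_neg (by omega), if_pos trivial, if_neg c3,
      T.Pi_P _ _ h2, c2]
  · unfold Gi
    simp only
    rw [if_neg (by omega), if_neg (by omega), if_neg (by omega), if_pos trivial, if_pos (h4 c4),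
      T.Pi_P _ _ h2, c4]
  · unfold Gi
    simp only
    rw [if_neg (by omega), if_neg (by omega), if_neg (by omega), if_neg (by omega),
      if_pos (by omega), D.Θ_Θi x v h3]
    simp
  · unfold Gi
    simp only
    rw [if_neg (by omega), if_neg (by omega), if_neg (by omega), if_neg (by omega),
      if_neg (by omega)]
    simp
  · unfold Gi
    simp only
    rw [if_pos trivial]
    congr 1
    omega

theorem G_Gi {x : List Bool} {z : ℕ × ℕ × ℕ} (h : T.V x z) : T.G x (T.Gi x z) = z := by
  obtain ⟨t, u, v⟩ := z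
  obtain ⟨h1, h2, h3, h4⟩ := h
  simp only at h1 h2 h3 h4
  unfold Gi
  simp only
  split_ifs with c1 c2 c3 c4 c5 c6
  · unfold G
    simp only
    rw [if_neg (by omega), if_neg (by omega), if_neg (by omega), if_neg (by omega),
      if_neg (by omega), c1]
  · unfold G
    simp only
    rw [if_pos (by omega), D.Θ_Θi x v h3]
    congr 1
    omega
  · unfold G
    simp only
    rw [if_neg (by omega), if_pos trivial, if_pos (h4 c3), c3]
  · unfold G
    simp only
    rw [if_neg (by omega), if_neg (by omega), if_pos trivial, T.P_Pi _ _ h2, c4]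
  · unfold G
    simp only
    rw [if_neg (by omega), if_pos trivial, if_neg c5, T.P_Pi _ _ h2, c4]
  · unfold G
    simp only
    rw [if_neg (by omega), if_neg (by omega), if_neg (by omega), if_pos (by omega),
      D.Θi_Θ x v h3]
    congr 1
    omega
  · unfold G
    simp only
    rw [if_neg (by omega), if_neg (by omega), if_neg (by omega), if_neg (by omega),
      if_pos (by omega)]
    congr 1
    omega

/-! ### The path of a state -/

/-- the answer -/
def ans (_T : Tower D) (x : List Bool) (v : ℕ) : Bool := D.b x ((D.Θ x)^[D.R x] v)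

/-- the number of extra steps -/
def ext (x : List Bool) (v : ℕ) : ℕ := if T.e = true ∧ T.ans x v = true then 1 else 0

/-- the length of a lap -/
def lap (x : List Bool) (v : ℕ) : ℕ := 2 * D.R x + 2 + T.Dl x v + T.ext x v

theorem iter_lt (x : List Bool) {v : ℕ} (hv : v < D.B x) (i : ℕ) : (D.Θ x)^[i] v < D.B x := by
  induction i with
  | zero => exact hv
  | succ i ih => rw [Function.iterate_succ_apply']; exact D.Θ_lt x _ ih

theorem V_zero {x : List Bool} {u v : ℕ} (hu : u < T.m) (hv : v < D.B x) : T.V x (0, u, v) :=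
  ⟨by simp only; omega, hu, hv, fun hh => by simp only at hh; omega⟩

theorem V_iter {x : List Bool} {z : ℕ × ℕ × ℕ} (h : T.V x z) (i : ℕ) :
    T.V x ((T.G x)^[i] z) := by
  induction i with
  | zero => exact h
  | succ i ih => rw [Function.iterate_succ_apply']; exact T.V_G ih

theorem G_fwd (x : List Bool) (u v : ℕ) : ∀ i ≤ D.R x,
    (T.G x)^[i] (0, u, v) = (i, u, (D.Θ x)^[i] v) := by
  intro i
  induction i with
  | zero => intro _; rfl
  | succ i ih =>
    intro hi
    rw [Function.iterate_succ_apply', ih (by omega), Function.iterate_succ_apply']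
    unfold G
    simp only
    rw [if_pos (by omega)]

theorem ext_le (x : List Bool) (v : ℕ) : T.ext x v ≤ 1 := by
  unfold ext; split_ifs <;> omega

theorem G_ext (x : List Bool) (u v : ℕ) (h : T.ext x v = 1) :
    (T.G x)^[D.R x + 1] (0, u, v) = (D.R x + 1, u, (D.Θ x)^[D.R x] v) := by
  have h' : T.e = true ∧ T.ans x v = true := by
    by_contra hcon
    unfold ext at h
    rw [if_neg hcon] at h
    omega
  rw [Function.iterate_succ_apply', T.G_fwd x u v _ le_rfl]
  unfold G
  simp only
  rw [if_neg (by omega), if_pos trivial]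
  exact if_pos h'

theorem G_mid (x : List Bool) (u v : ℕ) :
    (T.G x)^[D.R x + T.ext x v + 1] (0, u, v) =
      (D.R x + 2, T.P (T.ans x v) u, (D.Θ x)^[D.R x] v) := by
  rcases Nat.lt_or_ge 0 (T.ext x v) with h | h
  · have h1 : T.ext x v = 1 := by have := T.ext_le x v; omega
    rw [h1, Function.iterate_succ_apply', T.G_ext x u v h1]
    unfold G
    simp only
    rw [if_neg (by omega), if_neg (by omega), if_pos trivial]
    rfl
  · have h1 : T.ext x v = 0 := by omega
    have h' : ¬ (T.e = true ∧ T.ans x v = true) := by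
      intro hcon
      unfold ext at h1
      rw [if_pos hcon] at h1
      omega
    rw [h1, add_zero, Function.iterate_succ_apply', T.G_fwd x u v _ le_rfl]
    unfold G
    simp only
    rw [if_neg (by omega), if_pos trivial]
    exact if_neg h'

theorem Θi_iter (x : List Bool) {v : ℕ} (hv : v < D.B x) (R : ℕ) : ∀ j ≤ R,
    (D.Θi x)^[j] ((D.Θ x)^[R] v) = (D.Θ x)^[R - j] v := by
  intro j
  induction j with
  | zero => intro _; rfl
  | succ j ih =>
    intro hj
    rw [Function.iterate_succ_apply', ih (by omega)]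
    have h1 : R - j = (R - (j + 1)) + 1 := by omega
    rw [h1, Function.iterate_succ_apply', D.Θi_Θ x _ (iter_lt x hv _)]

theorem G_back (x : List Bool) (u w : ℕ) : ∀ j ≤ D.R x,
    (T.G x)^[j] (D.R x + 2, u, w) = (D.R x + 2 + j, u, (D.Θi x)^[j] w) := by
  intro j
  induction j with
  | zero => intro _; rfl
  | succ j ih =>
    intro hj
    rw [Function.iterate_succ_apply', ih (by omega), Function.iterate_succ_apply']
    unfold G
    simp only
    rw [if_neg (by omega), if_neg (by omega), if_neg (by omega), if_pos (by omega)]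
    congr 1

theorem G_wait (x : List Bool) (u v : ℕ) : ∀ j ≤ T.Dl x v,
    (T.G x)^[j] (2 * D.R x + 2, u, v) = (2 * D.R x + 2 + j, u, v) := by
  intro j
  induction j with
  | zero => intro _; rfl
  | succ j ih =>
    intro hj
    rw [Function.iterate_succ_apply', ih (by omega)]
    unfold G
    simp only
    rw [if_neg (by omega), if_neg (by omega), if_neg (by omega), if_neg (by omega),
      if_pos (by omega)]
    congr 1

/-- the state after `i` steps, for `i` in the second half of a lap -/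
theorem G_second (x : List Bool) (u : ℕ) {v : ℕ} (hv : v < D.B x) (i : ℕ)
    (h1 : D.R x + T.ext x v < i) (h2 : i < T.lap x v) :
    ∃ w, (T.G x)^[i] (0, u, v) = (i + 1 - T.ext x v, T.P (T.ans x v) u, w) := by
  have he := T.ext_le x v
  obtain ⟨j, rfl⟩ : ∃ j, i = j + (D.R x + T.ext x v + 1) := ⟨i - (D.R x + T.ext x v + 1), by omega⟩
  rw [Function.iterate_add_apply, T.G_mid]
  unfold lap at h2
  rcases Nat.lt_or_ge j (D.R x) with hj | hj
  · refine ⟨(D.Θi x)^[j] ((D.Θ x)^[D.R x] v), ?_⟩
    rw [T.G_back x _ _ j hj.le]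
    congr 1
    omega
  · obtain ⟨k, rfl⟩ : ∃ k, j = k + D.R x := ⟨j - D.R x, by omega⟩
    rw [Function.iterate_add_apply, T.G_back x _ _ _ le_rfl, Θi_iter x hv _ _ le_rfl]
    simp only [Nat.sub_self, Function.iterate_zero, id_eq]
    have e1 : D.R x + 2 + D.R x = 2 * D.R x + 2 := by ring
    rw [e1, T.G_wait x _ v k (by omega)]
    refine ⟨v, ?_⟩
    congr 1
    omega

/-- the state after `i` steps, for `i` in the first half of a lap -/
theorem G_first (x : List Bool) (u v : ℕ) (i : ℕ) (h1 : i ≤ D.R x + T.ext x v) :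
    ∃ w, (T.G x)^[i] (0, u, v) = (i, u, w) := by
  rcases Nat.lt_or_ge (D.R x) i with h | h
  · have h2 := T.ext_le x v
    have h3 : T.ext x v = 1 := by omega
    have h4 : i = D.R x + 1 := by omega
    rw [h4]
    exact ⟨_, T.G_ext x u v h3⟩
  · exact ⟨_, T.G_fwd x u v i h⟩

theorem G_2R2 (x : List Bool) (u : ℕ) {v : ℕ} (hv : v < D.B x) :
    (T.G x)^[2 * D.R x + 1 + T.ext x v] (0, u, v) = (2 * D.R x + 2, T.P (T.ans x v) u, v) := by
  have e : 2 * D.R x + 1 + T.ext x v = D.R x + (D.R x + T.ext x v + 1) := by ring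
  rw [e, Function.iterate_add_apply, T.G_mid, T.G_back x _ _ _ le_rfl, Θi_iter x hv _ _ le_rfl]
  simp only [Nat.sub_self, Function.iterate_zero, id_eq]
  congr 1
  ring

theorem G_lap (x : List Bool) (u : ℕ) {v : ℕ} (hv : v < D.B x) :
    (T.G x)^[T.lap x v] (0, u, v) = (0, T.P (T.ans x v) u, v) := by
  have e : T.lap x v = 1 + (T.Dl x v + (2 * D.R x + 1 + T.ext x v)) := by unfold lap; ring
  rw [e, Function.iterate_add_apply, Function.iterate_add_apply, T.G_2R2 x u hv,
    T.G_wait x _ v _ le_rfl]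
  simp only [Function.iterate_one]
  unfold G
  simp only
  rw [if_neg (by omega), if_neg (by omega), if_neg (by omega), if_neg (by omega),
    if_neg (by omega)]

theorem P_iter_lt (c : Bool) {u : ℕ} (hu : u < T.m) (q : ℕ) : (T.P c)^[q] u < T.m := by
  induction q with
  | zero => exact hu
  | succ q ih => rw [Function.iterate_succ_apply']; exact T.P_lt c _ ih

theorem G_laps (x : List Bool) (u : ℕ) {v : ℕ} (hv : v < D.B x) (q : ℕ) :
    (T.G x)^[q * T.lap x v] (0, u, v) = (0, (T.P (T.ans x v))^[q] u, v) := by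
  induction q generalizing u with
  | zero => simp
  | succ q ih =>
    rw [Nat.succ_mul, Function.iterate_add_apply, T.G_lap x u hv, ih,
      Function.iterate_succ_apply]

theorem lap_pos (x : List Bool) (v : ℕ) : 0 < T.lap x v := by unfold lap; omega

/-- The second coordinate along the path. -/
theorem snd_iter (x : List Bool) (u : ℕ) {v : ℕ} (hv : v < D.B x) (n : ℕ) :
    ((T.G x)^[n] (0, u, v)).2.1 = (T.P (T.ans x v))^[n / T.lap x v +
      (if n % T.lap x v ≤ D.R x + T.ext x v then 0 else 1)] u := by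
  have hr := Nat.mod_lt n (T.lap_pos x v)
  conv_lhs => rw [← Nat.div_add_mod n (T.lap x v), add_comm, mul_comm]
  rw [Function.iterate_add_apply, T.G_laps x u hv]
  split_ifs with h
  · obtain ⟨w, hw⟩ := T.G_first x ((T.P (T.ans x v))^[n / T.lap x v] u) v _ h
    rw [hw, add_zero]
  · obtain ⟨w, hw⟩ := T.G_second x ((T.P (T.ans x v))^[n / T.lap x v] u) hv _ (by omega) hr
    rw [hw, Function.iterate_succ_apply']

/-- The path returns to the clock value `0` only at multiples of the lap. -/
theorem fst_iter (x : List Bool) (u : ℕ) {v : ℕ} (hv : v < D.B x) (n : ℕ)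
    (h : ((T.G x)^[n] (0, u, v)).1 = 0) : T.lap x v ∣ n := by
  have hr := Nat.mod_lt n (T.lap_pos x v)
  rw [← Nat.div_add_mod n (T.lap x v), add_comm, mul_comm, Function.iterate_add_apply,
    T.G_laps x u hv] at h
  by_cases hc : n % T.lap x v ≤ D.R x + T.ext x v
  · obtain ⟨w, hw⟩ := T.G_first x ((T.P (T.ans x v))^[n / T.lap x v] u) v _ hc
    rw [hw] at h
    exact Nat.dvd_of_mod_eq_zero h
  · obtain ⟨w, hw⟩ := T.G_second x ((T.P (T.ans x v))^[n / T.lap x v] u) hv _ (by omega) hr
    rw [hw] at h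
    have := T.ext_le x v
    simp only at h
    omega

theorem iter_eq_iff (x : List Bool) {u : ℕ} {v : ℕ} (hv : v < D.B x) (n : ℕ) :
    (T.G x)^[n] (0, u, v) = (0, u, v) ↔
      T.lap x v ∣ n ∧ (T.P (T.ans x v))^[n / T.lap x v] u = u := by
  constructor
  · intro h
    have h1 : T.lap x v ∣ n := T.fst_iter x u hv n (by rw [h])
    refine ⟨h1, ?_⟩
    obtain ⟨q, rfl⟩ := h1
    rw [Nat.mul_div_cancel_left _ (T.lap_pos x v)]
    rw [mul_comm, T.G_laps x u hv] at h
    simpa using h
  · rintro ⟨⟨q, rfl⟩, h⟩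
    rw [Nat.mul_div_cancel_left _ (T.lap_pos x v)] at h
    rw [mul_comm, T.G_laps x u hv, h]

/-- Every valid state lies on the path of a state with clock `0`. -/
theorem exists_base {x : List Bool} : ∀ (t : ℕ) (z : ℕ × ℕ × ℕ), z.1 = t → T.V x z →
    ∃ i u v, u < T.m ∧ v < D.B x ∧ (T.G x)^[i] (0, u, v) = z := by
  intro t
  induction t using Nat.strong_induction_on with
  | _ t ih =>
    intro z hz hV
    rcases Nat.eq_zero_or_pos t with h0 | h0
    · refine ⟨0, z.2.1, z.2.2, hV.2.1, hV.2.2.1, ?_⟩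
      rw [h0] at hz
      exact Prod.ext hz.symm rfl
    · have hlt : (T.Gi x z).1 < t := by
        unfold Gi
        rw [if_neg (by omega)]
        split_ifs <;> simp only <;> omega
      obtain ⟨i, u, v, hu, hv, h⟩ := ih _ hlt (T.Gi x z) rfl (T.V_Gi hV)
      refine ⟨i + 1, u, v, hu, hv, ?_⟩
      rw [Function.iterate_succ_apply', h, T.G_Gi hV]

end Tower

end Pool.Agent.V7H56.PP
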