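import Pool.Agent.V7H56.PP.Str

/-!
# Towers whose laps have different lengths
-/

namespace Pool.Agent.V7H56.PP

open Pool.Agent.NPC Pool.Agent.NPC.PIso

namespace Tower

variable {L : Set (List Bool)} {D : Rev L} (T : Tower D)

/-- The laps have pairwise different lengths, and the permutations of the second coordinate are
cycles of length `m`. -/
structure Sep : Prop where
  e : T.e = false
  inj : ∀ x x' v v', x.length = x'.length → v < D.B x → v' < D.B x → T.Dl x v = T.Dl x' v' →
    x = x' ∧ v = v'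
  cyc : ∀ c u q, u < T.m → ((T.P c)^[q] u = u ↔ T.m ∣ q)
  trans : ∀ c u, u < T.m → ∃ q, (T.P c)^[q] 0 = u

variable {T}

theorem Sep.ext (h : T.Sep) (x : List Bool) (v : ℕ) : T.ext x v = 0 := by
  unfold Tower.ext
  rw [if_neg]
  rw [h.e]
  simp

theorem Sep.lap (h : T.Sep) (x : List Bool) (v : ℕ) : T.lap x v = 2 * D.R x + 2 + T.Dl x v := by
  unfold Tower.lap
  rw [h.ext]
  rfl

theorem Sep.iter_eq_iff (h : T.Sep) {x : List Bool} {u v : ℕ} (hu : u < T.m) (hv : v < D.B x)
    (n : ℕ) : T.F^[n] (T.cod x (0, u, v)) = T.cod x (0, u, v) ↔ T.m * T.lap x v ∣ n := by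
  rw [T.F_iter_eq_iff hu hv, h.cyc _ _ _ hu]
  constructor
  · rintro ⟨⟨q, rfl⟩, h2⟩
    rw [Nat.mul_div_cancel_left _ (T.lap_pos x v)] at h2
    rw [mul_comm]
    exact Nat.mul_dvd_mul_left _ h2
  · rintro ⟨q, rfl⟩
    refine ⟨⟨T.m * q, by ring⟩, ⟨q, ?_⟩⟩
    have e : T.m * T.lap x v * q = T.lap x v * (T.m * q) := by ring
    rw [e, Nat.mul_div_cancel_left _ (T.lap_pos x v)]

/-- A string of the same length whose orbit has the same length lies on the same orbit. -/
theorem Sep.uniq (h : T.Sep) {x : List Bool} {u v : ℕ} (hu : u < T.m) (hv : v < D.B x)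
    {w : List Bool} (hw : w.length = (T.cod x (0, u, v)).length)
    (hp : ∀ n, T.F^[n] w = w ↔ T.m * T.lap x v ∣ n) : ∃ k, w = T.F^[k] (T.cod x (0, 0, v)) := by
  have hok : T.ok w = true := by
    by_contra hcon
    have h1 : T.F w = w := if_neg hcon
    have h2 := (hp 1).1 (by simpa using h1)
    have h3 := Nat.dvd_one.1 h2
    have h4 := Nat.eq_one_of_mul_eq_one_left h3
    have h5 := h.lap x v
    omega
  obtain ⟨x', z', rfl, hz'⟩ : ∃ x' z', w = T.cod x' z' ∧ T.V x' z' :=
    ⟨ix w, T.sx w, (T.ok_spec hok).1.symm, (T.ok_spec hok).2⟩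
  have hlen : x.length = x'.length := T.length_eq (T.V_zero hu hv) hz' hw.symm
  obtain ⟨i, u', v', hu', hv', rfl⟩ := T.exists_base _ z' rfl hz'
  have hV' := T.V_zero hu' hv'
  rw [← T.F_iter hV'] at hp ⊢
  have hinj : Function.Injective (T.F^[i]) := Function.Injective.iterate
    (Function.LeftInverse.injective T.Fi_F) i
  have hp' : ∀ n, T.F^[n] (T.cod x' (0, u', v')) = T.cod x' (0, u', v') ↔
      T.m * T.lap x v ∣ n := by
    intro n
    rw [← hp n]
    constructor
    · intro hh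
      rw [← Function.iterate_add_apply, add_comm, Function.iterate_add_apply, hh]
    · intro hh
      rw [← Function.iterate_add_apply, add_comm, Function.iterate_add_apply] at hh
      exact hinj hh
  have hlap : T.m * T.lap x v = T.m * T.lap x' v' := by
    apply Nat.dvd_antisymm
    · exact (hp' _).1 ((h.iter_eq_iff hu' hv' _).2 dvd_rfl)
    · exact (h.iter_eq_iff hu' hv' _).1 ((hp' _).2 dvd_rfl)
  have hlap' : T.lap x v = T.lap x' v' := Nat.eq_of_mul_eq_mul_left T.m_pos hlap
  rw [h.lap, h.lap, D.R_len x x' hlen] at hlap'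
  obtain ⟨rfl, rfl⟩ := h.inj x x' v v' hlen hv (by rw [D.B_len x x' hlen]; exact hv') (by omega)
  obtain ⟨q, hq⟩ := h.trans (T.ans x v) u' hu'
  refine ⟨i + q * T.lap x v, ?_⟩
  rw [Function.iterate_add_apply, T.F_iter (T.V_zero T.m_pos hv), T.G_laps x 0 hv, hq]

end Tower

end Pool.Agent.V7H56.PP
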