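import Pool.Agent.V7H56.PP.LDefs

/-!
# Closed walks of prescribed length in a fixed digraph
-/

namespace Pool.Agent.V7H56.PP

open Pool.Agent.NPC Pool.Agent.NPC.PIso

variable {q : ℕ} {E : Fin (q + 1) → Fin (q + 1) → Prop}

theorem Closed.zero (a : Fin (q + 1)) : Closed E a 0 := ⟨fun _ => a, rfl, rfl, by simp⟩

theorem Closed.add {a : Fin (q + 1)} {d e : ℕ} (h : Closed E a d) (h' : Closed E a e) :
    Closed E a (d + e) := by
  obtain ⟨w, h1, h2, h3⟩ := h
  obtain ⟨w', h1', h2', h3'⟩ := h'
  refine ⟨fun i => if i ≤ d then w i else w' (i - d), by simp [h1], ?_, ?_⟩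
  · rcases Nat.eq_zero_or_pos e with he | he
    · subst he
      simpa using h2
    · simp only
      rw [if_neg (by omega), Nat.add_sub_cancel_left, h2']
  · intro i hi
    simp only
    rcases lt_trichotomy i d with hlt | heq | hgt
    · rw [if_pos (by omega), if_pos (by omega)]
      exact h3 i hlt
    · subst heq
      rw [if_pos le_rfl, if_neg (by omega), h2, ← h1', Nat.add_sub_cancel_left]
      exact h3' 0 (by omega)
    · rw [if_neg (by omega), if_neg (by omega)]
      have e1 : i + 1 - d = i - d + 1 := by omega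
      rw [e1]
      exact h3' (i - d) (by omega)

theorem Closed.mul {a : Fin (q + 1)} {d : ℕ} (h : Closed E a d) (n : ℕ) : Closed E a (n * d) := by
  induction n with
  | zero => simpa using Closed.zero a
  | succ n ih => rw [Nat.succ_mul]; exact ih.add h

theorem Closed.mul' {a : Fin (q + 1)} {d : ℕ} (h : Closed E a d) (n : ℕ) : Closed E a (d * n) := by
  rw [mul_comm]; exact h.mul n

variable {α : Type} [TEnc α]

/-- table lookup -/
theorem poly_table (M : ℕ) (t : ℕ → ℕ) {i : α → ℕ} (hi : Poly i) :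
    Poly (fun a => ((List.range M).map t).getD (i a) 0) :=
  Poly.getD (NPC.Poly.const _) hi (NPC.Poly.const 0)

theorem table_eq {M : ℕ} {t : ℕ → ℕ} {i : ℕ} (hi : i < M) :
    ((List.range M).map t).getD i 0 = t i := by
  simp [List.getD_eq_getElem?_getD, hi]

/-- Closed walks at a fixed vertex, computable in polynomial time. -/
theorem exists_anchored (E : Fin (q + 1) → Fin (q + 1) → Prop) (a : Fin (q + 1)) :
    ∃ (cl : ℕ → Bool) (wl : ℕ → ℕ → Fin (q + 1)), Poly cl ∧
      Poly (fun p : ℕ × ℕ => (wl p.1 p.2 : ℕ)) ∧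
      (∀ N, 0 < N → (cl N = true ↔ Closed E a N)) ∧
      ∀ N, 0 < N → Closed E a N → wl N 0 = a ∧
        ∀ i < N, E (wl N i) (if i + 1 < N then wl N (i + 1) else a) := by
  classical
  by_cases hM : ∃ d, 0 < d ∧ Closed E a d
  swap
  · push Not at hM
    refine ⟨fun _ => false, fun _ _ => a, NPC.Poly.const _, NPC.Poly.const _, fun N hN => ?_,
      fun N hN h => absurd h (hM N hN)⟩
    simpa using hM N hN
  obtain ⟨M, hM0, hM⟩ := hM
  let C : ℕ → ℕ → Prop := fun r N => 0 < N ∧ N % M = r ∧ Closed E a N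
  let lam : ℕ → ℕ := fun r => if h : ∃ N, C r N then Nat.find h else 0
  have hlam : ∀ r N, C r N → 0 < lam r ∧ lam r % M = r ∧ Closed E a (lam r) ∧ lam r ≤ N := by
    intro r N h
    have hex : ∃ N, C r N := ⟨N, h⟩
    have e : lam r = Nat.find hex := dif_pos hex
    rw [e]
    exact ⟨(Nat.find_spec hex).1, (Nat.find_spec hex).2.1, (Nat.find_spec hex).2.2,
      Nat.find_min' hex h⟩
  have hlam' : ∀ r, lam r ≠ 0 → Closed E a (lam r) ∧ lam r % M = r := by
    intro r h
    by_cases hex : ∃ N, C r N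
    · obtain ⟨N, hN⟩ := hex
      exact ⟨(hlam r N hN).2.2.1, (hlam r N hN).2.1⟩
    · exact absurd (dif_neg hex) h
  -- the walks
  have hw : ∀ r, ∃ w : ℕ → Fin (q + 1), lam r ≠ 0 → w 0 = a ∧ w (lam r) = a ∧
      ∀ i < lam r, E (w i) (w (i + 1)) := by
    intro r
    by_cases h : lam r = 0
    · exact ⟨fun _ => a, fun h' => absurd h h'⟩
    · obtain ⟨w, hw⟩ := (hlam' r h).1
      exact ⟨w, fun _ => hw⟩
  choose W hW using hw
  obtain ⟨Cy, hC0, hCM, hC⟩ := hM
  let mx : ℕ := (Finset.range M).sup lam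
  have hmx : ∀ r < M, lam r ≤ mx := fun r hr => Finset.le_sup (f := lam) (Finset.mem_range.2 hr)
  let wn : ℕ → ℕ → ℕ := fun N i =>
    if i < ((List.range M).map lam).getD (N % M) 0 then
      ((List.range (M * (mx + 1))).map (fun s => (W (s / (mx + 1)) (s % (mx + 1)) : ℕ))).getD
        (N % M * (mx + 1) + i) 0
    else ((List.range M).map (fun s => (Cy s : ℕ))).getD
      ((i - ((List.range M).map lam).getD (N % M) 0) % M) 0
  have hwn : ∀ N i, wn N i = ((if i < lam (N % M) then W (N % M) i
      else Cy ((i - lam (N % M)) % M) : Fin (q + 1)) : ℕ) := by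
    intro N i
    have h1 : N % M < M := Nat.mod_lt _ hM0
    simp only [wn]
    rw [table_eq h1]
    split_ifs with h
    · have h2 : i < mx + 1 := by have := hmx _ h1; omega
      have h3 : N % M * (mx + 1) + i < M * (mx + 1) := by nlinarith
      rw [table_eq h3]
      have e1 : (N % M * (mx + 1) + i) / (mx + 1) = N % M := by
        rw [mul_comm, Nat.mul_add_div (Nat.succ_pos _), Nat.div_eq_of_lt h2, add_zero]
      have e2 : (N % M * (mx + 1) + i) % (mx + 1) = i := by
        rw [mul_comm, Nat.mul_add_mod, Nat.mod_eq_of_lt h2]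
      rw [e1, e2]
    · rw [table_eq (Nat.mod_lt _ hM0)]
  refine ⟨fun N => decide (¬ ((List.range M).map lam).getD (N % M) 0 = 0) &&
      decide (((List.range M).map lam).getD (N % M) 0 ≤ N),
    fun N i => if i < lam (N % M) then W (N % M) i else Cy ((i - lam (N % M)) % M), ?_, ?_, ?_, ?_⟩
  · have h1 : Poly (fun N : ℕ => ((List.range M).map lam).getD (N % M) 0) :=
      poly_table M lam (Poly.mod Poly.id (NPC.Poly.const M))
    exact Poly.and (Poly.decide_not (Poly.decide_eq h1 (NPC.Poly.const 0))) (Poly.decide_le h1 Poly.id)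
  · have hN : Poly (fun p : ℕ × ℕ => p.1 % M) := Poly.mod (Poly.fst Poly.id) (NPC.Poly.const M)
    have hi : Poly (fun p : ℕ × ℕ => p.2) := Poly.snd Poly.id
    have hl : Poly (fun p : ℕ × ℕ => ((List.range M).map lam).getD (p.1 % M) 0) :=
      poly_table M lam hN
    have h : Poly (fun p : ℕ × ℕ => wn p.1 p.2) :=
      Poly.ite (Poly.decide_lt hi hl)
        (poly_table _ _ (Poly.add (Poly.mul hN (NPC.Poly.const _)) hi))
        (poly_table _ _ (Poly.mod (Poly.sub hi hl) (NPC.Poly.const M)))
    exact h.congr fun p => hwn _ _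
  · intro N hN
    have h1 : N % M < M := Nat.mod_lt _ hM0
    simp only [Bool.and_eq_true, decide_eq_true_iff]
    rw [table_eq h1]
    constructor
    · rintro ⟨h2, h3⟩
      obtain ⟨h4, h5⟩ := hlam' _ h2
      have h6 : ∃ j, N = lam (N % M) + M * j := by
        have h7 : lam (N % M) ≡ N [MOD M] := h5
        obtain ⟨j, hj⟩ := (Nat.modEq_iff_dvd' h3).1 h7
        exact ⟨j, by omega⟩
      obtain ⟨j, hj⟩ := h6
      rw [hj]
      exact h4.add (Closed.mul' ⟨Cy, hC0, hCM, hC⟩ j)
    · intro h
      obtain ⟨h2, _, _, h5⟩ := hlam (N % M) N ⟨hN, rfl, h⟩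
      exact ⟨by omega, h5⟩
  · intro N hN h
    obtain ⟨h2, h3, h4, h5⟩ := hlam (N % M) N ⟨hN, rfl, h⟩
    obtain ⟨hW0, hWl, hWE⟩ := hW (N % M) (by omega)
    have h3' : lam (N % M) ≡ N [MOD M] := h3
    obtain ⟨j, hj⟩ := (Nat.modEq_iff_dvd' h5).1 h3'
    simp only
    refine ⟨by rw [if_pos h2, hW0], fun i hi => ?_⟩
    generalize lam (N % M) = l at h2 h5 hWl hWE hj ⊢
    generalize W (N % M) = w at hW0 hWl hWE ⊢
    rcases Nat.lt_or_ge i l with h6 | h6
    · rw [if_pos h6]
      rcases Nat.lt_or_ge (i + 1) l with h7 | h7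
      · rw [if_pos (by omega), if_pos h7]
        exact hWE i h6
      · have h8 : i + 1 = l := by omega
        have h9 := hWE i h6
        rw [h8, hWl] at h9
        rw [h8]
        by_cases h10 : l < N
        · rw [if_pos h10, if_neg (lt_irrefl l), Nat.sub_self, Nat.zero_mod, hC0]
          exact h9
        · rw [if_neg h10]
          exact h9
    · rw [if_neg (by omega)]
      have h7 := Nat.mod_lt (i - l) hM0
      have h8 := hC _ h7
      rcases Nat.lt_or_ge (i + 1) N with h9 | h9
      · rw [if_pos h9, if_neg (by omega)]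
        have e1 : i + 1 - l = i - l + 1 := by omega
        rw [e1, Nat.add_mod]
        rcases Nat.lt_or_ge ((i - l) % M + 1) M with h10 | h10
        · have hM1 : 1 < M := by omega
          rw [Nat.mod_eq_of_lt hM1, Nat.mod_eq_of_lt h10]
          exact h8
        · have h11 : (i - l) % M + 1 = M := by omega
          rw [Nat.add_mod_mod, h11, Nat.mod_self, hC0]
          rw [h11, hCM] at h8
          exact h8
      · rw [if_neg (by omega)]
        have h10 : i - l + 1 = M * j := by omega
        have h11 : (i - l) % M + 1 = M := by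
          have h12 : (i - l + 1) % M = 0 := by rw [h10]; exact Nat.mul_mod_right _ _
          rw [Nat.add_mod] at h12
          rcases Nat.lt_or_ge ((i - l) % M + 1) M with h13 | h13
          · have hM1 : 1 < M := by omega
            rw [Nat.mod_eq_of_lt hM1, Nat.mod_eq_of_lt h13] at h12
            omega
          · omega
        rw [h11, hCM] at h8
        exact h8

/-- Closed walks, computable in polynomial time. -/
theorem exists_walks (E : Fin (q + 1) → Fin (q + 1) → Prop) :
    ∃ wl : ℕ → ℕ → Fin (q + 1), Poly (fun p : ℕ × ℕ => (wl p.1 p.2 : ℕ)) ∧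
      ∀ N, 0 < N → (∃ a, Closed E a N) → ∀ i < N, E (wl N i) (wl N ((i + 1) % N)) := by
  have key : ∀ l : List (Fin (q + 1)), ∃ wl : ℕ → ℕ → Fin (q + 1),
      Poly (fun p : ℕ × ℕ => (wl p.1 p.2 : ℕ)) ∧
      ∀ N, 0 < N → (∃ a ∈ l, Closed E a N) → ∀ i < N, E (wl N i) (wl N ((i + 1) % N)) := by
    intro l
    induction l with
    | nil => exact ⟨fun _ _ => 0, NPC.Poly.const _, fun N _ h => by simp at h⟩
    | cons a l ih =>
      obtain ⟨wl, h1, h2⟩ := ih
      obtain ⟨cl, wa, h3, h4, h5, h6⟩ := exists_anchored E a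
      refine ⟨fun N i => if cl N = true then wa N i else wl N i, ?_, ?_⟩
      · refine (Poly.ite (Poly.decide_bool (h3.comp (Poly.fst Poly.id))) h4 h1).congr fun p => ?_
        by_cases hc : cl p.1 = true <;> simp [hc]
      · intro N hN h i hi
        simp only
        by_cases hc : cl N = true
        · rw [if_pos hc, if_pos hc]
          obtain ⟨h7, h8⟩ := h6 N hN ((h5 N hN).1 hc)
          have h9 := h8 i hi
          rcases Nat.lt_or_ge (i + 1) N with h10 | h10
          · rw [if_pos h10] at h9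
            rw [Nat.mod_eq_of_lt h10]
            exact h9
          · rw [if_neg (by omega)] at h9
            have h11 : i + 1 = N := by omega
            rw [h11, Nat.mod_self, h7]
            exact h9
        · rw [if_neg hc, if_neg hc]
          refine h2 N hN ?_ i hi
          obtain ⟨b, hb, h7⟩ := h
          rcases List.mem_cons.1 hb with rfl | hb
          · exact absurd ((h5 N hN).2 h7) hc
          · exact ⟨b, hb, h7⟩
  obtain ⟨wl, h1, h2⟩ := key (List.finRange (q + 1))
  refine ⟨wl, h1, fun N hN h => h2 N hN ?_⟩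
  obtain ⟨a, ha⟩ := h
  exact ⟨a, List.mem_finRange a, ha⟩

end Pool.Agent.V7H56.PP
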